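import Pool.Agent.K4H18.EK.A7
import Pool.Agent.H373R2.T7.LamZ2
import Pool.Agent.Helper602.MK.J3
import Pool.Agent.H316R2.LS

set_option autoImplicit false

/-! Elementary estimates. -/

namespace Pool.Agent.K4H18.TD

open Finset
open Pool.Agent.H373R2.T7 (pz mem_pz Vz Vz_pos Vz_inv_small ev_L')

lemma inv_one_sub_le {p : ℕ} (hp : p.Prime) : (1 - 1 / (p : ℝ))⁻¹ ≤ Real.exp (2 * (1 / p)) := by
  have hp2 : (2 : ℝ) ≤ p := by exact_mod_cast hp.two_le
  have h6 : (1 - 1 / (p : ℝ))⁻¹ ≤ 2 * (1 / p) + 1 := by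
    rw [inv_le_iff_one_le_mul₀ (by rw [sub_pos, div_lt_one (by linarith)]; linarith)]
    have h7 : 0 < 1 / (p : ℝ) := by positivity
    have h8 : 1 / (p : ℝ) ≤ 1 / 2 := one_div_le_one_div_of_le (by norm_num) hp2
    nlinarith
  exact h6.trans (Real.add_one_le_exp _)

lemma one_sub_pos {p : ℕ} (hp : p.Prime) : 0 < 1 - 1 / (p : ℝ) := by
  have hp2 : (2 : ℝ) ≤ p := by exact_mod_cast hp.two_le
  rw [sub_pos, div_lt_one (by linarith)]; linarith

/-- sums of reciprocals of primes and the product `V(z)` -/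
lemma pz_bounds : ∃ C : ℝ, 1 ≤ C ∧ ∀ z : ℕ, 3 ≤ z → ∑ p ∈ pz z, 1 / (p : ℝ) ≤ Real.log (Real.log z) + C ∧
    (Vz z)⁻¹ ≤ C * Real.log z ^ 2 ∧ 1 ≤ Real.log z := by
  obtain ⟨C, hC⟩ := Pool.Agent.Helper256.KM.mertens_inv
  refine ⟨max C 0 + Real.exp (2 * C), ?_, fun z hz => ?_⟩
  · have h0 := le_max_left C 0
    have h1 := le_max_right C 0
    rcases le_total 0 C with h | h
    · have := Real.one_le_exp (show 0 ≤ 2 * C by linarith)
      linarith
    · have h2 := hC 3 le_rfl
      have h3 := (abs_nonneg _).trans h2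
      have h4 : C = 0 := le_antisymm h h3
      rw [h4]
      simp
  have hz3 : (3 : ℝ) ≤ z := by exact_mod_cast hz
  have hlz : 1 ≤ Real.log z := by
    rw [← Real.log_exp 1]
    apply Real.log_le_log (Real.exp_pos _)
    have := Real.exp_one_lt_d9
    linarith
  have h4 := hC z hz
  have h6 : ∑ p ∈ pz z, 1 / (p : ℝ) ≤ Real.log (Real.log z) + C := by
    have := (abs_le.1 h4).2
    unfold pz
    linarith
  have hmax := le_max_left C 0
  have hmax0 := le_max_right C 0
  have hexp := Real.exp_pos (2 * C)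
  refine ⟨by linarith, ?_, hlz⟩
  have h5 : (Vz z)⁻¹ ≤ Real.exp (2 * ∑ p ∈ pz z, 1 / (p : ℝ)) := by
    unfold Vz
    rw [← prod_inv_distrib, mul_sum, Real.exp_sum]
    apply prod_le_prod
    · intro p hp
      exact (inv_pos.2 (one_sub_pos (mem_pz.1 hp).2)).le
    · intro p hp
      exact inv_one_sub_le (mem_pz.1 hp).2
  calc (Vz z)⁻¹ ≤ Real.exp (2 * ∑ p ∈ pz z, 1 / (p : ℝ)) := h5
    _ ≤ Real.exp (2 * (Real.log (Real.log z) + C)) := Real.exp_le_exp.2 (by linarith)
    _ = Real.exp (2 * C) * Real.log z ^ 2 := by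
        rw [mul_add, Real.exp_add, mul_comm, two_mul (Real.log (Real.log z)), Real.exp_add, Real.exp_log (by linarith)]
        ring
    _ ≤ _ := mul_le_mul_of_nonneg_right (by linarith) (by positivity)

/-- `e / φ(e)` -/
lemma tot_bound : ∃ C : ℝ, 0 < C ∧ ∃ N0 : ℕ, ∀ N : ℕ, N0 ≤ N → ∀ e : ℕ, 1 ≤ e → e ≤ N ^ 2 →
    (e : ℝ) / (Nat.totient e : ℝ) ≤ C * Real.log (Real.log N) ^ 2 := by
  obtain ⟨C, hC1, hC⟩ := pz_bounds
  obtain ⟨N1, h1⟩ := ev_L' 4
  refine ⟨C * Real.exp 12, by positivity, max N1 3, fun N hN e he heN => ?_⟩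
  have hL4 := h1 N (by omega)
  have hN3 : (3 : ℝ) ≤ N := by exact_mod_cast (by omega : 3 ≤ N)
  set L := Real.log N with hL
  have hL0 : 0 < L := by linarith
  set z := ⌊L⌋₊ with hz
  have hz3 : 3 ≤ z := Nat.le_floor (by push_cast; linarith)
  have hzL : (z : ℝ) ≤ L := Nat.floor_le hL0.le
  obtain ⟨-, h3, h4⟩ := hC z hz3
  have he0 : (0 : ℝ) < e := by exact_mod_cast he
  -- the quotient as a product
  have hq : (e : ℝ) / (Nat.totient e : ℝ) = ∏ p ∈ e.primeFactors, (1 - 1 / (p : ℝ))⁻¹ := by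
    have h5 := Nat.totient_eq_mul_prod_factors e
    have h6 : (Nat.totient e : ℝ) = e * ∏ p ∈ e.primeFactors, (1 - 1 / (p : ℝ)) := by
      have h7 : ((Nat.totient e : ℚ) : ℝ) = ((e * ∏ p ∈ e.primeFactors, (1 - (p : ℚ)⁻¹) : ℚ) : ℝ) := by rw [h5]
      push_cast at h7
      rw [h7]
      congr 1
      apply prod_congr rfl
      intro p _
      rw [one_div]
    rw [h6, prod_inv_distrib]
    have hpos : 0 < ∏ p ∈ e.primeFactors, (1 - 1 / (p : ℝ)) := prod_pos fun p hp => one_sub_pos (Nat.prime_of_mem_primeFactors hp)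
    field_simp
  rw [hq, ← prod_filter_mul_prod_filter_not e.primeFactors (fun p => p ≤ z)]
  have hcard : (e.primeFactors.card : ℝ) ≤ 3 * L := by
    have h2 : 2 ^ e.primeFactors.card ≤ N ^ 2 := by
      calc 2 ^ e.primeFactors.card = ∏ _q ∈ e.primeFactors, 2 := by rw [prod_const]
        _ ≤ ∏ q ∈ e.primeFactors, q := prod_le_prod' fun q hq => (Nat.prime_of_mem_primeFactors hq).two_le
        _ ≤ e := Nat.le_of_dvd he (Nat.prod_primeFactors_dvd e)
        _ ≤ N ^ 2 := heN
    have h3 : ((2 : ℝ)) ^ e.primeFactors.card ≤ (N : ℝ) ^ 2 := by exact_mod_cast h2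
    have h4 := Real.log_le_log (by positivity) h3
    rw [Real.log_pow, Real.log_pow] at h4
    have h5 := Real.log_two_gt_d9
    push_cast at h4
    have h6 : (e.primeFactors.card : ℝ) * (2 / 3) ≤ e.primeFactors.card * Real.log 2 :=
      mul_le_mul_of_nonneg_left (by linarith) (Nat.cast_nonneg _)
    linarith
  have hfac : ∀ p ∈ e.primeFactors, 1 ≤ (1 - 1 / (p : ℝ))⁻¹ := by
    intro p hp
    have hpp := Nat.prime_of_mem_primeFactors hp
    apply (one_le_inv₀ (one_sub_pos hpp)).2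
    have : 0 < 1 / (p : ℝ) := by
      have : (2 : ℝ) ≤ p := by exact_mod_cast hpp.two_le
      positivity
    linarith
  have f1 : ∏ p ∈ e.primeFactors.filter (fun p => p ≤ z), (1 - 1 / (p : ℝ))⁻¹ ≤ C * Real.log L ^ 2 := by
    have h5 : ∏ p ∈ e.primeFactors.filter (fun p => p ≤ z), (1 - 1 / (p : ℝ))⁻¹ ≤ ∏ p ∈ pz z, (1 - 1 / (p : ℝ))⁻¹ := by
      apply prod_le_prod_of_subset_of_one_le
      · intro p hp
        rw [mem_filter] at hp
        exact mem_pz.2 ⟨hp.2, Nat.prime_of_mem_primeFactors hp.1⟩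
      · intro p hp
        rw [mem_filter] at hp
        exact (inv_pos.2 (one_sub_pos (Nat.prime_of_mem_primeFactors hp.1))).le
      · intro p hp _
        have hpp := (mem_pz.1 hp).2
        apply (one_le_inv₀ (one_sub_pos hpp)).2
        have : 0 < 1 / (p : ℝ) := by
          have : (2 : ℝ) ≤ p := by exact_mod_cast hpp.two_le
          positivity
        linarith
    refine h5.trans ?_
    rw [prod_inv_distrib]
    refine h3.trans ?_
    apply mul_le_mul_of_nonneg_left _ (by linarith)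
    apply pow_le_pow_left₀ (by linarith)
    exact Real.log_le_log (by positivity) hzL
  have f2 : ∏ p ∈ e.primeFactors.filter (fun p => ¬ p ≤ z), (1 - 1 / (p : ℝ))⁻¹ ≤ Real.exp 12 := by
    calc _ ≤ ∏ p ∈ e.primeFactors.filter (fun p => ¬ p ≤ z), Real.exp (4 / L) := by
          apply prod_le_prod
          · intro p hp
            rw [mem_filter] at hp
            exact (inv_pos.2 (one_sub_pos (Nat.prime_of_mem_primeFactors hp.1))).le
          · intro p hp
            rw [mem_filter] at hp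
            refine (inv_one_sub_le (Nat.prime_of_mem_primeFactors hp.1)).trans ?_
            apply Real.exp_le_exp.2
            have h5 : L < (z : ℝ) + 1 := Nat.lt_floor_add_one L
            have h6 : (z : ℝ) + 1 ≤ p := by exact_mod_cast (by omega : z + 1 ≤ p)
            rw [mul_one_div, div_le_div_iff₀ (by linarith) hL0]
            linarith
      _ = Real.exp (4 / L) ^ (e.primeFactors.filter (fun p => ¬ p ≤ z)).card := by rw [prod_const]
      _ ≤ Real.exp (4 / L) ^ e.primeFactors.card := by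
          apply pow_le_pow_right₀ (Real.one_le_exp (by positivity))
          exact card_le_card (filter_subset _ _)
      _ = Real.exp (e.primeFactors.card * (4 / L)) := by rw [Real.exp_nat_mul]
      _ ≤ Real.exp 12 := by
          apply Real.exp_le_exp.2
          rw [mul_div_assoc', div_le_iff₀ hL0]
          linarith
  calc _ ≤ (C * Real.log L ^ 2) * Real.exp 12 := by
        apply mul_le_mul f1 f2 (prod_nonneg fun p hp => ?_) (by positivity)
        rw [mem_filter] at hp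
        exact (inv_pos.2 (one_sub_pos (Nat.prime_of_mem_primeFactors hp.1))).le
    _ = _ := by ring

/-- harmonic sums -/
lemma inv_sum_Ioc (A B : ℕ) (hA : 1 ≤ A) (hAB : A ≤ B) : ∑ e ∈ Ioc A B, 1 / (e : ℝ) ≤ Real.log B - Real.log A := by
  induction B, hAB using Nat.le_induction with
  | base => simp
  | succ B hB ih =>
    have e1 : Ioc A (B + 1) = insert (B + 1) (Ioc A B) := by
      ext x
      rw [mem_insert, mem_Ioc, mem_Ioc]
      omega
    rw [e1, sum_insert (by rw [mem_Ioc]; omega)]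
    have hB0 : (0 : ℝ) < B := by exact_mod_cast (by omega : 0 < B)
    have h1 : 1 / ((B + 1 : ℕ) : ℝ) ≤ Real.log (B + 1 : ℕ) - Real.log B := by
      have h2 := Real.log_le_sub_one_of_pos (show (0 : ℝ) < B / (B + 1 : ℕ) by positivity)
      rw [Real.log_div hB0.ne' (by positivity)] at h2
      have h3 : (B : ℝ) / (B + 1 : ℕ) - 1 = -(1 / ((B + 1 : ℕ) : ℝ)) := by
        push_cast
        field_simp
        ring
      rw [h3] at h2
      linarith
    linarith

lemma inv_sum_Icc (B : ℕ) (hB : 1 ≤ B) : ∑ e ∈ Icc 1 B, 1 / (e : ℝ) ≤ 1 + Real.log B ∧ Real.log B ≤ ∑ e ∈ Icc 1 B, 1 / (e : ℝ) := by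
  have h2 : ∑ n ∈ Icc 1 B, 1 / (n : ℝ) = ((harmonic B : ℚ) : ℝ) := by
    rw [harmonic_eq_sum_Icc]
    push_cast
    simp
  rw [h2]
  refine ⟨harmonic_le_one_add_log B, ?_⟩
  refine le_trans ?_ (log_add_one_le_harmonic B)
  apply Real.log_le_log (by exact_mod_cast hB)
  push_cast
  linarith

/-- the tail of the divisor function -/
lemma tau_sq (X : ℕ) (hX : 1 ≤ X) : ∑ m ∈ Icc 1 X, (m.divisors.card : ℝ) ^ 2 ≤ X * (1 + Real.log X) ^ 4 := by
  have h := Pool.Agent.H316R2.tau_sq_sum_le X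
  calc ∑ m ∈ Icc 1 X, (m.divisors.card : ℝ) ^ 2 ≤ ∑ m ∈ Icc 1 X, X * ((m.divisors.card : ℝ) ^ 2 / m) := by
        apply sum_le_sum
        intro m hm
        rw [mem_Icc] at hm
        have h1 : (1 : ℝ) ≤ m := by exact_mod_cast hm.1
        have h2 : (m : ℝ) ≤ X := by exact_mod_cast hm.2
        rw [mul_div_assoc', le_div_iff₀ (by linarith), mul_comm]
        exact mul_le_mul_of_nonneg_right h2 (by positivity)
    _ = X * ∑ m ∈ Icc 1 X, ((m.divisors.card : ℝ) ^ 2 / m) := by rw [mul_sum]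
    _ ≤ _ := mul_le_mul_of_nonneg_left h (Nat.cast_nonneg _)

end Pool.Agent.K4H18.TD
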