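import Pool.Agent.K4H18.TD.B9

set_option autoImplicit false

/-! The divisor function over the partitions of a good number: the asymptotic formula. -/

namespace Pool.Agent.K4H18.TD

open Finset
open Pool.Agent.H373R2.T7 (pz mem_pz Vz Vz_pos Vz_inv_small ev_L' es es_nonneg)
open Pool.Agent.H560R3.GB (energy g HL sing)
open Pool.Agent.K4H18.EK (Ps Pn card_Pn pr RG LG RG_LG Dif Dif_eq pi1_nonneg Xn Xn_nonneg Xn_near basic)

/-- removing the logarithm -/
lemma unweight (n : ℕ) (a : ℤ) (hn : 1 ≤ n) (R : ℝ) (hR : 1 ≤ R) :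
    Real.log n * ∑ p ∈ Pn n, (tau a p : ℝ) ≤ ∑ p ∈ Pn n, (tau a p : ℝ) * Real.log ((n - p : ℕ) : ℝ) +
      Real.log R * ∑ p ∈ Pn n, (tau a p : ℝ) + Real.log n * ∑ p ∈ (Icc 1 n).filter (fun p : ℕ => ((n - p : ℕ) : ℝ) < n / R), (tau a p : ℝ) := by
  classical
  have hnr : (1 : ℝ) ≤ n := by exact_mod_cast hn
  have hln : 0 ≤ Real.log n := Real.log_nonneg hnr
  have hlR : 0 ≤ Real.log R := Real.log_nonneg hR
  have h1 : ∀ p ∈ Pn n, Real.log n * (tau a p : ℝ) ≤ (tau a p : ℝ) * Real.log ((n - p : ℕ) : ℝ) + Real.log R * (tau a p : ℝ) +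
      (if ((n - p : ℕ) : ℝ) < n / R then Real.log n * (tau a p : ℝ) else 0) := by
    intro p hp
    unfold Pn at hp
    rw [mem_filter, mem_Icc] at hp
    have h2 : (1 : ℝ) ≤ ((n - p : ℕ) : ℝ) := by exact_mod_cast hp.2.2.one_le
    have h3 : 0 ≤ Real.log ((n - p : ℕ) : ℝ) := Real.log_nonneg h2
    have h4 : (0 : ℝ) ≤ tau a p := Nat.cast_nonneg _
    split_ifs with h5
    · have h6 : 0 ≤ (tau a p : ℝ) * Real.log ((n - p : ℕ) : ℝ) := mul_nonneg h4 h3
      have h7 : 0 ≤ Real.log R * (tau a p : ℝ) := mul_nonneg hlR h4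
      linarith
    · rw [not_lt] at h5
      have h6 := Real.log_le_log (by positivity) h5
      rw [Real.log_div (by linarith) (by linarith)] at h6
      have h7 := mul_le_mul_of_nonneg_right (show Real.log n ≤ Real.log ((n - p : ℕ) : ℝ) + Real.log R by linarith) h4
      linarith
  rw [mul_sum]
  refine (sum_le_sum h1).trans ?_
  rw [sum_add_distrib, sum_add_distrib, ← mul_sum, ← sum_filter, mul_sum (a := Real.log n)]
  apply add_le_add le_rfl
  apply sum_le_sum_of_subset_of_nonneg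
  · intro p hp
    unfold Pn at hp
    rw [mem_filter, mem_filter] at hp
    rw [mem_filter]
    exact ⟨hp.1.1, hp.2⟩
  · intro p _ _
    exact mul_nonneg hln (Nat.cast_nonneg _)

/-- a short interval -/
lemma short_sum (n : ℕ) (a : ℤ) (R y tl : ℝ) (hR : 0 < R) (hy : 0 ≤ y) (htl : ∑ b ∈ Icc 1 n, ((tau a b : ℝ) - min (tau a b : ℝ) y) ≤ tl) :
    ∑ p ∈ (Icc 1 n).filter (fun p : ℕ => ((n - p : ℕ) : ℝ) < n / R), (tau a p : ℝ) ≤ (n / R + 1) * y + tl := by
  classical
  set S := (Icc 1 n).filter (fun p : ℕ => ((n - p : ℕ) : ℝ) < n / R) with hS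
  have h0 : ∀ b : ℕ, 0 ≤ (tau a b : ℝ) - min (tau a b : ℝ) y := fun b => by
    have := min_le_left (tau a b : ℝ) y
    linarith
  have hcard : (S.card : ℝ) ≤ n / R + 1 := by
    have h1 : S.card ≤ (range (⌊(n : ℝ) / R⌋₊ + 1)).card := by
      apply card_le_card_of_injOn (fun p => n - p)
      · intro p hp
        rw [mem_coe, hS, mem_filter] at hp
        rw [mem_coe, mem_range, Nat.lt_succ_iff]
        exact Nat.le_floor hp.2.le
      · intro p hp q hq h
        rw [mem_coe, hS, mem_filter, mem_Icc] at hp hq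
        simp only at h
        omega
    rw [card_range] at h1
    have h2 : (⌊(n : ℝ) / R⌋₊ : ℝ) ≤ n / R := Nat.floor_le (by positivity)
    have h3 : (S.card : ℝ) ≤ ⌊(n : ℝ) / R⌋₊ + 1 := by exact_mod_cast h1
    linarith
  calc ∑ p ∈ S, (tau a p : ℝ) = ∑ p ∈ S, min (tau a p : ℝ) y + ∑ p ∈ S, ((tau a p : ℝ) - min (tau a p : ℝ) y) := by
        rw [← sum_add_distrib]
        apply sum_congr rfl
        intro p _
        ring
    _ ≤ ∑ _p ∈ S, y + ∑ p ∈ Icc 1 n, ((tau a p : ℝ) - min (tau a p : ℝ) y) := by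
        apply add_le_add
        · exact sum_le_sum fun p _ => min_le_right _ _
        · exact sum_le_sum_of_subset_of_nonneg (filter_subset _ _) fun p _ _ => h0 p
    _ ≤ (n / R + 1) * y + tl := by
        rw [sum_const, nsmul_eq_mul]
        exact add_le_add (mul_le_mul_of_nonneg_right hcard hy) htl

/-- the weighted sums over the partitions and over the model -/
lemma weighted_near (N K z BN n : ℕ) (a : ℤ) (Dl tl : ℝ) (hz : 2 ≤ z) (hnB : n ≤ BN) (hn : 1 ≤ n) (hL : 0 < Real.log N)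
    (hV : (Vz z)⁻¹ ≤ Real.log N) (hD : ‖Dif z BN n (pr (wT N K a))‖ ≤ Dl)
    (htl : ∑ b ∈ Icc 1 n, ((tau a b : ℝ) - min (tau a b : ℝ) (Real.log N ^ K)) ≤ tl) (hln : Real.log n ≤ 2 * Real.log N) :
    |∑ p ∈ Pn n, (tau a p : ℝ) * Real.log ((n - p : ℕ) : ℝ) - (Vz z)⁻¹ * ∑ b ∈ Ps n z, (tau a b : ℝ)| ≤
      Real.log N ^ K * (Dl + 2 * √(n : ℝ) * Real.log n) + 3 * Real.log N * tl := by
  classical
  set L := Real.log N with hLd
  have hV0 : 0 < (Vz z)⁻¹ := inv_pos.2 (Vz_pos z)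
  have hnr : (1 : ℝ) ≤ n := by exact_mod_cast hn
  have hln0 : 0 ≤ Real.log n := Real.log_nonneg hnr
  have hLK : 0 < L ^ K := by positivity
  rw [Dif_eq BN n z hz hnB (wT N K a)] at hD
  have e2 := RG_LG n hn (wT N K a) (fun b => norm_wT N K a b hL)
  -- the truncated sums
  have h1 : |∑ p ∈ Pn n, mt N K a p * Real.log ((n - p : ℕ) : ℝ) - (Vz z)⁻¹ * ∑ b ∈ Ps n z, mt N K a b| ≤
      L ^ K * (Dl + 2 * √(n : ℝ) * Real.log n) := by
    have h2 : ‖LG n (wT N K a) - (((Vz z)⁻¹ : ℝ) : ℂ) * ∑ b ∈ Ps n z, wT N K a b‖ ≤ Dl + 2 * √(n : ℝ) * Real.log n := by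
      have e : LG n (wT N K a) - (((Vz z)⁻¹ : ℝ) : ℂ) * ∑ b ∈ Ps n z, wT N K a b =
          (RG n (wT N K a) - (((Vz z)⁻¹ : ℝ) : ℂ) * ∑ b ∈ Ps n z, wT N K a b) - (RG n (wT N K a) - LG n (wT N K a)) := by ring
      rw [e]
      exact (norm_sub_le _ _).trans (add_le_add hD e2)
    have h3 : LG n (wT N K a) - (((Vz z)⁻¹ : ℝ) : ℂ) * ∑ b ∈ Ps n z, wT N K a b =
        (((∑ p ∈ Pn n, mt N K a p * Real.log ((n - p : ℕ) : ℝ) - (Vz z)⁻¹ * ∑ b ∈ Ps n z, mt N K a b) / L ^ K : ℝ) : ℂ) := by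
      have hA : LG n (wT N K a) = ((∑ p ∈ Pn n, (mt N K a p / Real.log N ^ K) * Real.log ((n - p : ℕ) : ℝ) : ℝ) : ℂ) := by
        unfold LG wT
        rw [Complex.ofReal_sum]
        apply sum_congr rfl
        intro p _
        rw [Complex.ofReal_mul]
      have hB : ∑ b ∈ Ps n z, wT N K a b = ((∑ b ∈ Ps n z, mt N K a b / Real.log N ^ K : ℝ) : ℂ) := by
        unfold wT
        rw [Complex.ofReal_sum]
      rw [hA, hB, ← Complex.ofReal_mul, ← Complex.ofReal_sub, ← hLd]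
      congr 1
      rw [sub_div, sum_div, mul_div_assoc, sum_div]
      congr 1
      apply sum_congr rfl
      intro p _
      ring
    rw [h3, Complex.norm_real, Real.norm_eq_abs, abs_div, abs_of_pos hLK, div_le_iff₀ hLK] at h2
    linarith
  -- the tails
  have h0 : ∀ b : ℕ, 0 ≤ (tau a b : ℝ) - mt N K a b := fun b => by
    have := min_le_left (tau a b : ℝ) (L ^ K)
    unfold mt
    linarith
  have htl0 : 0 ≤ tl := le_trans (sum_nonneg fun b _ => h0 b) htl
  have h4 : 0 ≤ ∑ p ∈ Pn n, ((tau a p : ℝ) - mt N K a p) * Real.log ((n - p : ℕ) : ℝ) ∧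
      ∑ p ∈ Pn n, ((tau a p : ℝ) - mt N K a p) * Real.log ((n - p : ℕ) : ℝ) ≤ 2 * L * tl := by
    have hlog : ∀ p ∈ Pn n, 0 ≤ Real.log ((n - p : ℕ) : ℝ) ∧ Real.log ((n - p : ℕ) : ℝ) ≤ 2 * L := by
      intro p hp
      unfold Pn at hp
      rw [mem_filter, mem_Icc] at hp
      have h2 : (1 : ℝ) ≤ ((n - p : ℕ) : ℝ) := by exact_mod_cast hp.2.2.one_le
      refine ⟨Real.log_nonneg h2, le_trans (Real.log_le_log (by linarith) ?_) hln⟩
      exact_mod_cast Nat.sub_le n p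
    constructor
    · exact sum_nonneg fun p hp => mul_nonneg (h0 p) (hlog p hp).1
    · calc _ ≤ ∑ p ∈ Pn n, ((tau a p : ℝ) - mt N K a p) * (2 * L) := sum_le_sum fun p hp => mul_le_mul_of_nonneg_left (hlog p hp).2 (h0 p)
        _ = (2 * L) * ∑ p ∈ Pn n, ((tau a p : ℝ) - mt N K a p) := by rw [mul_sum]; apply sum_congr rfl; intro p _; ring
        _ ≤ (2 * L) * tl := by
            apply mul_le_mul_of_nonneg_left _ (by positivity)
            refine le_trans ?_ htl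
            apply sum_le_sum_of_subset_of_nonneg
            · intro p hp
              unfold Pn at hp
              exact (mem_filter.1 hp).1
            · intro p _ _
              exact h0 p
  have h5 : 0 ≤ (Vz z)⁻¹ * ∑ b ∈ Ps n z, ((tau a b : ℝ) - mt N K a b) ∧
      (Vz z)⁻¹ * ∑ b ∈ Ps n z, ((tau a b : ℝ) - mt N K a b) ≤ L * tl := by
    have h6 : 0 ≤ ∑ b ∈ Ps n z, ((tau a b : ℝ) - mt N K a b) := sum_nonneg fun p _ => h0 p
    refine ⟨mul_nonneg hV0.le h6, ?_⟩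
    apply mul_le_mul hV _ h6 hL.le
    refine le_trans ?_ htl
    apply sum_le_sum_of_subset_of_nonneg
    · intro p hp
      unfold Ps at hp
      exact (mem_filter.1 hp).1
    · intro p _ _
      exact h0 p
  have e : ∑ p ∈ Pn n, (tau a p : ℝ) * Real.log ((n - p : ℕ) : ℝ) - (Vz z)⁻¹ * ∑ b ∈ Ps n z, (tau a b : ℝ) =
      (∑ p ∈ Pn n, mt N K a p * Real.log ((n - p : ℕ) : ℝ) - (Vz z)⁻¹ * ∑ b ∈ Ps n z, mt N K a b) +
      (∑ p ∈ Pn n, ((tau a p : ℝ) - mt N K a p) * Real.log ((n - p : ℕ) : ℝ) - (Vz z)⁻¹ * ∑ b ∈ Ps n z, ((tau a b : ℝ) - mt N K a b)) := by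
    have e1 : ∑ p ∈ Pn n, ((tau a p : ℝ) - mt N K a p) * Real.log ((n - p : ℕ) : ℝ) =
        ∑ p ∈ Pn n, (tau a p : ℝ) * Real.log ((n - p : ℕ) : ℝ) - ∑ p ∈ Pn n, mt N K a p * Real.log ((n - p : ℕ) : ℝ) := by
      rw [← sum_sub_distrib]
      apply sum_congr rfl
      intro p _
      ring
    rw [e1, sum_sub_distrib]
    ring
  rw [e]
  refine (abs_add_le _ _).trans (add_le_add h1 ?_)
  rw [abs_le]
  have hLtl : 0 ≤ L * tl := mul_nonneg hL.le htl0
  constructor <;> linarith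

theorem det_tau (ε : ℝ) (hε : 0 < ε) (hε1 : ε ≤ 1 / 40) (E W B A : ℕ) : ∃ N0 : ℕ, ∀ N : ℕ, N0 ≤ N → ∀ z : ℕ, Real.log N ^ 3 ≤ z →
    Real.log N ^ A ≤ z → (z : ℝ) ≤ Real.log N ^ E → ∀ n : ℕ, Even n → (N : ℝ) / Real.log N ^ W ≤ n → n ≤ B * N →
    |(g n : ℝ) - HL n| ≤ ε * HL n → ∀ a : ℤ, a ≠ 0 → (a.natAbs : ℝ) ≤ Real.log N ^ A →
    ‖Dif z (B * N) n (pr (wT N (W + 12) a))‖ ≤ N / Real.log N ^ (2 * W + 18) →
      |∑ p ∈ Pn n, (tau a p : ℝ) - cT a n * g n * Real.log n| ≤ 20 * ε * (cT a n * g n * Real.log n) := by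
  obtain ⟨N1, h1⟩ := model ε hε E W B A
  obtain ⟨N2, h2⟩ := sizes2 (E + 20) W B A
  obtain ⟨N3, h3⟩ := Vz_inv_small E
  obtain ⟨N4, h4⟩ := basic W B 4 ε hε (by linarith)
  obtain ⟨N5, h5⟩ := ev_L' (1024 + 6 / ε)
  obtain ⟨N6, h6⟩ := ev_lam_pow 3 (2 * (W + 18) / ε + 1)
  obtain ⟨N7, h7⟩ := Pool.Agent.K4H18.EK.ev_lam 1 1 one_pos
  refine ⟨max (max (max N1 N2) (max N3 N4)) (max (max N5 N6) (max N7 3)),
    fun N hN z hz3 hzA hzE n hn hnN hnB hg a ha haA hD => ?_⟩
  have hN3 : (3 : ℝ) ≤ N := by exact_mod_cast (by omega : 3 ≤ N)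
  have hN0 : (0 : ℝ) < N := by linarith
  obtain ⟨m1, m2, m3⟩ := h1 N (by omega) z hz3 hzA hzE n hn hnN hnB a ha haA
  obtain ⟨s1, s2, s3, s4, s5, s6, s7, s8, s9⟩ := h2 N (by omega) n hnN hnB
  obtain ⟨d1, d2, d3, d4, d5, d6, d7, -, -, -⟩ := h4 N (by omega) z hz3 n hn hnN hnB
  have b5 := h5 N (by omega)
  have b6 := h6 N (by omega)
  obtain ⟨-, l1, -⟩ := h7 N (by omega)
  have hL0 : 0 < Real.log N := by linarith
  have hL1 : 1 ≤ Real.log N := by linarith
  have hz3' : 3 ≤ z := by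
    have : (3 : ℝ) ≤ z := by
      refine le_trans ?_ hz3
      calc (3 : ℝ) ≤ Real.log N := by linarith
        _ ≤ Real.log N ^ 3 := le_self_pow₀ hL1 (by norm_num)
    exact_mod_cast this
  have hV := h3 N (by omega) z (by omega) hzE
  clear h1 h2 h3 h4 h5 h6 h7
  have hn0 : (0 : ℝ) < n := by exact_mod_cast (by omega : 0 < n)
  have hn1 : 1 ≤ n := by omega
  set L := Real.log N with hL
  set lam := Real.log L with hlam
  have hε6 : 0 < 6 / ε := by positivity
  have hL1024 : 1024 ≤ L := by linarith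
  -- `|a| ≤ n`
  have hsq : √(n : ℝ) * √(n : ℝ) = n := Real.mul_self_sqrt hn0.le
  have hpw : L ^ (W + 18) * L ^ A ≤ √(n : ℝ) / 4 := by
    rw [le_div_iff₀ (by norm_num), ← pow_add]
    refine le_trans ?_ s1
    rw [mul_comm]
    apply mul_le_mul_of_nonneg_left _ (by norm_num)
    exact pow_le_pow_right₀ hL1 (by omega)
  have hLA1 : 1 ≤ L ^ A := one_le_pow₀ hL1
  have hLW1 : 1 ≤ L ^ (W + 18) := one_le_pow₀ hL1
  have han : a.natAbs ≤ n := by
    have h14 : (a.natAbs : ℝ) ≤ n := by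
      refine haA.trans (le_trans ?_ s9)
      have : L ^ A ≤ L ^ (W + 18) * L ^ A := le_mul_of_one_le_left (by positivity) hLW1
      have : 0 ≤ √(n : ℝ) := Real.sqrt_nonneg _
      linarith
    exact_mod_cast h14
  have hpw2 : L ^ (W + 18) ≤ √(n : ℝ) / 4 := le_trans (le_mul_of_one_le_right (by positivity) hLA1) hpw
  -- the tail
  set K := W + 12 with hK
  have htail : ∑ b ∈ Icc 1 n, ((tau a b : ℝ) - min (tau a b : ℝ) (L ^ K)) ≤ n / L ^ 7 := by
    refine (tau_tail n a hn1 han (L ^ K) (by positivity)).trans ?_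
    have hlog2n : 1 + Real.log (2 * n : ℕ) ≤ 4 * L := by
      push_cast
      rw [Real.log_mul (by norm_num) hn0.ne']
      have := Real.log_two_lt_d9
      linarith
    have hlog2n0 : 0 ≤ 1 + Real.log (2 * n : ℕ) := by
      have : 0 ≤ Real.log (2 * n : ℕ) := Real.log_natCast_nonneg _
      linarith
    rw [div_le_div_iff₀ (by positivity) (by positivity)]
    calc 4 * (n : ℝ) * (1 + Real.log (2 * n : ℕ)) ^ 4 * L ^ 7 ≤ 4 * n * (4 * L) ^ 4 * L ^ 7 := by
          gcongr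
      _ = n * (1024 * L ^ 11) := by ring
      _ ≤ n * (L * L ^ 11) := by gcongr
      _ = n * L ^ 12 := by ring
      _ ≤ n * L ^ K := by
          apply mul_le_mul_of_nonneg_left _ hn0.le
          exact pow_le_pow_right₀ hL1 (by omega)
  have hw := weighted_near N K z (B * N) n a (N / L ^ (2 * W + 18)) (n / L ^ 7) (by omega) hnB hn1 hL0 hV hD htail s3
  rw [← hL] at hw
  -- the error of the weighted sums
  have hw1 : L ^ K * (N / L ^ (2 * W + 18) + 2 * √(n : ℝ) * Real.log n) + 3 * L * (n / L ^ 7) ≤ 5 * (n / L ^ 6) := by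
    have e1 : L ^ K * (N / L ^ (2 * W + 18)) = (N / L ^ W) / L ^ 6 := by
      rw [hK, show 2 * W + 18 = (W + 12) + (W + 6) by ring, pow_add L (W + 12), pow_add L W 6]
      field_simp
    have e2 : (N / L ^ W) / L ^ 6 ≤ n / L ^ 6 := div_le_div_of_nonneg_right hnN (by positivity)
    have e3 : L ^ K * (2 * √(n : ℝ) * Real.log n) ≤ n / L ^ 6 := by
      rw [le_div_iff₀ (by positivity)]
      calc L ^ K * (2 * √(n : ℝ) * Real.log n) * L ^ 6 ≤ L ^ K * (2 * √(n : ℝ) * (2 * L)) * L ^ 6 := by gcongr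
        _ = (4 * L ^ (K + 7)) * √(n : ℝ) := by rw [pow_add]; ring
        _ ≤ (L * L ^ (K + 7)) * √(n : ℝ) := by
            apply mul_le_mul_of_nonneg_right _ (Real.sqrt_nonneg _)
            apply mul_le_mul_of_nonneg_right _ (by positivity)
            linarith
        _ = L ^ (K + 8) * √(n : ℝ) := by rw [← pow_succ']
        _ ≤ L ^ (W + 18 + 2) * √(n : ℝ) := by
            apply mul_le_mul_of_nonneg_right _ (Real.sqrt_nonneg _)
            exact pow_le_pow_right₀ hL1 (by omega)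
        _ ≤ √(n : ℝ) * √(n : ℝ) := by
            apply mul_le_mul_of_nonneg_right _ (Real.sqrt_nonneg _)
            refine le_trans ?_ s1
            have h14 : L ^ (W + 18 + 2) ≤ L ^ (W + 2 * A + (E + 20) + 6) := pow_le_pow_right₀ hL1 (by omega)
            have h15 : 0 ≤ L ^ (W + 2 * A + (E + 20) + 6) := by positivity
            linarith
        _ = n := hsq
    have e4 : 3 * L * (n / L ^ 7) = 3 * (n / L ^ 6) := by
      rw [show L ^ 7 = L * L ^ 6 by ring]
      field_simp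
    rw [mul_add, e1, e4]
    linarith
  -- the short interval
  have hu := unweight n a hn1 (L ^ (K + 6)) (one_le_pow₀ hL1)
  have hs := short_sum n a (L ^ (K + 6)) (L ^ K) (n / L ^ 7) (by positivity) (by positivity) htail
  have hs1 : (n / L ^ (K + 6) + 1) * L ^ K + n / L ^ 7 ≤ 3 * (n / L ^ 6) := by
    have e1 : (n / L ^ (K + 6)) * L ^ K = n / L ^ 6 := by
      rw [pow_add L K 6]
      field_simp
    have e2 : L ^ K ≤ n / L ^ 6 := by
      rw [le_div_iff₀ (by positivity), ← pow_add, show K + 6 = W + 18 by omega]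
      linarith [Real.sqrt_nonneg (n : ℝ)]
    have e3 : n / L ^ 7 ≤ n / L ^ 6 := by
      apply div_le_div_of_nonneg_left hn0.le (by positivity)
      exact pow_le_pow_right₀ hL1 (by norm_num)
    rw [add_mul, one_mul, e1]
    linarith
  have hln0 : 0 ≤ Real.log n := by linarith
  have hLR : Real.log (L ^ (K + 6)) ≤ ε * Real.log n := by
    rw [Real.log_pow, ← hlam]
    have h14 : (2 * (W + 18) / ε) * lam ≤ L := by
      refine le_trans ?_ b6
      have h15 : lam ≤ lam ^ 3 := le_self_pow₀ l1 (by norm_num)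
      apply mul_le_mul (by linarith) h15 (by linarith) (by positivity)
    have h16 := mul_le_mul_of_nonneg_left h14 hε.le
    have h17 : ε * ((2 * (W + 18) / ε) * lam) = 2 * ((W + 18) * lam) := by field_simp
    rw [h17] at h16
    have h18 : ((K + 6 : ℕ) : ℝ) = W + 18 := by rw [hK]; push_cast; ring
    rw [h18]
    have h19 : ε * (L / 2) ≤ ε * Real.log n := mul_le_mul_of_nonneg_left s2 hε.le
    linarith
  -- smallness against the main term
  set M := Xn n z * Real.log n * cT a n with hM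
  have hsmall : 6 * (n / L ^ 5) ≤ ε * M := by
    have h14 : lam ^ 3 ≤ L := by
      refine le_trans ?_ b6
      have : 0 ≤ 2 * ((W : ℝ) + 18) / ε := by positivity
      have h15 : 0 ≤ lam ^ 3 := by positivity
      nlinarith
    have h15 : (n : ℝ) / L ≤ n / lam ^ 3 := by
      apply div_le_div_of_nonneg_left hn0.le (by positivity) h14
    have h16 : 6 * ((n : ℝ) / L ^ 5) ≤ ε * (n / L) := by
      have e1 : 6 * ((n : ℝ) / L ^ 5) = (6 / L ^ 4) * (n / L) := by
        rw [show L ^ 5 = L ^ 4 * L by ring]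
        field_simp
      rw [e1]
      apply mul_le_mul_of_nonneg_right _ (by positivity)
      rw [div_le_iff₀ (by positivity)]
      have h17 : 6 / ε ≤ L := by linarith
      rw [div_le_iff₀ hε] at h17
      have h18 : L ≤ L ^ 4 := le_self_pow₀ hL1 (by norm_num)
      nlinarith
    have h17 : ε * (n / L) ≤ ε * M := mul_le_mul_of_nonneg_left (h15.trans m2) hε.le
    linarith
  have h56 : (n : ℝ) / L ^ 6 ≤ n / L ^ 5 := by
    apply div_le_div_of_nonneg_left hn0.le (by positivity)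
    exact pow_le_pow_right₀ hL1 (by norm_num)
  have hn5 : 0 ≤ (n : ℝ) / L ^ 5 := by positivity
  have hHl : 0 < HL n := by
    by_contra hcon
    rw [not_lt] at hcon
    have : HL n * Real.log n ≤ 0 := mul_nonpos_of_nonpos_of_nonneg hcon hln0
    linarith
  have hsg0 : 0 ≤ ∑ p ∈ Pn n, (tau a p : ℝ) := sum_nonneg fun p _ => Nat.cast_nonneg _
  refine final_arith ε (Real.log n) (∑ p ∈ Pn n, (tau a p : ℝ)) (∑ p ∈ Pn n, (tau a p : ℝ) * Real.log ((n - p : ℕ) : ℝ)) M (HL n) (g n) (cT a n)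
    hε hε1 (by linarith) m3 hHl ?_ ?_ hg ?_ ?_
  · have e : ∑ p ∈ Pn n, (tau a p : ℝ) * Real.log ((n - p : ℕ) : ℝ) - M =
        (∑ p ∈ Pn n, (tau a p : ℝ) * Real.log ((n - p : ℕ) : ℝ) - (Vz z)⁻¹ * ∑ b ∈ Ps n z, (tau a b : ℝ)) +
        ((Vz z)⁻¹ * ∑ b ∈ Ps n z, (tau a b : ℝ) - M) := by ring
    rw [e]
    refine (abs_add_le _ _).trans ?_
    linarith
  · have e : M - HL n * Real.log n * Real.log n * cT a n = (Real.log n * cT a n) * (Xn n z - HL n * Real.log n) := by rw [hM]; ring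
    rw [e, abs_mul, abs_of_nonneg (mul_nonneg hln0 m3.le)]
    calc (Real.log n * cT a n) * |Xn n z - HL n * Real.log n| ≤ (Real.log n * cT a n) * (ε * (HL n * Real.log n)) :=
          mul_le_mul_of_nonneg_left d6 (mul_nonneg hln0 m3.le)
      _ = _ := by ring
  · rw [mul_sum]
    apply sum_le_sum
    intro p hp
    unfold Pn at hp
    rw [mem_filter, mem_Icc] at hp
    rw [mul_comm]
    apply mul_le_mul_of_nonneg_right _ (Nat.cast_nonneg _)
    apply Real.log_le_log (by exact_mod_cast hp.2.2.pos)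
    exact_mod_cast Nat.sub_le n p
  · have h14 : Real.log n * ∑ p ∈ (Icc 1 n).filter (fun p : ℕ => ((n - p : ℕ) : ℝ) < n / L ^ (K + 6)), (tau a p : ℝ) ≤
        (2 * L) * (3 * (n / L ^ 6)) := mul_le_mul s3 (hs.trans hs1) (sum_nonneg fun p _ => Nat.cast_nonneg _) (by positivity)
    have h15 : (2 * L) * (3 * (n / L ^ 6)) = 6 * (n / L ^ 5) := by
      rw [show L ^ 6 = L * L ^ 5 by ring]
      field_simp
      ring
    have h16 : Real.log (L ^ (K + 6)) * ∑ p ∈ Pn n, (tau a p : ℝ) ≤ ε * Real.log n * ∑ p ∈ Pn n, (tau a p : ℝ) :=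
      mul_le_mul_of_nonneg_right hLR hsg0
    linarith

end Pool.Agent.K4H18.TD
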