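import Pool.Agent.K4H18.TD.B10
import Pool.Agent.K4H18.EK.A22

set_option autoImplicit false

/-! The Titchmarsh divisor problem over the partitions of almost all members of a family of small energy. -/

namespace Pool.Agent.K4H18.TD

open Finset
open Pool.Agent.H373R2.T7 (pz mem_pz Vz Vz_pos Vz_inv_small ev_L' es es_nonneg)
open Pool.Agent.H560R3.GB (energy g HL sing)
open Pool.Agent.K4H18.EK (Ps Pn card_Pn pr RG LG RG_LG Dif Dif_eq pi1_nonneg Xn Xn_nonneg Xn_near basic few_small few_bad norm_pr)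

/-- the asymptotic formula for all shifts up to `y` -/
def Tit (ε y : ℝ) (n : ℕ) : Prop :=
  ∀ a : ℤ, a ≠ 0 → |(a : ℝ)| ≤ y →
    |∑ p ∈ Pn n, (tau a p : ℝ) - cT a n * g n * Real.log n| ≤ ε * (cT a n * g n * Real.log n)

theorem fam_tit (A h B C U : ℕ) (hh : 1 ≤ h) (ε : ℝ) (hε : 0 < ε) :
    ∃ N₀ : ℕ, ∀ N : ℕ, N₀ ≤ N → ∀ (x : ℕ) (s : ℕ → ℕ), (∀ m ∈ Icc 1 x, s m ≤ B * N ∧ Even (s m)) →
      (energy h x s : ℝ) * N ≤ Real.log N ^ C * (x : ℝ) ^ (2 * h) →
      ∀ S : Finset ℕ, S ⊆ Icc 1 x → (∀ m ∈ S, ¬ (Pool.Agent.W93.GB.Good ε (s m) ∧ Tit ε (Real.log N ^ A) (s m))) →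
      (S.card : ℝ) ≤ x / Real.log N ^ U := by
  classical
  set ε' : ℝ := min (ε / 20) (1 / 40) with hε'
  have hε'0 : 0 < ε' := by
    rw [hε', lt_min_iff]
    exact ⟨by positivity, by norm_num⟩
  have hε'1 : 20 * ε' ≤ ε := by
    have : ε' ≤ ε / 20 := min_le_left _ _
    linarith
  have hε'1' : ε' ≤ ε := by linarith
  have hε'2 : ε' ≤ 1 / 40 := min_le_right _ _
  set W : ℕ := C + 1 + 2 * h * (U + 2) with hW
  obtain ⟨N1, h1⟩ := few_small h C (U + 2) hh
  obtain ⟨N2, h2⟩ := Pool.Agent.W93.GB.fam h B C (U + 2) hh ε' hε'0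
  obtain ⟨B0, hB0⟩ := few_bad h B C (U + 2) (2 * W + 18) (A + 1)
  set B1 := max B0 (max 3 A) with hB1
  obtain ⟨N3, h3⟩ := hB0 (B1 + 1)
  obtain ⟨N4, h4⟩ := det_tau ε' hε'0 hε'2 (B1 + 1) W B A
  obtain ⟨N6, h6⟩ := ev_L' 5
  refine ⟨max (max (max N1 N2) (max N3 N4)) (max N6 3), fun N hN x s hs hE S hSx hS => ?_⟩
  have hN3 : (3 : ℝ) ≤ N := by exact_mod_cast (by omega : 3 ≤ N)
  have a6 := h6 N (by omega)
  set L := Real.log N with hL
  have hL1 : 1 ≤ L := by linarith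
  have hL0 : 0 < L := by linarith
  -- the parameter `z`
  set z := ⌈L ^ B1⌉₊ with hz
  have hzlo : L ^ B1 ≤ z := Nat.le_ceil _
  have hL1B : 1 ≤ L ^ B1 := one_le_pow₀ hL1
  have hzhi : (z : ℝ) ≤ L ^ (B1 + 1) := by
    have := Nat.ceil_lt_add_one (show 0 ≤ L ^ B1 by positivity)
    calc (z : ℝ) ≤ L ^ B1 + 1 := this.le
      _ ≤ L ^ B1 + L ^ B1 := by linarith
      _ = 2 * L ^ B1 := by ring
      _ ≤ L * L ^ B1 := mul_le_mul_of_nonneg_right (by linarith) (by positivity)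
      _ = L ^ (B1 + 1) := by ring
  have hzB0 : L ^ B0 ≤ z := (pow_le_pow_right₀ hL1 (le_max_left _ _)).trans hzlo
  have hz3 : L ^ 3 ≤ z := (pow_le_pow_right₀ hL1 ((le_max_left _ _).trans (le_max_right _ _))).trans hzlo
  have hzA : L ^ A ≤ z := (pow_le_pow_right₀ hL1 ((le_max_right _ _).trans (le_max_right _ _))).trans hzlo
  -- the shifts
  set I : Finset ℤ := Icc (-(⌊L ^ A⌋₊ : ℤ)) (⌊L ^ A⌋₊ : ℤ) with hI
  have hIcard : (I.card : ℝ) ≤ L ^ (A + 1) := by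
    rw [hI, Int.card_Icc]
    have e : ((⌊L ^ A⌋₊ : ℤ) + 1 - -(⌊L ^ A⌋₊ : ℤ)).toNat = 2 * ⌊L ^ A⌋₊ + 1 := by omega
    rw [e]
    push_cast
    have h8 := Nat.floor_le (show 0 ≤ L ^ A by positivity)
    have h9 : 1 ≤ L ^ A := one_le_pow₀ hL1
    rw [pow_succ]
    nlinarith
  have hImem : ∀ a : ℤ, |(a : ℝ)| ≤ L ^ A → a ∈ I := by
    intro a ha
    have h8 : (a.natAbs : ℝ) ≤ L ^ A := by rwa [Nat.cast_natAbs, Int.cast_abs]
    have h9 : a.natAbs ≤ ⌊L ^ A⌋₊ := Nat.le_floor h8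
    rw [hI, mem_Icc]
    omega
  -- the three parts of the exceptional set
  set S1 := S.filter (fun m => (s m : ℝ) < N / L ^ W) with hS1
  set S2 := S.filter (fun m => ¬ Pool.Agent.W93.GB.Good ε' (s m)) with hS2
  set S3 := S.filter (fun m => ∃ a ∈ I, N / L ^ (2 * W + 18) < ‖Dif z (B * N) (s m) (pr (wT N (W + 12) a))‖) with hS3
  have hcover : S ⊆ (S1 ∪ S2) ∪ S3 := by
    intro m hm
    rw [mem_union, mem_union, hS1, hS2, hS3, mem_filter, mem_filter, mem_filter]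
    by_contra hcon
    push Not at hcon
    obtain ⟨⟨g1, g2⟩, g3⟩ := hcon
    have g1' := g1 hm
    have g2' := g2 hm
    have g3' := g3 hm
    apply hS m hm
    obtain ⟨hsB, hsE⟩ := hs m (hSx hm)
    have hHL : 0 ≤ HL (s m) := by
      have := g2'.1
      by_contra hcon
      rw [not_le] at hcon
      have h8 : ε' * HL (s m) < 0 := mul_neg_of_pos_of_neg hε'0 hcon
      have h9 := abs_nonneg ((g (s m) : ℝ) - HL (s m))
      linarith
    refine ⟨⟨g2'.1.trans (mul_le_mul_of_nonneg_right hε'1' hHL), g2'.2⟩, ?_⟩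
    intro a ha haA
    have h8 : (a.natAbs : ℝ) ≤ L ^ A := by rwa [Nat.cast_natAbs, Int.cast_abs]
    have h9 := h4 N (by omega) z hz3 hzA hzhi (s m) hsE g1' hsB g2'.1 a ha h8 (g3' a (hImem a haA))
    refine h9.trans ?_
    have h10 : 0 ≤ cT a (s m) * g (s m) * Real.log (s m) := by
      have h11 : 0 ≤ 20 * ε' * (cT a (s m) * g (s m) * Real.log (s m)) := le_trans (abs_nonneg _) h9
      by_contra hcon
      rw [not_le] at hcon
      have : 20 * ε' * (cT a (s m) * g (s m) * Real.log (s m)) < 0 := mul_neg_of_pos_of_neg (by positivity) hcon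
      linarith
    exact mul_le_mul_of_nonneg_right hε'1 h10
  have r1 : (S1.card : ℝ) ≤ x / L ^ (U + 2) := by
    apply h1 N (by omega) x s hE S1 ((filter_subset _ _).trans hSx)
    intro m hm
    rw [hS1, mem_filter] at hm
    exact hm.2
  have r2 : (S2.card : ℝ) ≤ x / L ^ (U + 2) := by
    apply h2 N (by omega) x s (fun m hm => ⟨(hs m hm).1, (hs m hm).2.two_dvd⟩) hE S2 ((filter_subset _ _).trans hSx)
    intro m hm
    rw [hS2, mem_filter] at hm
    exact hm.2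
  have r3 : (S3.card : ℝ) ≤ x / L ^ (U + 2) := by
    refine h3 N (by omega) x s (fun m hm => (hs m hm).1) hE z hzB0 hzhi (ι := ℤ) I
      (fun a => pr (wT N (W + 12) a)) hIcard ?_ S3 ((filter_subset _ _).trans hSx) ?_
    · intro a _ b
      exact norm_pr _ (fun b => norm_wT N (W + 12) a b hL0) b
    · intro m hm
      rw [hS3, mem_filter] at hm
      exact hm.2
  have r4 : (S.card : ℝ) ≤ 3 * (x / L ^ (U + 2)) := by
    have f1 := card_le_card hcover
    have f2 := card_union_le (S1 ∪ S2) S3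
    have f3 := card_union_le S1 S2
    have f4 : (S.card : ℝ) ≤ S1.card + S2.card + S3.card := by exact_mod_cast (by omega : S.card ≤ S1.card + S2.card + S3.card)
    linarith
  refine r4.trans ?_
  have hx0 : (0 : ℝ) ≤ x := Nat.cast_nonneg _
  rw [pow_add, ← mul_div_assoc, div_le_div_iff₀ (by positivity) (by positivity)]
  have h9 : (3 : ℝ) ≤ L ^ 2 := by nlinarith
  calc 3 * (x : ℝ) * L ^ U ≤ L ^ 2 * x * L ^ U := by gcongr
    _ = _ := by ring

end Pool.Agent.K4H18.TD
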