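import Pool.Agent.K4H18.TD.B1

set_option autoImplicit false

/-! Mean values of multiplicative functions close to one. -/

namespace Pool.Agent.K4H18.TD

open Finset
open Pool.Agent.H373R2.T7 (pz mem_pz Vz Vz_pos Vz_inv_small ev_L')

/-- sums over the subsets, with the logarithm of the product -/
lemma sum_powerset_log (P : Finset ℕ) (a : ℕ → ℝ) (ha : ∀ q ∈ P, 0 ≤ a q) (hP : ∀ q ∈ P, 1 ≤ q) :
    ∑ S ∈ P.powerset, (∏ q ∈ S, a q) * (1 + ∑ q ∈ S, Real.log q) ≤ (∏ q ∈ P, (1 + a q)) * (1 + ∑ q ∈ P, a q * Real.log q) := by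
  classical
  induction P using Finset.induction_on with
  | empty => simp
  | insert p P hp ih =>
    have ha' : ∀ q ∈ P, 0 ≤ a q := fun q hq => ha q (mem_insert_of_mem hq)
    have hP' : ∀ q ∈ P, 1 ≤ q := fun q hq => hP q (mem_insert_of_mem hq)
    have ihh := ih ha' hP'
    have hap := ha p (mem_insert_self _ _)
    have hlp : 0 ≤ Real.log p := Real.log_nonneg (by exact_mod_cast hP p (mem_insert_self _ _))
    rw [sum_powerset_insert hp, prod_insert hp, sum_insert hp]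
    have h1 : ∀ S ∈ P.powerset, (∏ q ∈ insert p S, a q) * (1 + ∑ q ∈ insert p S, Real.log q) =
        a p * ((∏ q ∈ S, a q) * (1 + ∑ q ∈ S, Real.log q)) + a p * Real.log p * ∏ q ∈ S, a q := by
      intro S hS
      have hpS : p ∉ S := fun h => hp (mem_powerset.1 hS h)
      rw [prod_insert hpS, sum_insert hpS]
      ring
    rw [sum_congr rfl h1, sum_add_distrib, ← mul_sum, ← mul_sum]
    have h2 : ∑ S ∈ P.powerset, ∏ q ∈ S, a q = ∏ q ∈ P, (1 + a q) := by
      rw [prod_one_add]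
    rw [h2]
    have hprod : 0 ≤ ∏ q ∈ P, (1 + a q) := prod_nonneg fun q hq => by have := ha' q hq; linarith
    have hs : 0 ≤ ∑ q ∈ P, a q * Real.log q := sum_nonneg fun q hq =>
      mul_nonneg (ha' q hq) (Real.log_nonneg (by exact_mod_cast hP' q hq))
    set X := ∑ S ∈ P.powerset, (∏ q ∈ S, a q) * (1 + ∑ q ∈ S, Real.log q)
    set Y := ∏ q ∈ P, (1 + a q)
    set Z := ∑ q ∈ P, a q * Real.log q
    have h3 : (1 + a p) * X ≤ (1 + a p) * (Y * (1 + Z)) := mul_le_mul_of_nonneg_left ihh (by linarith)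
    have h4 : 0 ≤ a p * (a p * Real.log p * Y) := by positivity
    nlinarith

/-- the harmonic sum over multiples -/
lemma mult_sum (D s : ℕ) (hs : 1 ≤ s) : ∑ e ∈ (Icc 1 D).filter (fun e => s ∣ e), 1 / (e : ℝ) =
    1 / (s : ℝ) * ∑ e ∈ Icc 1 (D / s), 1 / (e : ℝ) := by
  rw [mul_sum]
  symm
  apply sum_bij (fun e _ => s * e)
  · intro e he
    rw [mem_Icc] at he
    rw [mem_filter, mem_Icc]
    refine ⟨⟨Nat.mul_pos hs he.1, ?_⟩, dvd_mul_right _ _⟩
    calc s * e ≤ s * (D / s) := Nat.mul_le_mul_left _ he.2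
      _ ≤ D := Nat.mul_div_le _ _
  · intro a _ b _ h
    exact Nat.eq_of_mul_eq_mul_left hs h
  · intro b hb
    rw [mem_filter, mem_Icc] at hb
    obtain ⟨⟨h1, h2⟩, c, rfl⟩ := hb
    refine ⟨c, ?_, rfl⟩
    rw [mem_Icc]
    constructor
    · rcases Nat.eq_zero_or_pos c with h | h
      · rw [h] at h1; omega
      · exact h
    · rw [Nat.le_div_iff_mul_le (by omega)]
      rw [mul_comm]; exact h2
  · intro e _
    push_cast
    rw [one_div_mul_one_div]

lemma harm_near (D s : ℕ) (hD : 1 ≤ D) (hs : 1 ≤ s) :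
    |∑ e ∈ Icc 1 (D / s), 1 / (e : ℝ) - Real.log D| ≤ 1 + Real.log s := by
  have hDr : (1 : ℝ) ≤ D := by exact_mod_cast hD
  have hsr : (1 : ℝ) ≤ s := by exact_mod_cast hs
  have hls : 0 ≤ Real.log s := Real.log_nonneg hsr
  have hlD : 0 ≤ Real.log D := Real.log_nonneg hDr
  rcases Nat.lt_or_ge D s with h | h
  · rw [Nat.div_eq_of_lt h]
    have : Real.log D ≤ Real.log s := Real.log_le_log (by linarith) (by exact_mod_cast h.le)
    simp only [Icc_eq_empty (show ¬ (1 : ℕ) ≤ 0 by norm_num), sum_empty]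
    rw [zero_sub, abs_neg, abs_of_nonneg hlD]
    linarith
  · have h1 : 1 ≤ D / s := (Nat.one_le_div_iff (by omega)).2 h
    obtain ⟨h2, h3⟩ := inv_sum_Icc (D / s) h1
    have h4 : ((D / s : ℕ) : ℝ) ≤ (D : ℝ) := by exact_mod_cast Nat.div_le_self _ _
    have h5 : Real.log ((D / s : ℕ) : ℝ) ≤ Real.log D := Real.log_le_log (by exact_mod_cast h1) h4
    have h1r : (1 : ℝ) ≤ ((D / s : ℕ) : ℝ) := by exact_mod_cast h1
    rw [abs_le]
    constructor
    · -- the lower bound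
      have h6 : Real.log D ≤ Real.log s + Real.log ((D / s : ℕ) + 1 : ℝ) := by
        rw [← Real.log_mul (by linarith) (by linarith)]
        apply Real.log_le_log (by linarith)
        have h7 : D < s * (D / s + 1) := by
          have := Nat.lt_mul_div_succ D (show 0 < s by omega)
          exact this
        exact_mod_cast h7.le
      -- `log (m + 1) ≤ H_m`
      have h8 : Real.log ((D / s : ℕ) + 1 : ℝ) ≤ ∑ e ∈ Icc 1 (D / s), 1 / (e : ℝ) := by
        have h9 : ∑ n ∈ Icc 1 (D / s), 1 / (n : ℝ) = ((harmonic (D / s) : ℚ) : ℝ) := by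
          rw [harmonic_eq_sum_Icc]
          push_cast
          simp
        rw [h9]
        have := log_add_one_le_harmonic (D / s)
        push_cast at this ⊢
        exact this
      linarith
    · linarith

theorem mean_sum (D : ℕ) (hD : 1 ≤ D) (c : ℕ → ℝ) :
    |∑ e ∈ Icc 1 D, 1 / (e : ℝ) * ∏ q ∈ e.primeFactors, (1 + c q) - Real.log D * ∏ q ∈ pz D, (1 + c q / q)| ≤
      (∏ q ∈ pz D, (1 + |c q| / q)) * (1 + ∑ q ∈ pz D, |c q| / q * Real.log q) := by
  classical
  have hpz : ∀ q ∈ pz D, 1 ≤ q := fun q hq => (mem_pz.1 hq).2.one_le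
  -- expansion
  have h1 : ∑ e ∈ Icc 1 D, 1 / (e : ℝ) * ∏ q ∈ e.primeFactors, (1 + c q) =
      ∑ S ∈ (pz D).powerset, (∏ q ∈ S, c q) * ∑ e ∈ (Icc 1 D).filter (fun e => ∏ q ∈ S, q ∣ e), 1 / (e : ℝ) := by
    have h2 : ∀ e ∈ Icc 1 D, 1 / (e : ℝ) * ∏ q ∈ e.primeFactors, (1 + c q) =
        ∑ S ∈ (pz D).powerset, (if ∏ q ∈ S, q ∣ e then (∏ q ∈ S, c q) * (1 / (e : ℝ)) else 0) := by
      intro e he
      rw [mem_Icc] at he
      rw [← sum_filter]
      have h3 : (pz D).powerset.filter (fun S => ∏ q ∈ S, q ∣ e) = e.primeFactors.powerset := by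
        ext S
        rw [mem_filter, mem_powerset, mem_powerset]
        constructor
        · rintro ⟨h4, h5⟩ q hq
          rw [Nat.mem_primeFactors]
          exact ⟨(mem_pz.1 (h4 hq)).2, (dvd_prod_of_mem _ hq).trans h5, by omega⟩
        · intro h4
          refine ⟨fun q hq => ?_, ?_⟩
          · have h5 := Nat.mem_primeFactors.1 (h4 hq)
            exact mem_pz.2 ⟨(Nat.le_of_dvd (by omega) h5.2.1).trans he.2, h5.1⟩
          · exact (prod_dvd_prod_of_subset S e.primeFactors (fun q => q) h4).trans (Nat.prod_primeFactors_dvd e)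
      rw [h3, prod_one_add, mul_sum]
      apply sum_congr rfl
      intro S _
      ring
    rw [sum_congr rfl h2, sum_comm]
    apply sum_congr rfl
    intro S _
    rw [mul_sum, sum_filter]
  have h2 : Real.log D * ∏ q ∈ pz D, (1 + c q / q) = ∑ S ∈ (pz D).powerset, (∏ q ∈ S, c q / q) * Real.log D := by
    rw [prod_one_add, mul_sum]
    apply sum_congr rfl
    intro S _
    ring
  rw [h1, h2, ← sum_sub_distrib]
  refine (abs_sum_le_sum_abs _ _).trans ?_
  refine le_trans ?_ (sum_powerset_log (pz D) (fun q => |c q| / q) (fun q _ => by positivity) hpz)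
  apply sum_le_sum
  intro S hS
  have hSp : ∀ q ∈ S, q.Prime := fun q hq => (mem_pz.1 (mem_powerset.1 hS hq)).2
  have hs1 : 1 ≤ ∏ q ∈ S, q := Nat.pos_of_ne_zero (prod_ne_zero_iff.2 fun q hq => (hSp q hq).ne_zero)
  rw [mult_sum D _ hs1]
  have e1 : (∏ q ∈ S, c q) * (1 / ((∏ q ∈ S, q : ℕ) : ℝ) * ∑ e ∈ Icc 1 (D / ∏ q ∈ S, q), 1 / (e : ℝ)) -
      (∏ q ∈ S, c q / q) * Real.log D =
      (∏ q ∈ S, c q / q) * (∑ e ∈ Icc 1 (D / ∏ q ∈ S, q), 1 / (e : ℝ) - Real.log D) := by
    rw [prod_div_distrib]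
    push_cast
    ring
  rw [e1, abs_mul, abs_prod]
  have e2 : ∏ q ∈ S, |c q / (q : ℝ)| = ∏ q ∈ S, |c q| / (q : ℝ) := by
    apply prod_congr rfl
    intro q _
    rw [abs_div, Nat.abs_cast]
  rw [e2]
  apply mul_le_mul_of_nonneg_left _ (prod_nonneg fun q _ => by positivity)
  refine (harm_near D _ hD hs1).trans (le_of_eq ?_)
  congr 1
  rw [Nat.cast_prod, Real.log_prod]
  intro q hq
  exact_mod_cast (hSp q hq).ne_zero

end Pool.Agent.K4H18.TD
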