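import Pool.Agent.K4H18.TD.B2
import Pool.Agent.K4H18.EK.A5

set_option autoImplicit false

/-! The parameters of the sieve. -/

namespace Pool.Agent.K4H18.TD

open Finset
open Pool.Agent.H373R2.T7 (pz mem_pz Vz Vz_pos Vz_inv_small ev_L' es es_le sum_pz_le)
open Pool.Agent.K4H18.EK (gd gd_nonneg gd_le' Maj sizes ev_lam ev_pow)

theorem params2 (E W B U : ℕ) : ∃ (C : ℝ) (N0 : ℕ), 0 ≤ C ∧ ∀ N : ℕ, N0 ≤ N → ∀ z : ℕ, 1 ≤ z → (z : ℝ) ≤ Real.log N ^ E →
    ∀ n : ℕ, (N : ℝ) / Real.log N ^ W ≤ n → n ≤ B * N → ∃ (r D0 : ℕ) (M : ℕ → ℝ), 1 ≤ D0 ∧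
      Maj n (D0 * (z + 1) ^ r) M ∧ ((D0 : ℝ) * (z + 1) ^ r) ^ 2 ≤ n / Real.log N ^ U ∧
      ∑ q ∈ Icc 1 (D0 * (z + 1) ^ r), (2 : ℝ) ^ q.primeFactors.card * M q ≤ N / Real.log N ^ U ∧
      (∀ T ⊆ pz z, es (gd n) T r ≤ 1 / Real.log N ^ U) ∧
      1 / 2 * Real.log n - C * Real.log (Real.log N) ^ 2 ≤ Real.log D0 ∧ Real.log D0 ≤ 1 / 2 * Real.log n := by
  obtain ⟨BB, x0, hBV⟩ := Pool.Agent.H96R2.EQP.weighted 2 (by norm_num) (U + 1)
  obtain ⟨N2, hsz⟩ := sizes W B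
  set C0 : ℕ := 6 * (1 + E) + U with hC0
  set BB' : ℕ := BB + U + 1 with hBB'
  set C1 : ℝ := (C0 + 1) * (E + 1) + 2 * BB' + 2 with hC1
  obtain ⟨N3, h3⟩ := ev_lam 2 1 one_pos
  obtain ⟨N4, h4⟩ := ev_L' (2 ^ (U + 1) * B + 8)
  -- `C λ²` is small compared with `L`
  have hlim : Filter.Tendsto (fun N : ℕ => Real.log (N : ℝ)) Filter.atTop Filter.atTop :=
    Real.tendsto_log_atTop.comp (tendsto_natCast_atTop_atTop (R := ℝ))
  have hl2 : ∀ᶠ N : ℕ in Filter.atTop, (8 * (C1 + 1)) * Real.log (Real.log N) ^ 2 ≤ Real.log N := by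
    have h3 := (Real.isLittleO_pow_log_id_atTop (n := 2)).bound (show (0 : ℝ) < 1 / (8 * (C1 + 1)) by positivity)
    have h4 := hlim.eventually h3
    filter_upwards [h4, hlim.eventually_ge_atTop 1] with N h5 h6
    simp only [id] at h5
    rw [Real.norm_of_nonneg (by positivity), Real.norm_of_nonneg (by linarith), one_div, inv_mul_eq_div,
      le_div_iff₀ (by positivity)] at h5
    linarith
  obtain ⟨N5, h5⟩ := Filter.eventually_atTop.1 hl2
  refine ⟨C1, max (max N2 N3) (max (max N4 N5) (max (x0 ^ 2) 3)), by positivity, fun N hN z hz1 hzE n hn hnB => ?_⟩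
  obtain ⟨s1, s2, s3⟩ := hsz N (by omega) n hn hnB
  obtain ⟨l1, l2, -⟩ := h3 N (by omega)
  have b4 := h4 N (by omega)
  have b5 := h5 N (by omega)
  have hx02 : x0 ^ 2 ≤ N := by omega
  have hN3 : (3 : ℝ) ≤ N := by exact_mod_cast (by omega : 3 ≤ N)
  have hN0 : (0 : ℝ) < N := by linarith
  have hN1 : (1 : ℝ) ≤ N := by linarith
  have hBr : (0 : ℝ) ≤ B := Nat.cast_nonneg _
  set L := Real.log N with hLd
  set lam := Real.log L with hlam
  have hL8 : 8 ≤ L := by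
    have : 0 ≤ (2 : ℝ) ^ (U + 1) * B := by positivity
    linarith
  have hL0 : 0 < L := by linarith
  have hL1 : 1 ≤ L := by linarith
  have hx0n : x0 ≤ n := by
    have h7 : (x0 : ℝ) ≤ √(N : ℝ) := by
      apply Real.le_sqrt_of_sq_le
      exact_mod_cast hx02
    have h8 : √(N : ℝ) ≤ (N : ℝ) ^ (7 / 8 : ℝ) := by
      rw [Real.sqrt_eq_rpow]
      exact Real.rpow_le_rpow_of_exponent_le hN1 (by norm_num)
    have h9 : (x0 : ℝ) ≤ n := h7.trans (h8.trans s1)
    exact_mod_cast h9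
  obtain ⟨M, hM0, hM1, hM2⟩ := hBV n hx0n
  have hn0 : (0 : ℝ) < n := lt_of_lt_of_le (by positivity) s1
  have hlogn0 : 0 < Real.log n := by linarith
  -- `r`
  set r : ℕ := ⌈(C0 : ℝ) * lam⌉₊ with hr
  have hr1 : (C0 : ℝ) * lam ≤ r := Nat.le_ceil _
  have hr2 : (r : ℝ) ≤ (C0 + 1) * lam := by
    have := (Nat.ceil_lt_add_one (show 0 ≤ (C0 : ℝ) * lam by positivity)).le
    rw [← hr] at this
    linarith
  have hlz1 : Real.log ((z : ℝ) + 1) ≤ (E + 1) * lam := by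
    have h5 : (z : ℝ) + 1 ≤ L ^ (E + 1) := by
      have h6 : 1 ≤ L ^ E := one_le_pow₀ hL1
      rw [pow_succ]
      nlinarith
    have h6 := Real.log_le_log (by positivity) h5
    rw [Real.log_pow] at h6
    push_cast at h6
    exact h6
  have hlz0 : 0 ≤ Real.log ((z : ℝ) + 1) := Real.log_nonneg (by have : (0 : ℝ) ≤ z := Nat.cast_nonneg _; linarith)
  have hlz : Real.log z ≤ E * lam := by
    have h4 : Real.log z ≤ Real.log (L ^ E) := Real.log_le_log (by exact_mod_cast hz1) hzE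
    rw [Real.log_pow] at h4
    exact h4
  set Q : ℕ := (z + 1) ^ r with hQ
  have hQ1 : 1 ≤ Q := Nat.one_le_pow _ _ (by omega)
  have hQr : (Q : ℝ) = ((z : ℝ) + 1) ^ r := by rw [hQ]; push_cast; rfl
  have hlogQ : Real.log Q ≤ (C0 + 1) * (E + 1) * lam ^ 2 := by
    rw [hQr, Real.log_pow]
    calc (r : ℝ) * Real.log ((z : ℝ) + 1) ≤ ((C0 + 1) * lam) * ((E + 1) * lam) := by gcongr
      _ = _ := by ring
  have hes2 : ∀ T ⊆ pz z, es (gd n) T r ≤ 1 / L ^ U := by
    intro T hT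
    refine (es_le (fun p hp => gd_nonneg (mem_pz.1 (hT hp)).2) r).trans ?_
    have h5 : 1 / L ^ U = Real.exp (-(U * lam)) := by
      rw [Real.exp_neg, mul_comm, Real.exp_mul, hlam, Real.exp_log hL0, Real.rpow_natCast, one_div]
    rw [h5]
    apply Real.exp_le_exp.2
    have h7 : ∑ p ∈ T, gd n p ≤ 2 * (1 + Real.log z) := by
      calc ∑ p ∈ T, gd n p ≤ ∑ p ∈ pz z, 2 * (1 / (p : ℝ)) := by
            refine (sum_le_sum fun p hp => gd_le' (mem_pz.1 (hT hp)).2).trans ?_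
            exact sum_le_sum_of_subset_of_nonneg hT fun p _ _ => by positivity
        _ = 2 * ∑ p ∈ pz z, 1 / (p : ℝ) := by rw [mul_sum]
        _ ≤ _ := mul_le_mul_of_nonneg_left (sum_pz_le z) (by norm_num)
    have h8 : (C0 : ℝ) * lam = 6 * ((1 + E) * lam) + U * lam := by rw [hC0]; push_cast; ring
    nlinarith
  -- `D` and `D0`
  set T : ℝ := √(n : ℝ) / (2 * L) ^ BB' with hT
  have hn1 : (1 : ℝ) ≤ n := by
    have h7 : (1 : ℝ) ≤ (N : ℝ) ^ (7 / 8 : ℝ) := Real.one_le_rpow hN1 (by norm_num)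
    linarith
  have hsq0 : 0 < √(n : ℝ) := Real.sqrt_pos.2 hn0
  have hT0 : 0 < T := by positivity
  have hlogT : Real.log T = 1 / 2 * Real.log n - BB' * Real.log (2 * L) := by
    rw [hT, Real.log_div hsq0.ne' (by positivity), Real.log_sqrt hn0.le, Real.log_pow]
    ring
  have hlog2L : Real.log (2 * L) ≤ 2 * lam := by
    rw [Real.log_mul (by norm_num) hL0.ne']
    have := Real.log_le_log (show (0 : ℝ) < 2 by norm_num) (show (2 : ℝ) ≤ L by linarith)
    linarith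
  have hlam2 : lam ≤ lam ^ 2 := by nlinarith
  have hlogTQ : 1 / 2 * Real.log n - (C1 - 1) * lam ^ 2 ≤ Real.log (T / (2 * Q)) := by
    have hQ0 : (0 : ℝ) < Q := by exact_mod_cast hQ1
    rw [Real.log_div hT0.ne' (by positivity), hlogT, Real.log_mul (by norm_num) hQ0.ne']
    have h6 : (BB' : ℝ) * Real.log (2 * L) ≤ BB' * (2 * lam ^ 2) := by
      apply mul_le_mul_of_nonneg_left _ (Nat.cast_nonneg _)
      linarith
    have h7 : Real.log 2 ≤ lam ^ 2 := by
      have := Real.log_two_lt_d9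
      nlinarith
    have h8 : (C1 - 1) * lam ^ 2 = (C0 + 1) * (E + 1) * lam ^ 2 + BB' * (2 * lam ^ 2) + lam ^ 2 := by rw [hC1]; ring
    rw [h8]
    linarith
  have hbig : 1 ≤ T / (2 * Q) := by
    have h6 : 0 ≤ Real.log (T / (2 * Q)) := by
      refine le_trans ?_ hlogTQ
      have : (C1 - 1) * lam ^ 2 ≤ 1 / 8 * L := by
        have : (8 * (C1 + 1)) * lam ^ 2 = 8 * ((C1 - 1) * lam ^ 2) + 16 * lam ^ 2 := by ring
        have h9 : 0 ≤ lam ^ 2 := by positivity
        linarith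
      linarith
    have h7 := Real.exp_log (show 0 < T / (2 * (Q : ℝ)) by positivity)
    rw [← h7]
    exact Real.one_le_exp h6
  set D0 : ℕ := ⌊T / Q⌋₊ with hD0
  have hQ0 : (0 : ℝ) < Q := by exact_mod_cast hQ1
  have hTQ : T / Q = 2 * (T / (2 * Q)) := by field_simp
  have hD01 : 1 ≤ D0 := by
    apply Nat.le_floor
    push_cast
    rw [hTQ]
    linarith
  have hD0le : (D0 : ℝ) ≤ T / Q := Nat.floor_le (by positivity)
  have hD0ge : T / (2 * Q) ≤ D0 := by
    have : T / Q < D0 + 1 := Nat.lt_floor_add_one _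
    rw [hTQ] at this
    linarith
  have hDQ : (D0 : ℝ) * Q ≤ T := by rwa [le_div_iff₀ hQ0] at hD0le
  have hD00 : (0 : ℝ) < D0 := by exact_mod_cast hD01
  have hTn : T ^ 2 = n / (2 * L) ^ (2 * BB') := by
    rw [hT, div_pow, Real.sq_sqrt hn0.le, ← pow_mul, mul_comm BB' 2]
  have hcast : ((D0 * (z + 1) ^ r : ℕ) : ℝ) = D0 * Q := by push_cast; rw [hQr]
  have h2L1 : 1 ≤ 2 * L := by linarith
  have hDn : D0 * (z + 1) ^ r ≤ n := by
    have : ((D0 * (z + 1) ^ r : ℕ) : ℝ) ≤ n := by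
      rw [hcast]
      refine hDQ.trans ?_
      rw [hT]
      calc √(n : ℝ) / (2 * L) ^ BB' ≤ √(n : ℝ) := div_le_self hsq0.le (one_le_pow₀ h2L1)
        _ ≤ n := by
            rw [Real.sqrt_le_left (by linarith)]
            nlinarith
    exact_mod_cast this
  refine ⟨r, D0, M, hD01, ⟨hM0, fun q a hq ha hqD => hM1 q a hq ha ?_ (hqD.trans hDn)⟩, ?_, ?_, hes2, ?_, ?_⟩
  · have h7 : (q : ℝ) ≤ T := by
      have h71 : (q : ℝ) ≤ ((D0 * (z + 1) ^ r : ℕ) : ℝ) := Nat.cast_le.2 hqD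
      rw [hcast] at h71
      exact h71.trans hDQ
    have h8 : (q : ℝ) ^ 2 ≤ n / (2 * L) ^ (2 * BB') := by
      rw [← hTn]
      exact pow_le_pow_left₀ (Nat.cast_nonneg _) h7 2
    have h9 : Real.log n ^ BB ≤ (2 * L) ^ BB := pow_le_pow_left₀ hlogn0.le s3 BB
    calc Real.log n ^ BB * (q : ℝ) ^ 2 ≤ (2 * L) ^ BB * (n / (2 * L) ^ (2 * BB')) :=
          mul_le_mul h9 h8 (by positivity) (by positivity)
      _ = n / (2 * L) ^ (BB + 2 * (U + 1)) := by
          rw [hBB', show 2 * (BB + U + 1) = BB + (BB + 2 * (U + 1)) by ring, pow_add (2 * L) BB]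
          field_simp
      _ < n := by
          apply div_lt_self hn0
          apply one_lt_pow₀ (by linarith) (by omega)
  · rw [← hQr]
    calc ((D0 : ℝ) * Q) ^ 2 ≤ T ^ 2 := pow_le_pow_left₀ (by positivity) hDQ 2
      _ = n / (2 * L) ^ (2 * BB') := hTn
      _ ≤ n / L ^ U := by
          apply div_le_div_of_nonneg_left hn0.le (by positivity)
          calc L ^ U ≤ L ^ (2 * BB') := pow_le_pow_right₀ hL1 (by omega)
            _ ≤ (2 * L) ^ (2 * BB') := pow_le_pow_left₀ hL0.le (by linarith) _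
  · have c1 : ∑ q ∈ Icc 1 (D0 * (z + 1) ^ r), (2 : ℝ) ^ q.primeFactors.card * M q ≤
        ∑ q ∈ Icc 1 n, (2 : ℝ) ^ q.primeFactors.card * M q := by
      apply sum_le_sum_of_subset_of_nonneg
      · exact Icc_subset_Icc_right hDn
      · intro q _ _
        exact mul_nonneg (by positivity) (hM0 q)
    refine c1.trans (hM2.trans ?_)
    have c2 : (n : ℝ) ≤ B * N := by exact_mod_cast hnB
    have c3 : (L / 2) ^ (U + 1) ≤ Real.log n ^ (U + 1) := pow_le_pow_left₀ (by positivity) s2 _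
    calc (n : ℝ) / Real.log n ^ (U + 1) ≤ (B * N) / (L / 2) ^ (U + 1) := by
          apply div_le_div₀ (by positivity) c2 (by positivity) c3
      _ = (2 ^ (U + 1) * B / L) * (N / L ^ U) := by
          rw [div_pow, pow_succ L U]
          field_simp
      _ ≤ 1 * (N / L ^ U) := by
          apply mul_le_mul_of_nonneg_right _ (by positivity)
          rw [div_le_one hL0]
          linarith
      _ = _ := one_mul _
  · have h6 := Real.log_le_log (by positivity) hD0ge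
    have h9 : 0 ≤ lam ^ 2 := by positivity
    linarith
  · have h6 : (D0 : ℝ) ≤ √(n : ℝ) := by
      calc (D0 : ℝ) ≤ D0 * Q := le_mul_of_one_le_right hD00.le (by exact_mod_cast hQ1)
        _ ≤ T := hDQ
        _ ≤ √(n : ℝ) := div_le_self hsq0.le (one_le_pow₀ h2L1)
    have h7 := Real.log_le_log hD00 h6
    rw [Real.log_sqrt hn0.le] at h7
    linarith

end Pool.Agent.K4H18.TD
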