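import Pool.Agent.K4H18.TD.B3
import Pool.Agent.K4H18.EK.A3

set_option autoImplicit false

/-! The sieved primes in residue classes, summed over the moduli. -/

namespace Pool.Agent.K4H18.TD

open Finset
open Pool.Agent.H373R2.T7 (pz mem_pz Vz Vz_pos Vz_inv_small ev_L' es es_le es_nonneg sum_pz_le prod_le_pow card_small card_pz_le)
open Pool.Agent.K4H18.EK (gd gd_nonneg gd_le gd_le' Maj Ps Wn cn sieve1 sum_levels pi1_nonneg)

/-- the local factor -/
noncomputable def bl (n z : ℕ) (a : ℤ) (q : ℕ) : ℝ :=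
  if (q : ℤ) ∣ a ∨ (q ≤ z ∧ (q : ℤ) ∣ (n : ℤ) - a) then 0 else
    ((q : ℝ) / ((q : ℝ) - 1)) * (if q ≤ z then (1 - gd n q)⁻¹ else 1)

lemma gd_half {n q : ℕ} (hn : Even n) (hq : q.Prime) : gd n q ≤ 1 / 2 := by
  unfold gd
  split_ifs with h
  · norm_num
  · have h2 : q ≠ 2 := by
      intro h2
      rw [h2] at h
      exact h hn.two_dvd
    have h3 : 3 ≤ q := by
      have := hq.two_le
      omega
    have : (3 : ℝ) ≤ q := by exact_mod_cast h3
    apply one_div_le_one_div_of_le (by norm_num)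
    linarith

/-- the sum of the majorants over the moduli -/
lemma maj_sum (z r D0 : ℕ) (M : ℕ → ℝ) (hM : ∀ q, 0 ≤ M q) :
    ∑ e ∈ Icc 1 D0, ∑ j ∈ range (r + 1), ∑ S ∈ (pz z).powersetCard j, M (e * ∏ q ∈ S, q) ≤
      ∑ q ∈ Icc 1 (D0 * (z + 1) ^ r), (2 : ℝ) ^ q.primeFactors.card * M q := by
  classical
  have h1 : ∀ e ∈ Icc 1 D0, ∑ j ∈ range (r + 1), ∑ S ∈ (pz z).powersetCard j, M (e * ∏ q ∈ S, q) =
      ∑ S ∈ (pz z).powerset.filter (fun S => S.card ≤ r), M (e * ∏ q ∈ S, q) := fun e _ =>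
    sum_levels (pz z) r (fun S => M (e * ∏ q ∈ S, q))
  rw [sum_congr rfl h1, ← sum_product' (f := fun e S => M (e * ∏ q ∈ S, q))]
  set X := Icc 1 D0 ×ˢ (pz z).powerset.filter (fun S => S.card ≤ r) with hX
  have hmem : ∀ x ∈ X, (1 ≤ x.1 ∧ x.1 ≤ D0) ∧ x.2 ⊆ pz z ∧ x.2.card ≤ r := by
    intro x hx
    rw [hX, mem_product, mem_Icc, mem_filter, mem_powerset] at hx
    exact hx
  have hpos : ∀ S ⊆ pz z, 1 ≤ ∏ q ∈ S, q := fun S hS =>
    Nat.pos_of_ne_zero (prod_ne_zero_iff.2 fun q hq => (mem_pz.1 (hS hq)).2.ne_zero)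
  rw [← sum_fiberwise_of_maps_to (s := X) (t := Icc 1 (D0 * (z + 1) ^ r)) (g := fun x : ℕ × Finset ℕ => x.1 * ∏ q ∈ x.2, q)]
  · apply sum_le_sum
    intro q hq
    rw [mem_Icc] at hq
    have h2 : ∑ x ∈ X.filter (fun x => x.1 * ∏ q ∈ x.2, q = q), M (x.1 * ∏ q ∈ x.2, q) =
        ((X.filter (fun x => x.1 * ∏ q ∈ x.2, q = q)).card : ℝ) * M q := by
      rw [← nsmul_eq_mul, ← sum_const]
      apply sum_congr rfl
      intro x hx
      rw [mem_filter] at hx
      rw [hx.2]
    rw [h2]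
    apply mul_le_mul_of_nonneg_right _ (hM q)
    have h3 : (X.filter (fun x => x.1 * ∏ q ∈ x.2, q = q)).card ≤ q.primeFactors.powerset.card := by
      apply card_le_card_of_injOn (fun x => x.2)
      · intro x hx
        rw [mem_coe, mem_filter] at hx
        obtain ⟨hx1, hx2⟩ := hx
        obtain ⟨-, h5, -⟩ := hmem x hx1
        rw [mem_coe, mem_powerset]
        intro ℓ hℓ
        rw [Nat.mem_primeFactors]
        refine ⟨(mem_pz.1 (h5 hℓ)).2, ?_, by omega⟩
        rw [← hx2]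
        exact (dvd_prod_of_mem (fun q => q) hℓ).mul_left _
      · intro x hx y hy hxy
        rw [mem_coe, mem_filter] at hx hy
        simp only at hxy
        have h4 := hx.2.trans hy.2.symm
        rw [hxy] at h4
        have h5 := hpos y.2 (hmem y hy.1).2.1
        have h6 := Nat.eq_of_mul_eq_mul_right h5 h4
        exact Prod.ext h6 hxy
    rw [card_powerset] at h3
    exact_mod_cast h3
  · intro x hx
    obtain ⟨⟨h2, h3⟩, h4, h5⟩ := hmem x hx
    rw [mem_Icc]
    exact ⟨Nat.mul_pos h2 (hpos _ h4), Nat.mul_le_mul h3 (prod_le_pow _ _ _ h4 h5)⟩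

/-- the product of the local factors -/
lemma bl_prod (n z : ℕ) (a : ℤ) (hn : Even n) (e : ℕ) (he : 1 ≤ e)
    (hg : ∀ q ∈ e.primeFactors, ¬ ((q : ℤ) ∣ a ∨ (q ≤ z ∧ (q : ℤ) ∣ (n : ℤ) - a))) :
    1 / (Nat.totient e : ℝ) * ∏ q ∈ (pz z).filter (fun q => ¬ q ∣ e), (1 - gd n q) =
      Wn n z * (1 / (e : ℝ) * ∏ q ∈ e.primeFactors, bl n z a q) := by
  classical
  have he0 : (0 : ℝ) < e := by exact_mod_cast he
  have h1 : ∏ q ∈ e.primeFactors, bl n z a q = (∏ q ∈ e.primeFactors, (q : ℝ) / ((q : ℝ) - 1)) *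
      ∏ q ∈ e.primeFactors, (if q ≤ z then (1 - gd n q)⁻¹ else 1) := by
    rw [← prod_mul_distrib]
    apply prod_congr rfl
    intro q hq
    unfold bl
    rw [if_neg (hg q hq)]
  have h2 : ∏ q ∈ e.primeFactors, (if q ≤ z then (1 - gd n q)⁻¹ else 1) = ∏ q ∈ (pz z).filter (fun q => q ∣ e), (1 - gd n q)⁻¹ := by
    rw [← prod_filter]
    apply prod_congr _ (fun _ _ => rfl)
    ext q
    rw [mem_filter, mem_filter, Nat.mem_primeFactors, mem_pz]
    constructor
    · rintro ⟨⟨h3, h4, _⟩, h5⟩; exact ⟨⟨h5, h3⟩, h4⟩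
    · rintro ⟨⟨h5, h3⟩, h4⟩; exact ⟨⟨h3, h4, by omega⟩, h5⟩
  have h3 : (1 : ℝ) / (Nat.totient e : ℝ) = 1 / (e : ℝ) * ∏ q ∈ e.primeFactors, (q : ℝ) / ((q : ℝ) - 1) := by
    have h5 := Nat.totient_eq_mul_prod_factors e
    have h6 : (Nat.totient e : ℝ) = e * ∏ p ∈ e.primeFactors, (1 - (p : ℝ)⁻¹) := by
      have h7 : ((Nat.totient e : ℚ) : ℝ) = ((e * ∏ p ∈ e.primeFactors, (1 - (p : ℚ)⁻¹) : ℚ) : ℝ) := by rw [h5]
      push_cast at h7
      exact h7
    have h8 : ∏ q ∈ e.primeFactors, (q : ℝ) / ((q : ℝ) - 1) = (∏ p ∈ e.primeFactors, (1 - (p : ℝ)⁻¹))⁻¹ := by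
      rw [← prod_inv_distrib]
      apply prod_congr rfl
      intro q hq
      have : (2 : ℝ) ≤ q := by exact_mod_cast (Nat.prime_of_mem_primeFactors hq).two_le
      field_simp
    rw [h8, h6]
    rw [one_div, mul_inv, one_div]
  have h4 : Wn n z = (∏ q ∈ (pz z).filter (fun q => q ∣ e), (1 - gd n q)) * ∏ q ∈ (pz z).filter (fun q => ¬ q ∣ e), (1 - gd n q) := by
    unfold Wn
    rw [prod_filter_mul_prod_filter_not]
  have h5 : ∏ q ∈ (pz z).filter (fun q => q ∣ e), (1 - gd n q) ≠ 0 := by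
    rw [prod_ne_zero_iff]
    intro q hq
    rw [mem_filter] at hq
    have := gd_half hn (mem_pz.1 hq.1).2
    linarith
  rw [h1, h2, h3, h4, prod_inv_distrib]
  field_simp

theorem mod_sum (n z r D0 : ℕ) (a : ℤ) (ha : a ≠ 0) (hn : Even n) (M : ℕ → ℝ) (hM : Maj n (D0 * (z + 1) ^ r) M) :
    |∑ e ∈ Icc 1 D0, (((Ps n z).filter (fun b : ℕ => (e : ℤ) ∣ (b : ℤ) - a)).card : ℝ) -
      H343E.pi1 n * Wn n z * ∑ e ∈ Icc 1 D0, 1 / (e : ℝ) * ∏ q ∈ e.primeFactors, bl n z a q| ≤
    ∑ q ∈ Icc 1 (D0 * (z + 1) ^ r), (2 : ℝ) ^ q.primeFactors.card * M q + D0 * (z + 1) ^ r +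
      ∑ e ∈ Icc 1 D0, 2 * (H343E.pi1 n / (Nat.totient e : ℝ)) * (es (gd n) (pz z) r) + D0 * a.natAbs := by
  classical
  have hes0 : 0 ≤ es (gd n) (pz z) r := es_nonneg (fun p hp => gd_nonneg (mem_pz.1 hp).2) r
  have hpi := pi1_nonneg n
  -- one modulus
  have hone : ∀ e ∈ Icc 1 D0, |(((Ps n z).filter (fun b : ℕ => (e : ℤ) ∣ (b : ℤ) - a)).card : ℝ) -
      H343E.pi1 n * Wn n z * (1 / (e : ℝ) * ∏ q ∈ e.primeFactors, bl n z a q)| ≤
      (∑ j ∈ range (r + 1), ∑ S ∈ (pz z).powersetCard j, (M (e * ∏ q ∈ S, q) + 1)) +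
      2 * (H343E.pi1 n / (Nat.totient e : ℝ)) * (es (gd n) (pz z) r) + a.natAbs := by
    intro e he
    rw [mem_Icc] at he
    have he0 : e ≠ 0 := by omega
    have hS0 : 0 ≤ ∑ j ∈ range (r + 1), ∑ S ∈ (pz z).powersetCard j, (M (e * ∏ q ∈ S, q) + 1) :=
      sum_nonneg fun _ _ => sum_nonneg fun _ _ => by
        have := hM.1 (e * ∏ q ∈ (by assumption : Finset ℕ), q); linarith
    have hE0 : 0 ≤ 2 * (H343E.pi1 n / (Nat.totient e : ℝ)) * (es (gd n) (pz z) r) := by positivity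
    by_cases hA : ∃ q ∈ e.primeFactors, (q : ℤ) ∣ a
    · obtain ⟨q, hq, hqa⟩ := hA
      have h0 : ∏ q ∈ e.primeFactors, bl n z a q = 0 := prod_eq_zero hq (by unfold bl; rw [if_pos (Or.inl hqa)])
      rw [h0, mul_zero, mul_zero, sub_zero, abs_of_nonneg (Nat.cast_nonneg _)]
      have h1 : ((Ps n z).filter (fun b : ℕ => (e : ℤ) ∣ (b : ℤ) - a)).card ≤ a.natAbs := by
        have h2 : (Ps n z).filter (fun b : ℕ => (e : ℤ) ∣ (b : ℤ) - a) ⊆ Icc 1 a.natAbs := by
          intro b hb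
          unfold Ps at hb
          rw [mem_filter, mem_filter, mem_Icc] at hb
          obtain ⟨⟨hb1, hb2, -⟩, hb3⟩ := hb
          have h3 : (q : ℤ) ∣ (b : ℤ) - a := (Int.natCast_dvd_natCast.2 (Nat.dvd_of_mem_primeFactors hq)).trans hb3
          have h4 : (q : ℤ) ∣ (b : ℤ) := by
            have := dvd_add h3 hqa
            rwa [sub_add_cancel] at this
          have h5 : q = b := (Nat.prime_dvd_prime_iff_eq (Nat.prime_of_mem_primeFactors hq) hb2).1 (by exact_mod_cast h4)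
          rw [h5] at hqa
          have h6 : b ∣ a.natAbs := Int.natCast_dvd.1 hqa
          have h7 := Nat.le_of_dvd (Int.natAbs_pos.2 ha) h6
          rw [mem_Icc]
          exact ⟨hb2.one_le, h7⟩
        have := card_le_card h2
        rw [Nat.card_Icc] at this
        omega
      have h2 : (((Ps n z).filter (fun b : ℕ => (e : ℤ) ∣ (b : ℤ) - a)).card : ℝ) ≤ a.natAbs := by exact_mod_cast h1
      linarith
    · push Not at hA
      have ha0 : (0 : ℝ) ≤ a.natAbs := Nat.cast_nonneg _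
      by_cases hB : ∃ q ∈ e.primeFactors, q ≤ z ∧ (q : ℤ) ∣ (n : ℤ) - a
      · obtain ⟨q, hq, hqz, hqn⟩ := hB
        have h0 : ∏ q ∈ e.primeFactors, bl n z a q = 0 := prod_eq_zero hq (by unfold bl; rw [if_pos (Or.inr ⟨hqz, hqn⟩)])
        have h1 : (Ps n z).filter (fun b : ℕ => (e : ℤ) ∣ (b : ℤ) - a) = ∅ := by
          rw [filter_eq_empty_iff]
          intro b hb hb3
          unfold Ps at hb
          rw [mem_filter, mem_Icc] at hb
          have h3 : (q : ℤ) ∣ (b : ℤ) - a := (Int.natCast_dvd_natCast.2 (Nat.dvd_of_mem_primeFactors hq)).trans hb3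
          have h4 := dvd_sub hqn h3
          have h5 : (n : ℤ) - a - ((b : ℤ) - a) = ((n - b : ℕ) : ℤ) := by
            rw [Nat.cast_sub hb.1.2]; ring
          rw [h5] at h4
          exact hb.2.2 q (mem_pz.2 ⟨hqz, Nat.prime_of_mem_primeFactors hq⟩) (by exact_mod_cast h4)
        rw [h0, h1, mul_zero, mul_zero, sub_zero, card_empty, Nat.cast_zero, abs_zero]
        linarith
      · push Not at hB
        -- the main case
        set c : ℕ := (a % (e : ℤ)).toNat with hc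
        have hce : (c : ℤ) = a % (e : ℤ) := by
          rw [hc]
          exact Int.toNat_of_nonneg (Int.emod_nonneg _ (by exact_mod_cast he0))
        have hdc : ∀ b : ℕ, (e : ℤ) ∣ (b : ℤ) - a ↔ b ≡ c [MOD e] := by
          intro b
          rw [← Int.natCast_modEq_iff, hce]
          constructor
          · intro h
            have h1 : a ≡ b [ZMOD e] := Int.modEq_iff_dvd.2 h
            exact h1.symm.trans (Int.mod_modEq _ _).symm
          · intro h
            exact Int.modEq_iff_dvd.1 ((h.trans (Int.mod_modEq _ _)).symm)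
        have hcop : c.Coprime e := by
          rw [Nat.coprime_iff_gcd_eq_one]
          by_contra hcon
          obtain ⟨q, hq, hqd⟩ := Nat.exists_prime_and_dvd hcon
          have h1 : q ∣ e := hqd.trans (Nat.gcd_dvd_right _ _)
          have h2 : q ∣ c := hqd.trans (Nat.gcd_dvd_left _ _)
          apply hA q (Nat.mem_primeFactors.2 ⟨hq, h1, he0⟩)
          have h3 : (q : ℤ) ∣ a % (e : ℤ) := by rw [← hce]; exact_mod_cast h2
          have h4 : (q : ℤ) ∣ (e : ℤ) := by exact_mod_cast h1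
          exact (Int.dvd_iff_emod_eq_zero.2 (by
            rw [← Int.emod_emod_of_dvd a h4]
            exact Int.dvd_iff_emod_eq_zero.1 h3))
        set T := (pz z).filter (fun q => ¬ q ∣ e) with hT
        have hTz : T ⊆ pz z := filter_subset _ _
        have hcard : (((Ps n z).filter (fun b : ℕ => (e : ℤ) ∣ (b : ℤ) - a)).card : ℝ) = cn n e c T := by
          unfold cn Ps
          congr 2
          rw [filter_filter]
          apply filter_congr
          intro b hb
          rw [mem_Icc] at hb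
          rw [hdc b]
          constructor
          · rintro ⟨⟨h1, h2⟩, h3⟩
            exact ⟨⟨h1, h3⟩, fun q hq => h2 q (hTz hq)⟩
          · rintro ⟨⟨h1, h3⟩, h2⟩
            refine ⟨⟨h1, fun q hq => ?_⟩, h3⟩
            by_cases hqe : q ∣ e
            · intro hqn
              have hqp := (mem_pz.1 hq)
              apply hB q (Nat.mem_primeFactors.2 ⟨hqp.2, hqe, he0⟩) hqp.1
              have h4 : (q : ℤ) ∣ (b : ℤ) - a := (Int.natCast_dvd_natCast.2 hqe).trans ((hdc b).2 h3)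
              have h5 : (q : ℤ) ∣ ((n - b : ℕ) : ℤ) := by exact_mod_cast hqn
              have h6 := dvd_add h5 h4
              have h7 : ((n - b : ℕ) : ℤ) + ((b : ℤ) - a) = (n : ℤ) - a := by
                rw [Nat.cast_sub hb.2]; ring
              rwa [h7] at h6
            · exact h2 q (mem_filter.2 ⟨hq, hqe⟩)
        have key := sieve1 n z r e c (D0 * (z + 1) ^ r) he.1 hcop T hTz (fun q hq => (mem_filter.1 hq).2)
          (Nat.mul_le_mul_right _ he.2) M hM.1 hM.2
        have hmain : (H343E.pi1 n / (Nat.totient e : ℝ)) * ∏ q ∈ T, (1 - gd n q) =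
            H343E.pi1 n * Wn n z * (1 / (e : ℝ) * ∏ q ∈ e.primeFactors, bl n z a q) := by
          have h1 := bl_prod n z a hn e he.1 (fun q hq h => by
            rcases h with h | h
            · exact hA q hq h
            · exact hB q hq h.1 h.2)
          rw [← hT] at h1
          calc (H343E.pi1 n / (Nat.totient e : ℝ)) * ∏ q ∈ T, (1 - gd n q) =
                H343E.pi1 n * (1 / (Nat.totient e : ℝ) * ∏ q ∈ T, (1 - gd n q)) := by ring
            _ = _ := by rw [h1]; ring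
        rw [hcard, ← hmain]
        refine key.trans ?_
        have g1 : ∑ j ∈ range (r + 1), ∑ S ∈ T.powersetCard j, (M (e * ∏ q ∈ S, q) + 1) ≤
            ∑ j ∈ range (r + 1), ∑ S ∈ (pz z).powersetCard j, (M (e * ∏ q ∈ S, q) + 1) := by
          apply sum_le_sum
          intro j _
          apply sum_le_sum_of_subset_of_nonneg (powersetCard_mono hTz)
          intro S _ _
          have := hM.1 (e * ∏ q ∈ S, q)
          linarith
        have g2 : es (gd n) T r ≤ es (gd n) (pz z) r := by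
          unfold es
          apply sum_le_sum_of_subset_of_nonneg (powersetCard_mono hTz)
          intro S hS _
          exact prod_nonneg fun q hq => gd_nonneg (mem_pz.1 ((mem_powersetCard.1 hS).1 hq)).2
        have g3 : 2 * (H343E.pi1 n / (Nat.totient e : ℝ)) * es (gd n) T r ≤ 2 * (H343E.pi1 n / (Nat.totient e : ℝ)) * es (gd n) (pz z) r :=
          mul_le_mul_of_nonneg_left g2 (by positivity)
        linarith
  rw [mul_sum, ← sum_sub_distrib]
  refine (abs_sum_le_sum_abs _ _).trans ((sum_le_sum hone).trans ?_)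
  rw [sum_add_distrib, sum_add_distrib, sum_const, Nat.card_Icc, nsmul_eq_mul]
  have e1 : ((D0 + 1 - 1 : ℕ) : ℝ) = D0 := by simp
  rw [e1]
  have e2 : ∑ e ∈ Icc 1 D0, ∑ j ∈ range (r + 1), ∑ S ∈ (pz z).powersetCard j, (M (e * ∏ q ∈ S, q) + 1) =
      ∑ e ∈ Icc 1 D0, ∑ j ∈ range (r + 1), ∑ S ∈ (pz z).powersetCard j, M (e * ∏ q ∈ S, q) +
      D0 * ((∑ j ∈ range (r + 1), ((pz z).powersetCard j).card : ℕ) : ℝ) := by
    have e3 : ∀ e ∈ Icc 1 D0, ∑ j ∈ range (r + 1), ∑ S ∈ (pz z).powersetCard j, (M (e * ∏ q ∈ S, q) + 1) =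
        (∑ j ∈ range (r + 1), ∑ S ∈ (pz z).powersetCard j, M (e * ∏ q ∈ S, q)) +
          ((∑ j ∈ range (r + 1), ((pz z).powersetCard j).card : ℕ) : ℝ) := by
      intro e _
      push_cast
      rw [← sum_add_distrib]
      apply sum_congr rfl
      intro j _
      rw [sum_add_distrib, sum_const, nsmul_eq_mul, mul_one]
    rw [sum_congr rfl e3, sum_add_distrib, sum_const, Nat.card_Icc, nsmul_eq_mul, e1]
  rw [e2]
  have e4 := maj_sum z r D0 M hM.1
  have e5 : ((∑ j ∈ range (r + 1), ((pz z).powersetCard j).card : ℕ) : ℝ) ≤ ((z : ℝ) + 1) ^ r := by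
    refine (card_small (pz z) r).trans ?_
    apply pow_le_pow_left₀ (by positivity)
    have : ((pz z).card : ℝ) ≤ z := by exact_mod_cast card_pz_le z
    linarith
  have e6 := mul_le_mul_of_nonneg_left e5 (Nat.cast_nonneg (α := ℝ) D0)
  linarith

end Pool.Agent.K4H18.TD
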