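import Pool.Agent.K4H18.TD.B4

set_option autoImplicit false

/-! The divisor function over the sieved primes: small, middle and large divisors. -/

namespace Pool.Agent.K4H18.TD

open Finset
open Pool.Agent.H373R2.T7 (pz mem_pz Vz Vz_pos Vz_inv_small ev_L')
open Pool.Agent.K4H18.EK (gd gd_nonneg gd_le gd_le' Maj Ps Wn cn sieve1 sum_levels pi1_nonneg)

lemma div_switch (m : ℕ) (hm : 1 ≤ m) :
    |(m.divisors.card : ℝ) - 2 * ((m.divisors.filter (fun e => e ^ 2 < m)).card : ℝ)| ≤ 1 := by
  classical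
  have h1 : (m.divisors.filter (fun e => e ^ 2 < m)).card = (m.divisors.filter (fun e => m < e ^ 2)).card := by
    apply card_bij (fun e _ => m / e)
    · intro e he
      rw [mem_filter, Nat.mem_divisors] at he
      obtain ⟨⟨⟨c, hc⟩, h0⟩, h1⟩ := he
      have he0 : 0 < e := by
        rcases Nat.eq_zero_or_pos e with h | h
        · rw [h, zero_mul] at hc; exact absurd hc h0
        · exact h
      have hq : m / e = c := by rw [hc]; exact Nat.mul_div_cancel_left c he0
      rw [hq, mem_filter, Nat.mem_divisors]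
      refine ⟨⟨⟨e, by rw [hc]; ring⟩, h0⟩, ?_⟩
      have h2 : e < c := by
        rw [hc, sq] at h1
        exact Nat.lt_of_mul_lt_mul_left h1
      rw [hc, sq]
      apply Nat.mul_lt_mul_of_pos_right h2
      omega
    · intro a ha b hb hab
      rw [mem_filter, Nat.mem_divisors] at ha hb
      have h2 := Nat.div_mul_cancel ha.1.1
      have h3 := Nat.div_mul_cancel hb.1.1
      rw [hab] at h2
      have h4 : m / b ≠ 0 := by
        intro h
        rw [h, zero_mul] at h3
        omega
      exact Nat.eq_of_mul_eq_mul_left (Nat.pos_of_ne_zero h4) (h2.trans h3.symm)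
    · intro c hc
      rw [mem_filter, Nat.mem_divisors] at hc
      obtain ⟨⟨⟨e, he⟩, h0⟩, h1⟩ := hc
      have hc0 : 0 < c := by
        rcases Nat.eq_zero_or_pos c with h | h
        · rw [h, zero_mul] at he; exact absurd he h0
        · exact h
      have he0 : 0 < e := by
        rcases Nat.eq_zero_or_pos e with h | h
        · rw [h, mul_zero] at he; exact absurd he h0
        · exact h
      have h2 : e < c := by
        rw [he, sq] at h1
        exact Nat.lt_of_mul_lt_mul_left h1
      refine ⟨e, ?_, ?_⟩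
      · rw [mem_filter, Nat.mem_divisors]
        refine ⟨⟨⟨c, by rw [he]; ring⟩, h0⟩, ?_⟩
        rw [he, sq]
        exact Nat.mul_lt_mul_of_pos_right h2 he0
      · rw [he]
        exact Nat.mul_div_cancel c he0
  have h2 : (m.divisors.filter (fun e => e ^ 2 = m)).card ≤ 1 := by
    rw [card_le_one]
    intro a ha b hb
    rw [mem_filter] at ha hb
    exact Nat.pow_left_injective (n := 2) (by norm_num) (ha.2.trans hb.2.symm)
  have h3 : m.divisors.card = (m.divisors.filter (fun e => e ^ 2 < m)).card + ((m.divisors.filter (fun e => e ^ 2 = m)).card +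
      (m.divisors.filter (fun e => m < e ^ 2)).card) := by
    rw [← card_union_of_disjoint, ← card_union_of_disjoint]
    · congr 1
      ext e
      rw [mem_union, mem_union, mem_filter, mem_filter, mem_filter]
      constructor
      · intro h
        rcases lt_trichotomy (e ^ 2) m with h4 | h4 | h4
        · exact Or.inl ⟨h, h4⟩
        · exact Or.inr (Or.inl ⟨h, h4⟩)
        · exact Or.inr (Or.inr ⟨h, h4⟩)
      · rintro (h | h | h) <;> exact h.1
    · rw [disjoint_left]
      intro e he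
      rw [mem_filter] at he
      rw [mem_union, mem_filter, mem_filter]
      rintro (h | h) <;> omega
    · rw [disjoint_left]
      intro e he
      rw [mem_filter] at he
      rw [mem_filter]
      intro h
      omega
  rw [← h1] at h3
  have h4 : (m.divisors.card : ℝ) = ((m.divisors.filter (fun e => e ^ 2 < m)).card : ℝ) +
      (((m.divisors.filter (fun e => e ^ 2 = m)).card : ℝ) + ((m.divisors.filter (fun e => e ^ 2 < m)).card : ℝ)) := by exact_mod_cast h3
  have h5 : ((m.divisors.filter (fun e => e ^ 2 = m)).card : ℝ) ≤ 1 := by exact_mod_cast h2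
  have h6 : (0 : ℝ) ≤ ((m.divisors.filter (fun e => e ^ 2 = m)).card : ℝ) := Nat.cast_nonneg _
  rw [h4, abs_le]
  constructor <;> linarith

/-- the number of the divisors of `b - a` -/
def tau (a : ℤ) (b : ℕ) : ℕ := ((b : ℤ) - a).natAbs.divisors.card

/-- the primes `b ≤ n` in a residue class -/
noncomputable def pc (n : ℕ) (a : ℤ) (e : ℕ) : ℝ := (((Icc 1 n).filter (fun b : ℕ => b.Prime ∧ (e : ℤ) ∣ (b : ℤ) - a)).card : ℝ)

theorem div_sum (n z D0 : ℕ) (a : ℤ) :
    |∑ b ∈ Ps n z, (tau a b : ℝ) - 2 * ∑ e ∈ Icc 1 D0, (((Ps n z).filter (fun b : ℕ => (e : ℤ) ∣ (b : ℤ) - a)).card : ℝ)| ≤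
      (Ps n z).card + 6 * (D0 : ℝ) ^ 2 + 2 * D0 + 2 * ∑ e ∈ Ioc D0 (Nat.sqrt (n + a.natAbs)), pc n a e := by
  classical
  -- for one `b`
  set m : ℕ → ℕ := fun b => ((b : ℤ) - a).natAbs with hm
  set c1 : ℕ → ℕ := fun b => ((Icc 1 D0).filter (fun e : ℕ => (e : ℤ) ∣ (b : ℤ) - a)).card with hc1
  set c2 : ℕ → ℕ := fun b => ((Icc 1 D0).filter (fun e : ℕ => (e : ℤ) ∣ (b : ℤ) - a ∧ m b ≤ e ^ 2)).card with hc2
  set c3 : ℕ → ℕ := fun b => ((Ioc D0 (Nat.sqrt (n + a.natAbs))).filter (fun e : ℕ => (e : ℤ) ∣ (b : ℤ) - a)).card with hc3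
  have hdvd : ∀ (e b : ℕ), ((e : ℤ) ∣ (b : ℤ) - a) ↔ e ∣ m b := fun e b => by rw [hm]; exact Int.natCast_dvd
  have hone : ∀ b ∈ Ps n z, |(tau a b : ℝ) - 2 * c1 b| ≤ 1 + 2 * c2 b + 2 * c3 b := by
    intro b hb
    unfold Ps at hb
    rw [mem_filter, mem_Icc] at hb
    rcases Nat.eq_zero_or_pos (m b) with h0 | h0
    · have h1 : (tau a b : ℝ) = 0 := by
        unfold tau
        rw [hm] at h0
        simp only at h0
        rw [h0]
        simp
      have h2 : c2 b = c1 b := by
        rw [hc1, hc2]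
        simp only
        congr 1
        apply filter_congr
        intro e _
        rw [h0]
        simp
      rw [h1, h2, zero_sub, abs_neg, abs_of_nonneg (by positivity)]
      have : (0 : ℝ) ≤ c3 b := Nat.cast_nonneg _
      linarith
    · have h1 := div_switch (m b) h0
      have hmle : m b ≤ n + a.natAbs := by
        rw [hm]
        simp only
        have := Int.natAbs_sub_le (b : ℤ) a
        rw [Int.natAbs_natCast] at this
        omega
      -- comparison of the sets
      have h2 : ((m b).divisors.filter (fun e => e ^ 2 < m b)).card ≤ c1 b + c3 b := by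
        rw [hc1, hc3]
        simp only
        refine le_trans (card_le_card ?_) (card_union_le _ _)
        intro e he
        rw [mem_filter, Nat.mem_divisors] at he
        rw [mem_union, mem_filter, mem_filter, mem_Icc, mem_Ioc, hdvd]
        have he1 : 1 ≤ e := Nat.pos_of_ne_zero fun h => by
          rw [h] at he
          have := Nat.eq_zero_of_zero_dvd he.1.1
          omega
        have he2 : e ≤ Nat.sqrt (n + a.natAbs) := by
          rw [Nat.le_sqrt']
          omega
        rcases Nat.lt_or_ge D0 e with h3 | h3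
        · exact Or.inr ⟨⟨h3, he2⟩, he.1.1⟩
        · exact Or.inl ⟨⟨he1, h3⟩, he.1.1⟩
      have h3 : c1 b ≤ ((m b).divisors.filter (fun e => e ^ 2 < m b)).card + c2 b := by
        rw [hc1, hc2]
        simp only
        refine le_trans (card_le_card ?_) (card_union_le _ _)
        intro e he
        rw [mem_filter, hdvd] at he
        rw [mem_union, mem_filter, mem_filter, Nat.mem_divisors, hdvd]
        rcases Nat.lt_or_ge (e ^ 2) (m b) with h4 | h4
        · exact Or.inl ⟨⟨he.2, by omega⟩, h4⟩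
        · exact Or.inr ⟨he.1, he.2, h4⟩
      have h2' : (((m b).divisors.filter (fun e => e ^ 2 < m b)).card : ℝ) ≤ c1 b + c3 b := by exact_mod_cast h2
      have h3' : (c1 b : ℝ) ≤ ((m b).divisors.filter (fun e => e ^ 2 < m b)).card + c2 b := by exact_mod_cast h3
      have h4 : (tau a b : ℝ) = ((m b).divisors.card : ℝ) := rfl
      rw [h4]
      obtain ⟨h5, h6⟩ := abs_le.1 h1
      have g2 : (0 : ℝ) ≤ c2 b := Nat.cast_nonneg _
      have g3 : (0 : ℝ) ≤ c3 b := Nat.cast_nonneg _
      rw [abs_le]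
      constructor <;> linarith
  -- the sums
  have hsum1 : ∑ b ∈ Ps n z, (c1 b : ℝ) = ∑ e ∈ Icc 1 D0, (((Ps n z).filter (fun b : ℕ => (e : ℤ) ∣ (b : ℤ) - a)).card : ℝ) := by
    rw [hc1]
    simp only [card_filter]
    push_cast
    rw [sum_comm]
  have hsum2 : ∑ b ∈ Ps n z, (c2 b : ℝ) ≤ 3 * (D0 : ℝ) ^ 2 + D0 := by
    have h1 : ∑ b ∈ Ps n z, (c2 b : ℝ) = ∑ e ∈ Icc 1 D0, (((Ps n z).filter (fun b : ℕ => (e : ℤ) ∣ (b : ℤ) - a ∧ m b ≤ e ^ 2)).card : ℝ) := by
      rw [hc2]
      simp only [card_filter]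
      push_cast
      rw [sum_comm]
    rw [h1]
    have h2 : ∀ e ∈ Icc 1 D0, (((Ps n z).filter (fun b : ℕ => (e : ℤ) ∣ (b : ℤ) - a ∧ m b ≤ e ^ 2)).card : ℝ) ≤ 3 * D0 := by
      intro e he
      rw [mem_Icc] at he
      have he0 : (0 : ℤ) < e := by exact_mod_cast he.1
      have h3 : ((Ps n z).filter (fun b : ℕ => (e : ℤ) ∣ (b : ℤ) - a ∧ m b ≤ e ^ 2)).card ≤ (Icc (-(e : ℤ)) e).card := by
        apply card_le_card_of_injOn (fun b : ℕ => ((b : ℤ) - a) / e)
        · intro b hb
          rw [mem_coe, mem_filter] at hb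
          obtain ⟨-, ⟨k, hk⟩, h4⟩ := hb
          rw [mem_coe, mem_Icc]
          simp only
          rw [hk, Int.mul_ediv_cancel_left _ he0.ne']
          have h5 : (m b : ℤ) ≤ (e : ℤ) ^ 2 := by exact_mod_cast h4
          have h6 : (m b : ℤ) = |(b : ℤ) - a| := by rw [hm]; exact Int.natCast_natAbs _
          rw [h6, hk, abs_mul, abs_of_pos he0, sq] at h5
          have h7 := le_of_mul_le_mul_left h5 he0
          exact abs_le.1 h7
        · intro b hb c hc hbc
          rw [mem_coe, mem_filter] at hb hc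
          obtain ⟨-, ⟨k, hk⟩, -⟩ := hb
          obtain ⟨-, ⟨l, hl⟩, -⟩ := hc
          simp only at hbc
          rw [hk, hl, Int.mul_ediv_cancel_left _ he0.ne', Int.mul_ediv_cancel_left _ he0.ne'] at hbc
          rw [hbc] at hk
          have : (b : ℤ) = c := by linarith
          exact_mod_cast this
      rw [Int.card_Icc] at h3
      have h4 : ((e : ℤ) + 1 - -(e : ℤ)).toNat = 2 * e + 1 := by omega
      rw [h4] at h3
      have h5 : ((Ps n z).filter (fun b : ℕ => (e : ℤ) ∣ (b : ℤ) - a ∧ m b ≤ e ^ 2)).card ≤ 3 * D0 := by omega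
      exact_mod_cast h5
    refine (sum_le_sum h2).trans ?_
    rw [sum_const, Nat.card_Icc, nsmul_eq_mul]
    have e1 : ((D0 + 1 - 1 : ℕ) : ℝ) = D0 := by simp
    rw [e1]
    have : (0 : ℝ) ≤ D0 := Nat.cast_nonneg _
    nlinarith
  have hsum3 : ∑ b ∈ Ps n z, (c3 b : ℝ) ≤ ∑ e ∈ Ioc D0 (Nat.sqrt (n + a.natAbs)), pc n a e := by
    have h1 : ∑ b ∈ Ps n z, (c3 b : ℝ) = ∑ e ∈ Ioc D0 (Nat.sqrt (n + a.natAbs)), (((Ps n z).filter (fun b : ℕ => (e : ℤ) ∣ (b : ℤ) - a)).card : ℝ) := by
      rw [hc3]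
      simp only [card_filter]
      push_cast
      rw [sum_comm]
    rw [h1]
    apply sum_le_sum
    intro e _
    unfold pc
    apply Nat.cast_le.2
    apply card_le_card
    intro b hb
    unfold Ps at hb
    rw [mem_filter, mem_filter] at hb
    rw [mem_filter]
    exact ⟨hb.1.1, hb.1.2.1, hb.2⟩
  rw [← hsum1, mul_sum, ← sum_sub_distrib]
  refine (abs_sum_le_sum_abs _ _).trans ((sum_le_sum hone).trans ?_)
  rw [sum_add_distrib, sum_add_distrib, sum_const, nsmul_eq_mul, mul_one, ← mul_sum, ← mul_sum]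
  linarith

/-- the middle divisors -/
theorem middle (W B A U : ℕ) : ∃ (C : ℝ) (N0 : ℕ), 0 ≤ C ∧ ∀ N : ℕ, N0 ≤ N → ∀ n : ℕ, (N : ℝ) / Real.log N ^ W ≤ n → n ≤ B * N →
    ∀ a : ℤ, (a.natAbs : ℝ) ≤ Real.log N ^ A → ∀ D0 : ℕ, 1 ≤ D0 → 1 / 2 * Real.log n - U * Real.log (Real.log N) ^ 2 ≤ Real.log D0 →
      ∑ e ∈ Ioc D0 (Nat.sqrt (n + a.natAbs)), pc n a e ≤ C * Real.log (Real.log N) ^ 4 * (n / Real.log N) := by
  obtain ⟨C, hC, hBT⟩ := Pool.Agent.Helper602.MK.BTLib.brun_titchmarsh
  obtain ⟨C2, hC2, N2, h2⟩ := tot_bound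
  obtain ⟨N3, h3⟩ := Pool.Agent.K4H18.EK.sizes W B
  obtain ⟨N4, h4⟩ := ev_L' (B + 12)
  obtain ⟨N5, h5⟩ := Pool.Agent.K4H18.EK.ev_pow A 1 (1 / 4) (by norm_num)
  obtain ⟨N6, h6⟩ := Pool.Agent.K4H18.EK.ev_lam 1 1 one_pos
  refine ⟨16 * C * C2 * (U + 1) + 1, max (max N2 N3) (max (max N4 N5) (max N6 3)), by positivity, fun N hN n hn hnB a ha D0 hD0 hlD => ?_⟩
  obtain ⟨s1, s2, s3⟩ := h3 N (by omega) n hn hnB
  have b4 := h4 N (by omega)
  have b5 := h5 N (by omega)
  obtain ⟨-, l1, -⟩ := h6 N (by omega)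
  have hN3 : (3 : ℝ) ≤ N := by exact_mod_cast (by omega : 3 ≤ N)
  have hN0 : (0 : ℝ) < N := by linarith
  have hN1 : (1 : ℝ) ≤ N := by linarith
  have hB0 : (0 : ℝ) ≤ B := Nat.cast_nonneg _
  set L := Real.log N with hL
  set lam := Real.log L with hlam
  have hL0 : 0 < L := by linarith
  have hn0 : (0 : ℝ) < n := lt_of_lt_of_le (by positivity) s1
  have hU0 : (0 : ℝ) ≤ U := Nat.cast_nonneg _
  -- `|a| ≤ n`
  have han : a.natAbs ≤ n := by
    have : (a.natAbs : ℝ) ≤ n := by
      rw [one_mul] at b5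
      refine ha.trans (b5.trans (le_trans ?_ s1))
      exact Real.rpow_le_rpow_of_exponent_le hN1 (by norm_num)
    exact_mod_cast this
  have hlogn6 : 6 ≤ Real.log n := by linarith
  have hn64 : (64 : ℝ) ≤ n := by
    have h7 := Real.exp_log hn0
    rw [← h7]
    have h8 : Real.exp 6 ≤ Real.exp (Real.log n) := Real.exp_le_exp.2 hlogn6
    have h9 : (64 : ℝ) ≤ Real.exp 6 := by
      have e1 : Real.exp 6 = Real.exp 1 ^ 6 := by rw [← Real.exp_nat_mul]; norm_num
      rw [e1]
      have := Real.exp_one_gt_d9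
      calc (64 : ℝ) = 2 ^ 6 := by norm_num
        _ ≤ Real.exp 1 ^ 6 := pow_le_pow_left₀ (by norm_num) (by linarith) 6
    linarith
  set Q := Nat.sqrt (n + a.natAbs) with hQ
  have hQ2 : (Q : ℝ) ^ 2 ≤ 2 * n := by
    have : Q ^ 2 ≤ n + a.natAbs := Nat.sqrt_le' _
    have h7 : Q ^ 2 ≤ 2 * n := by omega
    exact_mod_cast h7
  have hBN : n ≤ N ^ 2 := by
    have h7 : (n : ℝ) ≤ B * N := by exact_mod_cast hnB
    have h8 : L ≤ N := (Real.log_le_sub_one_of_pos hN0).trans (by linarith)
    have h9 : (n : ℝ) ≤ (N : ℝ) ^ 2 := by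
      rw [sq]
      refine h7.trans (mul_le_mul_of_nonneg_right (by linarith) hN0.le)
    exact_mod_cast h9
  -- one modulus
  have hone : ∀ e ∈ Ioc D0 Q, pc n a e ≤ (16 * C * C2 * lam ^ 2 * (n / L)) * (1 / (e : ℝ)) := by
    intro e he
    rw [mem_Ioc] at he
    have he1 : 1 ≤ e := by omega
    have he0 : (0 : ℝ) < e := by exact_mod_cast he1
    have heQ : (e : ℝ) ≤ Q := by exact_mod_cast he.2
    have he2 : (e : ℝ) ^ 2 ≤ 2 * n := (pow_le_pow_left₀ he0.le heQ 2).trans hQ2
    have hen : (e : ℝ) ≤ n := by nlinarith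
    have hen' : e ≤ n := by exact_mod_cast hen
    set c : ℕ := (a % (e : ℤ)).toNat with hc
    have hce : (c : ℤ) = a % (e : ℤ) := by
      rw [hc]
      exact Int.toNat_of_nonneg (Int.emod_nonneg _ (by exact_mod_cast (by omega : e ≠ 0)))
    set K := n / e + 1 with hK
    have hK2 : 2 ≤ K := by
      have : 1 ≤ n / e := (Nat.one_le_div_iff (by omega)).2 hen'
      omega
    have hmod : ∀ x : ℕ, (e : ℤ) ∣ (x : ℤ) - a → x % e = c := by
      intro x hx
      have h7 : (x : ℤ) % e = a % e := Int.emod_eq_emod_iff_emod_sub_eq_zero.2 (Int.emod_eq_zero_of_dvd hx)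
      have h8 : ((x % e : ℕ) : ℤ) = c := by rw [hce, ← h7]; push_cast; rfl
      exact_mod_cast h8
    have hcount : pc n a e ≤ (((range K).filter (fun k => (c + k * e).Prime)).card : ℝ) := by
      unfold pc
      apply Nat.cast_le.2
      apply card_le_card_of_injOn (fun b => b / e)
      · intro b hb
        rw [mem_coe, mem_filter, mem_Icc] at hb
        rw [mem_coe, mem_filter, mem_range]
        have hb3 := hmod b hb.2.2
        refine ⟨?_, ?_⟩
        · have h9 : b / e ≤ n / e := Nat.div_le_div_right hb.1.2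
          show b / e < K
          omega
        · have h7 := Nat.mod_add_div b e
          rw [hb3] at h7
          have h8 : c + b / e * e = b := by rw [mul_comm]; exact h7
          show (c + b / e * e).Prime
          rw [h8]
          exact hb.2.1
      · intro b hb b' hb' h
        rw [mem_coe, mem_filter, mem_Icc] at hb hb'
        have h7 := Nat.mod_add_div b e
        have h8 := Nat.mod_add_div b' e
        rw [hmod b hb.2.2] at h7
        rw [hmod b' hb'.2.2] at h8
        simp only at h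
        rw [h] at h7
        omega
    have hbt := hBT c e K he1 hK2
    have hKup : (K : ℝ) ≤ 2 * (n / e) := by
      rw [hK]
      push_cast
      have h7 : ((n / e : ℕ) : ℝ) ≤ (n : ℝ) / e := Nat.cast_div_le
      have h8 : (1 : ℝ) ≤ (n : ℝ) / e := by
        rw [le_div_iff₀ he0]
        linarith
      linarith
    have hKlow : (n : ℝ) / e ≤ K := by
      have := Nat.lt_div_mul_add (a := n) (b := e) (by omega)
      rw [div_le_iff₀ he0]
      have h7 : n < K * e := by
        have : K * e = n / e * e + e := by rw [hK]; ring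
        omega
      exact_mod_cast h7.le
    have hlogK : Real.log n / 4 ≤ Real.log K := by
      have h7 : Real.log ((n : ℝ) / e) ≤ Real.log K := Real.log_le_log (by positivity) hKlow
      rw [Real.log_div hn0.ne' he0.ne'] at h7
      have h8 := Real.log_le_log (by positivity) he2
      rw [Real.log_pow, Real.log_mul (by norm_num) hn0.ne'] at h8
      push_cast at h8
      have := Real.log_two_lt_d9
      linarith
    have htot := h2 N (by omega) e he1 (hen'.trans hBN)
    rw [← hL, ← hlam] at htot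
    have hlogn : L / 2 ≤ Real.log n := s2
    refine hcount.trans (hbt.trans ?_)
    calc C * ((e : ℝ) / (Nat.totient e : ℝ)) * K / Real.log K ≤ C * (C2 * lam ^ 2) * (2 * (n / e)) / (L / 8) := by
          apply div_le_div₀ (by positivity) _ (by positivity) (by linarith)
          apply mul_le_mul _ hKup (Nat.cast_nonneg _) (by positivity)
          exact mul_le_mul_of_nonneg_left htot (by linarith)
      _ = (16 * C * C2 * lam ^ 2 * (n / L)) * (1 / (e : ℝ)) := by
          field_simp
          ring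
  refine (sum_le_sum hone).trans ?_
  rw [← mul_sum]
  rcases Nat.lt_or_ge Q D0 with h7 | h7
  · rw [Ioc_eq_empty (by omega), sum_empty, mul_zero]
    positivity
  have h8 := inv_sum_Ioc D0 Q hD0 h7
  have hQ0 : (0 : ℝ) < Q := by exact_mod_cast (by omega : 0 < Q)
  have h9 : Real.log Q ≤ 1 / 2 * Real.log n + 1 := by
    have h10 := Real.log_le_log (by positivity) hQ2
    rw [Real.log_pow, Real.log_mul (by norm_num) hn0.ne'] at h10
    push_cast at h10
    have := Real.log_two_lt_d9
    linarith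
  have h10 : ∑ e ∈ Ioc D0 Q, 1 / (e : ℝ) ≤ (U + 1) * lam ^ 2 := by
    have : 1 ≤ lam ^ 2 := one_le_pow₀ l1
    linarith
  calc (16 * C * C2 * lam ^ 2 * (n / L)) * ∑ e ∈ Ioc D0 Q, 1 / (e : ℝ) ≤ (16 * C * C2 * lam ^ 2 * (n / L)) * ((U + 1) * lam ^ 2) :=
        mul_le_mul_of_nonneg_left h10 (by positivity)
    _ = (16 * C * C2 * (U + 1)) * lam ^ 4 * (n / L) := by ring
    _ ≤ _ := by
        apply mul_le_mul_of_nonneg_right _ (by positivity)
        apply mul_le_mul_of_nonneg_right (by linarith) (by positivity)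

end Pool.Agent.K4H18.TD
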