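import Pool.Agent.K4H18.TD.B5

set_option autoImplicit false

/-! The Euler product. -/

namespace Pool.Agent.K4H18.TD

open Finset
open Pool.Agent.H373R2.T7 (pz mem_pz Vz Vz_pos Vz_inv_small ev_L')
open Pool.Agent.K4H18.EK (gd gd_nonneg gd_le gd_le' Maj Ps Wn cn sieve1 sum_levels pi1_nonneg)

/-- the local factor of the constant -/
noncomputable def kap (n : ℕ) (a : ℤ) (q : ℕ) : ℝ :=
  if (q : ℤ) ∣ a ∨ (q : ℤ) ∣ (n : ℤ) - a then 1 - 1 / (q : ℝ) else
    if q ∣ n then 1 + 1 / ((q : ℝ) * ((q : ℝ) - 1)) else 1 + 2 / ((q : ℝ) * ((q : ℝ) - 2))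

/-- the constant -/
noncomputable def cT (a : ℤ) (n : ℕ) : ℝ := ∏ q ∈ pz n, kap n a q

lemma kap_eq (n z : ℕ) (a : ℤ) (hn : Even n) (q : ℕ) (hq : q.Prime) (hqz : q ≤ z) :
    1 + (bl n z a q - 1) / q = kap n a q := by
  have hq2 : (2 : ℝ) ≤ q := by exact_mod_cast hq.two_le
  unfold bl kap
  by_cases h : (q : ℤ) ∣ a ∨ (q : ℤ) ∣ (n : ℤ) - a
  · rw [if_pos h, if_pos (by rcases h with h | h; exact Or.inl h; exact Or.inr ⟨hqz, h⟩)]
    ring
  · rw [if_neg h, if_neg (by rintro (h1 | h1); exact h (Or.inl h1); exact h (Or.inr h1.2)), if_pos hqz]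
    unfold gd
    by_cases hqn : q ∣ n
    · rw [if_pos hqn, if_pos hqn]
      have : (q : ℝ) - 1 ≠ 0 := by linarith
      field_simp
      ring
    · rw [if_neg hqn, if_neg hqn]
      have h2 : q ≠ 2 := by
        intro h2
        rw [h2] at hqn
        exact hqn hn.two_dvd
      have h3 : (3 : ℝ) ≤ q := by
        have := hq.two_le
        exact_mod_cast (by omega : 3 ≤ q)
      have h4 : (q : ℝ) - 1 ≠ 0 := by linarith
      have h5 : (q : ℝ) - 2 ≠ 0 := by linarith
      have h6 : (1 - 1 / ((q : ℝ) - 1))⁻¹ = ((q : ℝ) - 1) / ((q : ℝ) - 2) := by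
        rw [show 1 - 1 / ((q : ℝ) - 1) = ((q : ℝ) - 2) / ((q : ℝ) - 1) by field_simp; ring, inv_div]
      rw [h6]
      field_simp
      ring

lemma bl_large (n z : ℕ) (a : ℤ) (q : ℕ) (hqz : z < q) (ha : a ≠ 0) (haz : a.natAbs ≤ z) :
    bl n z a q = (q : ℝ) / ((q : ℝ) - 1) := by
  unfold bl
  rw [if_neg, if_neg (by omega), mul_one]
  rintro (h | h)
  · have h1 := Nat.le_of_dvd (Int.natAbs_pos.2 ha) (Int.natCast_dvd.1 h)
    omega
  · omega

lemma kap_lower (n : ℕ) (a : ℤ) (q : ℕ) (hn : Even n) (hq : q.Prime) : 1 - 1 / (q : ℝ) ≤ kap n a q := by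
  have hq2 : (2 : ℝ) ≤ q := by exact_mod_cast hq.two_le
  have h0 : 0 < 1 / (q : ℝ) := by positivity
  unfold kap
  split_ifs with h h1
  · exact le_rfl
  · have : 0 ≤ 1 / ((q : ℝ) * ((q : ℝ) - 1)) := div_nonneg zero_le_one (mul_nonneg (by linarith) (by linarith))
    linarith
  · have : 0 ≤ 2 / ((q : ℝ) * ((q : ℝ) - 2)) := div_nonneg (by norm_num) (mul_nonneg (by linarith) (by linarith))
    linarith

lemma kap_pos (n : ℕ) (a : ℤ) (q : ℕ) (hn : Even n) (hq : q.Prime) : 0 < kap n a q :=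
  lt_of_lt_of_le (one_sub_pos hq) (kap_lower n a q hn hq)

lemma kap_upper (n : ℕ) (a : ℤ) (q : ℕ) (hn : Even n) (hq : q.Prime) : kap n a q ≤ 1 + 4 * (1 / ((q : ℝ) * ((q : ℝ) - 1))) := by
  have hq2 : (2 : ℝ) ≤ q := by exact_mod_cast hq.two_le
  have h0 : 0 < 1 / (q : ℝ) := by positivity
  have h1 : 0 ≤ 1 / ((q : ℝ) * ((q : ℝ) - 1)) := div_nonneg zero_le_one (mul_nonneg (by linarith) (by linarith))
  unfold kap
  split_ifs with h h2
  · linarith
  · linarith
  · have h3 : q ≠ 2 := by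
      intro h3
      rw [h3] at h2
      exact h2 hn.two_dvd
    have h4 : (3 : ℝ) ≤ q := by
      have := hq.two_le
      exact_mod_cast (by omega : 3 ≤ q)
    have h5 : 2 / ((q : ℝ) * ((q : ℝ) - 2)) ≤ 4 * (1 / ((q : ℝ) * ((q : ℝ) - 1))) := by
      rw [mul_one_div, div_le_div_iff₀ (by apply mul_pos <;> linarith) (by apply mul_pos <;> linarith)]
      nlinarith
    linarith

lemma tail_sum (z Y : ℕ) (hz : 1 ≤ z) : ∑ q ∈ (Ioc z Y).filter Nat.Prime, 1 / ((q : ℝ) * ((q : ℝ) - 1)) ≤ 1 / z := by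
  have h1 : ∑ q ∈ (Ioc z Y).filter Nat.Prime, 1 / ((q : ℝ) * ((q : ℝ) - 1)) ≤ ∑ q ∈ Ioc z Y, 1 / ((q : ℝ) * ((q : ℝ) - 1)) := by
    apply sum_le_sum_of_subset_of_nonneg (filter_subset _ _)
    intro q hq _
    rw [mem_Ioc] at hq
    have : (1 : ℝ) ≤ q := by exact_mod_cast (by omega : 1 ≤ q)
    exact div_nonneg zero_le_one (mul_nonneg (by linarith) (by linarith))
  refine h1.trans ?_
  have hz0 : (0 : ℝ) < z := by exact_mod_cast hz
  rcases Nat.lt_or_ge Y z with h | h
  · rw [Ioc_eq_empty (by omega), sum_empty]; positivity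
  have h2 : ∑ q ∈ Ioc z Y, 1 / ((q : ℝ) * ((q : ℝ) - 1)) = 1 / z - 1 / Y := by
    induction Y, h using Nat.le_induction with
    | base => simp
    | succ Y hY ih =>
      have e1 : Ioc z (Y + 1) = insert (Y + 1) (Ioc z Y) := by
        ext x
        rw [mem_insert, mem_Ioc, mem_Ioc]
        omega
      rw [e1, sum_insert (by rw [mem_Ioc]; omega), ih ?_]
      · have hY0 : (0 : ℝ) < Y := by exact_mod_cast (by omega : 0 < Y)
        have e2 : ((Y + 1 : ℕ) : ℝ) - 1 = Y := by push_cast; ring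
        rw [e2]
        push_cast
        field_simp
        ring
      · apply sum_le_sum_of_subset_of_nonneg (filter_subset _ _)
        intro q hq _
        rw [mem_Ioc] at hq
        have : (1 : ℝ) ≤ q := by exact_mod_cast (by omega : 1 ≤ q)
        exact div_nonneg zero_le_one (mul_nonneg (by linarith) (by linarith))
  rw [h2]
  have : 0 ≤ 1 / (Y : ℝ) := by positivity
  linarith

lemma pz_split (z D : ℕ) (h : z ≤ D) (f : ℕ → ℝ) : ∏ q ∈ pz D, f q = (∏ q ∈ pz z, f q) * ∏ q ∈ (Ioc z D).filter Nat.Prime, f q := by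
  rw [← prod_union]
  · apply prod_congr _ (fun _ _ => rfl)
    ext q
    rw [mem_union, mem_pz, mem_pz, mem_filter, mem_Ioc]
    constructor
    · rintro ⟨h1, h2⟩
      rcases Nat.lt_or_ge z q with h3 | h3
      · exact Or.inr ⟨⟨h3, h1⟩, h2⟩
      · exact Or.inl ⟨h3, h2⟩
    · rintro (⟨h1, h2⟩ | ⟨⟨h1, h3⟩, h2⟩)
      · exact ⟨h1.trans h, h2⟩
      · exact ⟨h3, h2⟩
  · rw [disjoint_left]
    intro q hq hq2
    rw [mem_pz] at hq
    rw [mem_filter, mem_Ioc] at hq2
    omega

lemma one_le_prod_real {ι : Type*} (S : Finset ι) (f : ι → ℝ) (h : ∀ i ∈ S, 1 ≤ f i) : 1 ≤ ∏ i ∈ S, f i := by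
  calc (1 : ℝ) = ∏ _i ∈ S, (1 : ℝ) := by simp
    _ ≤ _ := prod_le_prod (fun _ _ => zero_le_one) h

/-- the two constants agree -/
theorem const_near (ε : ℝ) (hε : 0 < ε) (W B : ℕ) : ∃ N0 : ℕ, ∀ N : ℕ, N0 ≤ N → ∀ z : ℕ, Real.log N ^ 3 ≤ z →
    ∀ n : ℕ, Even n → (N : ℝ) / Real.log N ^ W ≤ n → n ≤ B * N → z ≤ n → ∀ a : ℤ, a ≠ 0 → a.natAbs ≤ z → a.natAbs < n →
    ∀ D0 : ℕ, z ≤ D0 →
      |∏ q ∈ pz D0, (1 + (bl n z a q - 1) / q) - cT a n| ≤ ε * cT a n ∧ Vz z / 2 ≤ cT a n := by
  obtain ⟨N1, h1⟩ := Pool.Agent.K4H18.EK.sizes W B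
  obtain ⟨N2, h2⟩ := ev_L' (B + 20 + 20 / ε)
  refine ⟨max (max N1 N2) 3, fun N hN z hz n hn hnN hnB hzn a ha haz han D0 hD0 => ?_⟩
  obtain ⟨s1, s2, s3⟩ := h1 N (by omega) n hnN hnB
  have b2 := h2 N (by omega)
  have hN3 : (3 : ℝ) ≤ N := by exact_mod_cast (by omega : 3 ≤ N)
  set L := Real.log N with hL
  have hB0 : (0 : ℝ) ≤ B := Nat.cast_nonneg _
  have hε20 : 0 < 20 / ε := by positivity
  have hL20 : 20 ≤ L := by linarith
  have hL0 : 0 < L := by linarith
  have hεL : 20 ≤ ε * L := by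
    have : 20 / ε ≤ L := by linarith
    rw [div_le_iff₀ hε] at this
    linarith
  have hL2z : L ^ 2 * L ≤ z := by
    have : L ^ 2 * L = L ^ 3 := by ring
    rw [this]; exact hz
  have hzL : L ^ 2 ≤ z := by nlinarith [sq_nonneg L]
  have hz400 : (400 : ℝ) ≤ z := by nlinarith
  have hz0 : (0 : ℝ) < z := by linarith
  have hz1 : 1 ≤ z := by
    have : (1 : ℝ) ≤ z := by linarith
    exact_mod_cast this
  -- splitting
  rw [pz_split z D0 hD0]
  unfold cT
  rw [pz_split z n hzn]
  have hA : ∏ q ∈ pz z, (1 + (bl n z a q - 1) / q) = ∏ q ∈ pz z, kap n a q :=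
    prod_congr rfl fun q hq => kap_eq n z a hn q (mem_pz.1 hq).2 (mem_pz.1 hq).1
  rw [hA]
  set A := ∏ q ∈ pz z, kap n a q with hAd
  have hA0 : 0 < A := prod_pos fun q hq => kap_pos n a q hn (mem_pz.1 hq).2
  have hAV : Vz z ≤ A := by
    unfold Vz
    exact prod_le_prod (fun q hq => (one_sub_pos (mem_pz.1 hq).2).le) (fun q hq => kap_lower n a q hn (mem_pz.1 hq).2)
  set R1 := ∏ q ∈ (Ioc z D0).filter Nat.Prime, (1 + (bl n z a q - 1) / q) with hR1
  set R2 := ∏ q ∈ (Ioc z n).filter Nat.Prime, kap n a q with hR2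
  have hexp : Real.exp (4 / (z : ℝ)) ≤ 1 + 8 / z := by
    have h5 : 4 / (z : ℝ) ≤ 1 := by rw [div_le_one hz0]; linarith
    have h6 : 0 ≤ 4 / (z : ℝ) := by positivity
    have h7 := Real.abs_exp_sub_one_sub_id_le (x := 4 / (z : ℝ)) (by rw [abs_of_nonneg h6]; exact h5)
    have h8 := (abs_le.1 h7).2
    have h9 : (4 / (z : ℝ)) ^ 2 ≤ 4 / z := by nlinarith
    have h10 : 8 / (z : ℝ) = 4 / z + 4 / z := by ring
    linarith
  have r1lo : 1 ≤ R1 := by
    rw [hR1]
    apply one_le_prod_real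
    intro q hq
    rw [mem_filter, mem_Ioc] at hq
    rw [bl_large n z a q hq.1.1 ha haz]
    have hq2 : (2 : ℝ) ≤ q := by exact_mod_cast hq.2.two_le
    have : 0 ≤ ((q : ℝ) / ((q : ℝ) - 1) - 1) / q := by
      apply div_nonneg _ (by linarith)
      rw [sub_nonneg, le_div_iff₀ (by linarith)]
      linarith
    linarith
  have r1up : R1 ≤ 1 + 8 / z := by
    refine le_trans ?_ hexp
    calc R1 ≤ ∏ q ∈ (Ioc z D0).filter Nat.Prime, Real.exp (4 * (1 / ((q : ℝ) * ((q : ℝ) - 1)))) := by
          apply prod_le_prod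
          · intro q hq
            rw [mem_filter, mem_Ioc] at hq
            rw [bl_large n z a q hq.1.1 ha haz]
            have hq2 : (2 : ℝ) ≤ q := by exact_mod_cast hq.2.two_le
            have : 0 ≤ ((q : ℝ) / ((q : ℝ) - 1) - 1) / q := by
              apply div_nonneg _ (by linarith)
              rw [sub_nonneg, le_div_iff₀ (by linarith)]
              linarith
            linarith
          · intro q hq
            rw [mem_filter, mem_Ioc] at hq
            rw [bl_large n z a q hq.1.1 ha haz]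
            have hq2 : (2 : ℝ) ≤ q := by exact_mod_cast hq.2.two_le
            have e : ((q : ℝ) / ((q : ℝ) - 1) - 1) / q = 1 / ((q : ℝ) * ((q : ℝ) - 1)) := by
              have : (q : ℝ) - 1 ≠ 0 := by linarith
              field_simp
              ring
            rw [e]
            have h6 : 0 ≤ 1 / ((q : ℝ) * ((q : ℝ) - 1)) := div_nonneg zero_le_one (mul_nonneg (by linarith) (by linarith))
            have := Real.add_one_le_exp (4 * (1 / ((q : ℝ) * ((q : ℝ) - 1))))
            linarith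
      _ = Real.exp (4 * ∑ q ∈ (Ioc z D0).filter Nat.Prime, 1 / ((q : ℝ) * ((q : ℝ) - 1))) := by
          rw [mul_sum, Real.exp_sum]
      _ ≤ Real.exp (4 / z) := by
          apply Real.exp_le_exp.2
          have := tail_sum z D0 hz1
          calc _ ≤ 4 * (1 / (z : ℝ)) := mul_le_mul_of_nonneg_left this (by norm_num)
            _ = _ := by ring
  have r2up : R2 ≤ 1 + 8 / z := by
    refine le_trans ?_ hexp
    calc R2 ≤ ∏ q ∈ (Ioc z n).filter Nat.Prime, Real.exp (4 * (1 / ((q : ℝ) * ((q : ℝ) - 1)))) := by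
          apply prod_le_prod
          · intro q hq
            rw [mem_filter, mem_Ioc] at hq
            exact (kap_pos n a q hn hq.2).le
          · intro q hq
            rw [mem_filter, mem_Ioc] at hq
            have h5 := kap_upper n a q hn hq.2
            have := Real.add_one_le_exp (4 * (1 / ((q : ℝ) * ((q : ℝ) - 1))))
            linarith
      _ = Real.exp (4 * ∑ q ∈ (Ioc z n).filter Nat.Prime, 1 / ((q : ℝ) * ((q : ℝ) - 1))) := by
          rw [mul_sum, Real.exp_sum]
      _ ≤ Real.exp (4 / z) := by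
          apply Real.exp_le_exp.2
          have := tail_sum z n hz1
          calc _ ≤ 4 * (1 / (z : ℝ)) := mul_le_mul_of_nonneg_left this (by norm_num)
            _ = _ := by ring
  have r2lo : 1 - 6 * L / z ≤ R2 := by
    -- the primes dividing `n - a`
    set m := ((n : ℤ) - a).natAbs with hm
    have hm0 : 0 < m := by
      rw [hm]
      apply Int.natAbs_pos.2
      intro h
      have : (n : ℤ) = a := by linarith
      rw [← this] at han
      simp at han
    have hm2 : m ≤ 2 * n := by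
      rw [hm]
      have := Int.natAbs_sub_le (n : ℤ) a
      rw [Int.natAbs_natCast] at this
      omega
    have hcard : (m.primeFactors.card : ℝ) ≤ 6 * L := by
      have h5 : 2 ^ m.primeFactors.card ≤ 2 * n := by
        calc 2 ^ m.primeFactors.card = ∏ _q ∈ m.primeFactors, 2 := by rw [prod_const]
          _ ≤ ∏ q ∈ m.primeFactors, q := prod_le_prod' fun q hq => (Nat.prime_of_mem_primeFactors hq).two_le
          _ ≤ m := Nat.le_of_dvd hm0 (Nat.prod_primeFactors_dvd m)
          _ ≤ 2 * n := hm2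
      have h6 : ((2 : ℝ)) ^ m.primeFactors.card ≤ 2 * n := by exact_mod_cast h5
      have hn0 : (0 : ℝ) < n := by exact_mod_cast (by omega : 0 < n)
      have h7 := Real.log_le_log (by positivity) h6
      rw [Real.log_pow, Real.log_mul (by norm_num) hn0.ne'] at h7
      have h8 := Real.log_two_gt_d9
      have h9 := Real.log_two_lt_d9
      have h10 : (m.primeFactors.card : ℝ) * (1 / 2) ≤ m.primeFactors.card * Real.log 2 :=
        mul_le_mul_of_nonneg_left (by linarith) (Nat.cast_nonneg _)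
      linarith
    set T := ((Ioc z n).filter Nat.Prime).filter (fun q => q ∣ m) with hT
    have hTcard : T.card ≤ m.primeFactors.card := by
      apply card_le_card
      intro q hq
      rw [hT, mem_filter, mem_filter] at hq
      exact Nat.mem_primeFactors.2 ⟨hq.1.2, hq.2, hm0.ne'⟩
    have h5 : (1 - 1 / (z : ℝ)) ^ T.card ≤ R2 := by
      rw [hR2, ← prod_filter_mul_prod_filter_not ((Ioc z n).filter Nat.Prime) (fun q => q ∣ m)]
      have h6 : (1 - 1 / (z : ℝ)) ^ T.card ≤ ∏ q ∈ T, kap n a q := by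
        rw [← prod_const]
        apply prod_le_prod
        · intro q _
          rw [sub_nonneg, div_le_one hz0]; linarith
        · intro q hq
          rw [hT, mem_filter, mem_filter, mem_Ioc] at hq
          refine le_trans ?_ (kap_lower n a q hn hq.1.2)
          have : 1 / (q : ℝ) ≤ 1 / z := by
            apply one_div_le_one_div_of_le hz0
            exact_mod_cast hq.1.1.1.le
          linarith
      have h7 : 1 ≤ ∏ q ∈ ((Ioc z n).filter Nat.Prime).filter (fun q => ¬ q ∣ m), kap n a q := by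
        apply one_le_prod_real
        intro q hq
        rw [mem_filter, mem_filter, mem_Ioc] at hq
        have hq2 : (2 : ℝ) ≤ q := by exact_mod_cast hq.1.2.two_le
        unfold kap
        rw [if_neg]
        · split_ifs
          · have : 0 ≤ 1 / ((q : ℝ) * ((q : ℝ) - 1)) := div_nonneg zero_le_one (mul_nonneg (by linarith) (by linarith))
            linarith
          · have : 0 ≤ 2 / ((q : ℝ) * ((q : ℝ) - 2)) := div_nonneg (by norm_num) (mul_nonneg (by linarith) (by linarith))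
            linarith
        · rintro (h | h)
          · have h8 := Nat.le_of_dvd (Int.natAbs_pos.2 ha) (Int.natCast_dvd.1 h)
            omega
          · exact hq.2 (Int.natCast_dvd.1 h)
      have h8 : 0 ≤ ∏ q ∈ T, kap n a q := prod_nonneg fun q hq => by
        rw [hT, mem_filter, mem_filter] at hq
        exact (kap_pos n a q hn hq.1.2).le
      calc (1 - 1 / (z : ℝ)) ^ T.card ≤ (∏ q ∈ T, kap n a q) * 1 := by rw [mul_one]; exact h6
        _ ≤ _ := mul_le_mul_of_nonneg_left h7 h8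
    have h6 := one_add_mul_le_pow (show (-2 : ℝ) ≤ -(1 / z) by
      have : 1 / (z : ℝ) ≤ 1 := by rw [div_le_one hz0]; linarith
      linarith) T.card
    have h7 : (T.card : ℝ) ≤ 6 * L := le_trans (by exact_mod_cast hTcard) hcard
    have h8 : (T.card : ℝ) * (1 / z) ≤ 6 * L * (1 / z) := mul_le_mul_of_nonneg_right h7 (by positivity)
    have h9 : (1 + -(1 / (z : ℝ))) = 1 - 1 / z := by ring
    rw [h9] at h6
    calc 1 - 6 * L / z = 1 - 6 * L * (1 / z) := by ring
      _ ≤ 1 + (T.card : ℝ) * -(1 / z) := by linarith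
      _ ≤ _ := h6
      _ ≤ R2 := h5
  -- smallness
  have hsm : 8 / (z : ℝ) ≤ ε / 8 ∧ 6 * L / z ≤ ε / 8 ∧ 6 * L / z ≤ 1 / 2 := by
    refine ⟨?_, ?_, ?_⟩
    · rw [div_le_iff₀ hz0]
      nlinarith
    · rw [div_le_iff₀ hz0]
      nlinarith
    · rw [div_le_iff₀ hz0]
      nlinarith
  obtain ⟨m1, m2, m3⟩ := hsm
  have hR2half : 1 / 2 ≤ R2 := by linarith
  constructor
  · have e : A * R1 - A * R2 = A * (R1 - R2) := by ring
    rw [e, abs_mul, abs_of_pos hA0]
    have h5 : |R1 - R2| ≤ ε * R2 := by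
      rw [abs_le]
      constructor
      · nlinarith
      · nlinarith
    calc A * |R1 - R2| ≤ A * (ε * R2) := mul_le_mul_of_nonneg_left h5 hA0.le
      _ = ε * (A * R2) := by ring
  · have hV := (Vz_pos z).le
    calc Vz z / 2 = Vz z * (1 / 2) := by ring
      _ ≤ A * R2 := mul_le_mul hAV hR2half (by norm_num) hA0.le

/-- the error of the mean value -/
theorem mean_err (E : ℕ) : ∃ (C : ℝ) (N0 : ℕ), 0 ≤ C ∧ ∀ N : ℕ, N0 ≤ N → ∀ z : ℕ, 3 ≤ z → (z : ℝ) ≤ Real.log N ^ E →
    ∀ n : ℕ, Even n → ∀ a : ℤ, a ≠ 0 → a.natAbs ≤ z → ∀ D0 : ℕ, 1 ≤ D0 →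
      |∑ e ∈ Icc 1 D0, 1 / (e : ℝ) * ∏ q ∈ e.primeFactors, bl n z a q - Real.log D0 * ∏ q ∈ pz D0, (1 + (bl n z a q - 1) / q)| ≤
        C * Real.log (Real.log N) ^ 3 := by
  obtain ⟨C, hC1, hC⟩ := pz_bounds
  have hsummable : Summable (fun m : ℕ => (((m : ℝ) ^ (3 / 2 : ℝ))⁻¹)) := Real.summable_nat_rpow_inv.2 (by norm_num)
  set K : ℝ := ∑' m : ℕ, (((m : ℝ) ^ (3 / 2 : ℝ))⁻¹) with hK
  have hK0 : 0 ≤ K := tsum_nonneg fun m => by positivity
  obtain ⟨N1, h1⟩ := Pool.Agent.K4H18.EK.ev_lam 1 1 one_pos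
  refine ⟨Real.exp (C + 12) * (E + 1) * (1 + (E + 1) * ((E + 1) + C) + 12 * K), max N1 3, by positivity,
    fun N hN z hz3 hzE n hn a ha haz D0 hD0 => ?_⟩
  obtain ⟨-, l1, -⟩ := h1 N (by omega)
  obtain ⟨c1, c2, c3⟩ := hC z hz3
  have hN3 : (3 : ℝ) ≤ N := by exact_mod_cast (by omega : 3 ≤ N)
  set L := Real.log N with hL
  set lam := Real.log L with hlam
  have hL0 : 0 < L := Real.log_pos (show (1 : ℝ) < N by linarith)
  have hz0 : (0 : ℝ) < z := by exact_mod_cast (by omega : 0 < z)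
  have hlz : Real.log z ≤ (E + 1) * lam := by
    have h4 : Real.log z ≤ Real.log (L ^ E) := Real.log_le_log hz0 hzE
    rw [Real.log_pow, ← hlam] at h4
    linarith
  have hlz0 : 0 ≤ Real.log z := by linarith
  -- the mean value
  have key := mean_sum D0 hD0 (fun q => bl n z a q - 1)
  have e1 : ∑ e ∈ Icc 1 D0, 1 / (e : ℝ) * ∏ q ∈ e.primeFactors, (1 + (bl n z a q - 1)) =
      ∑ e ∈ Icc 1 D0, 1 / (e : ℝ) * ∏ q ∈ e.primeFactors, bl n z a q := by
    apply sum_congr rfl
    intro e _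
    congr 1
    apply prod_congr rfl
    intro q _
    ring
  rw [e1] at key
  refine key.trans ?_
  -- the bound for the coefficients
  have hc : ∀ q ∈ pz D0, |bl n z a q - 1| / q ≤ (if q ≤ z then 1 / (q : ℝ) else 0) + 6 / (q : ℝ) ^ 2 := by
    intro q hq
    have hqp := (mem_pz.1 hq).2
    have hq2 : (2 : ℝ) ≤ q := by exact_mod_cast hqp.two_le
    have hq0 : (0 : ℝ) < q := by linarith
    have h6 : 6 / (q : ℝ) ^ 2 = (6 / q) / q := by field_simp
    by_cases hbad : (q : ℤ) ∣ a ∨ (q ≤ z ∧ (q : ℤ) ∣ (n : ℤ) - a)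
    · have hqz : q ≤ z := by
        rcases hbad with h | h
        · have h1 := Nat.le_of_dvd (Int.natAbs_pos.2 ha) (Int.natCast_dvd.1 h)
          omega
        · exact h.1
      unfold bl
      rw [if_pos hbad, if_pos hqz, zero_sub, abs_neg, abs_one]
      have : 0 ≤ 6 / (q : ℝ) ^ 2 := by positivity
      linarith
    · have h5 : |bl n z a q - 1| ≤ 6 / q := by
        unfold bl
        rw [if_neg hbad]
        split_ifs with hqz
        · unfold gd
          by_cases hqn : q ∣ n
          · rw [if_pos hqn]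
            have e : (q : ℝ) / ((q : ℝ) - 1) * (1 - 0)⁻¹ - 1 = 1 / ((q : ℝ) - 1) := by
              have : (q : ℝ) - 1 ≠ 0 := by linarith
              rw [sub_zero, inv_one, mul_one]
              field_simp
              ring
            rw [e, abs_of_nonneg (div_nonneg zero_le_one (by linarith)), div_le_div_iff₀ (by linarith) hq0]
            linarith
          · rw [if_neg hqn]
            have h2 : q ≠ 2 := by
              intro h2
              rw [h2] at hqn
              exact hqn hn.two_dvd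
            have h3 : (3 : ℝ) ≤ q := by
              have := hqp.two_le
              exact_mod_cast (by omega : 3 ≤ q)
            have h4 : (q : ℝ) - 1 ≠ 0 := by linarith
            have h5 : (q : ℝ) - 2 ≠ 0 := by linarith
            have h6 : (1 - 1 / ((q : ℝ) - 1))⁻¹ = ((q : ℝ) - 1) / ((q : ℝ) - 2) := by
              rw [show 1 - 1 / ((q : ℝ) - 1) = ((q : ℝ) - 2) / ((q : ℝ) - 1) by field_simp; ring, inv_div]
            rw [h6]
            have e : (q : ℝ) / ((q : ℝ) - 1) * (((q : ℝ) - 1) / ((q : ℝ) - 2)) - 1 = 2 / ((q : ℝ) - 2) := by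
              field_simp
              ring
            rw [e, abs_of_nonneg (div_nonneg (by norm_num) (by linarith)), div_le_div_iff₀ (by linarith) hq0]
            linarith
        · have e : (q : ℝ) / ((q : ℝ) - 1) * 1 - 1 = 1 / ((q : ℝ) - 1) := by
            have : (q : ℝ) - 1 ≠ 0 := by linarith
            field_simp
            ring
          rw [e, abs_of_nonneg (div_nonneg zero_le_one (by linarith)), div_le_div_iff₀ (by linarith) hq0]
          linarith
      have h7 : |bl n z a q - 1| / q ≤ (6 / q) / q := div_le_div_of_nonneg_right h5 hq0.le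
      rw [← h6] at h7
      have h8 : (0 : ℝ) ≤ if q ≤ z then 1 / (q : ℝ) else 0 := by split_ifs <;> positivity
      linarith
  -- sums of `1 / q²`
  have hsq : ∑ q ∈ pz D0, 6 / (q : ℝ) ^ 2 ≤ 12 := by
    have h5 : ∑ q ∈ pz D0, 6 / (q : ℝ) ^ 2 ≤ ∑ q ∈ (Ioc 1 D0).filter Nat.Prime, 12 * (1 / ((q : ℝ) * ((q : ℝ) - 1))) := by
      have e : pz D0 = (Ioc 1 D0).filter Nat.Prime := by
        ext q
        rw [mem_pz, mem_filter, mem_Ioc]
        constructor
        · rintro ⟨h1, h2⟩; exact ⟨⟨h2.one_lt, h1⟩, h2⟩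
        · rintro ⟨⟨_, h1⟩, h2⟩; exact ⟨h1, h2⟩
      rw [e]
      apply sum_le_sum
      intro q hq
      rw [mem_filter, mem_Ioc] at hq
      have hq2 : (2 : ℝ) ≤ q := by exact_mod_cast hq.2.two_le
      rw [mul_one_div, div_le_div_iff₀ (by positivity) (by apply mul_pos <;> linarith)]
      nlinarith
    rw [← mul_sum] at h5
    have h6 := tail_sum 1 D0 le_rfl
    push_cast at h6
    linarith
  have hs1 : ∑ q ∈ pz D0, (if q ≤ z then 1 / (q : ℝ) else 0) ≤ Real.log (Real.log z) + C := by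
    refine le_trans ?_ c1
    rw [← sum_filter]
    apply sum_le_sum_of_subset_of_nonneg
    · intro q hq
      rw [mem_filter, mem_pz] at hq
      exact mem_pz.2 ⟨hq.2, hq.1.2⟩
    · intro q _ _
      positivity
  have f1 : ∏ q ∈ pz D0, (1 + |bl n z a q - 1| / q) ≤ Real.exp (C + 12) * Real.log z := by
    calc ∏ q ∈ pz D0, (1 + |bl n z a q - 1| / q) ≤ ∏ q ∈ pz D0, Real.exp ((if q ≤ z then 1 / (q : ℝ) else 0) + 6 / (q : ℝ) ^ 2) := by
          apply prod_le_prod
          · intro q _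
            positivity
          · intro q hq
            have := Real.add_one_le_exp ((if q ≤ z then 1 / (q : ℝ) else 0) + 6 / (q : ℝ) ^ 2)
            have := hc q hq
            linarith
      _ = Real.exp (∑ q ∈ pz D0, ((if q ≤ z then 1 / (q : ℝ) else 0) + 6 / (q : ℝ) ^ 2)) := by rw [Real.exp_sum]
      _ ≤ Real.exp (Real.log (Real.log z) + (C + 12)) := by
          apply Real.exp_le_exp.2
          rw [sum_add_distrib]
          linarith
      _ = Real.exp (C + 12) * Real.log z := by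
          rw [Real.exp_add, Real.exp_log (by linarith)]
          ring
  have f2 : ∑ q ∈ pz D0, |bl n z a q - 1| / q * Real.log q ≤ Real.log z * (Real.log (Real.log z) + C) + 12 * K := by
    have g1 : ∀ q ∈ pz D0, |bl n z a q - 1| / q * Real.log q ≤
        (if q ≤ z then 1 / (q : ℝ) else 0) * Real.log z + 12 * ((q : ℝ) ^ (3 / 2 : ℝ))⁻¹ := by
      intro q hq
      have hqp := (mem_pz.1 hq).2
      have hq2 : (2 : ℝ) ≤ q := by exact_mod_cast hqp.two_le
      have hq0 : (0 : ℝ) < q := by linarith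
      have hlq : 0 ≤ Real.log q := Real.log_nonneg (by linarith)
      have h5 := mul_le_mul_of_nonneg_right (hc q hq) hlq
      refine h5.trans ?_
      rw [add_mul]
      apply add_le_add
      · split_ifs with hqz
        · apply mul_le_mul_of_nonneg_left _ (by positivity)
          exact Real.log_le_log hq0 (by exact_mod_cast hqz)
        · rw [zero_mul, zero_mul]
      · have h6 : Real.log q ≤ 2 * √(q : ℝ) := by
          have h7 := Real.log_le_sub_one_of_pos (Real.sqrt_pos.2 hq0)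
          rw [Real.log_sqrt hq0.le] at h7
          linarith
        calc 6 / (q : ℝ) ^ 2 * Real.log q ≤ 6 / (q : ℝ) ^ 2 * (2 * √(q : ℝ)) := mul_le_mul_of_nonneg_left h6 (by positivity)
          _ = 12 * ((q : ℝ) ^ (3 / 2 : ℝ))⁻¹ := by
              have h8 : (q : ℝ) ^ 2 = (q : ℝ) ^ (3 / 2 : ℝ) * √(q : ℝ) := by
                rw [Real.sqrt_eq_rpow, ← Real.rpow_add hq0, ← Real.rpow_natCast]
                norm_num
              rw [h8]
              have : √(q : ℝ) ≠ 0 := (Real.sqrt_pos.2 hq0).ne'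
              field_simp
              norm_num
    refine (sum_le_sum g1).trans ?_
    rw [sum_add_distrib, ← sum_mul, ← mul_sum]
    apply add_le_add
    · rw [mul_comm]
      exact mul_le_mul_of_nonneg_left hs1 hlz0
    · apply mul_le_mul_of_nonneg_left _ (by norm_num)
      exact hsummable.sum_le_tsum _ (fun m _ => by positivity)
  have hllz : Real.log (Real.log z) ≤ (E + 1) * lam := by
    have := Real.log_le_sub_one_of_pos (show 0 < Real.log z by linarith)
    linarith
  have hlam2 : lam ≤ lam ^ 2 := by nlinarith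
  have hE0 : (0 : ℝ) ≤ E := Nat.cast_nonneg _
  have hexp := Real.exp_pos (C + 12)
  have hpos1 : 0 ≤ 1 + ∑ q ∈ pz D0, |bl n z a q - 1| / q * Real.log q := by
    have : 0 ≤ ∑ q ∈ pz D0, |bl n z a q - 1| / q * Real.log q := sum_nonneg fun q hq => by
      have hqp := (mem_pz.1 hq).2
      have : (1 : ℝ) ≤ q := by exact_mod_cast hqp.one_le
      have := Real.log_nonneg this
      positivity
    linarith
  have f3 : 1 + ∑ q ∈ pz D0, |bl n z a q - 1| / q * Real.log q ≤ (1 + (E + 1) * ((E + 1) + C) + 12 * K) * lam ^ 2 := by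
    have g1 : Real.log z * (Real.log (Real.log z) + C) ≤ ((E + 1) * lam) * (((E + 1) + C) * lam) := by
      rcases le_total 0 (Real.log (Real.log z) + C) with h | h
      · apply mul_le_mul hlz _ h (by positivity)
        nlinarith
      · have : Real.log z * (Real.log (Real.log z) + C) ≤ 0 := mul_nonpos_of_nonneg_of_nonpos hlz0 h
        have : 0 ≤ ((E + 1) * lam) * (((E + 1) + C) * lam) := by positivity
        linarith
    have g2 : (1 : ℝ) ≤ lam ^ 2 := one_le_pow₀ l1
    have g3 : 12 * K ≤ 12 * K * lam ^ 2 := le_mul_of_one_le_right (by positivity) g2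
    have g4 : ((E + 1) * lam) * (((E + 1) + C) * lam) = ((E + 1) * ((E + 1) + C)) * lam ^ 2 := by ring
    rw [g4] at g1
    linarith
  calc _ ≤ (Real.exp (C + 12) * Real.log z) * ((1 + (E + 1) * ((E + 1) + C) + 12 * K) * lam ^ 2) := by
        apply mul_le_mul f1 f3 hpos1 (by positivity)
    _ ≤ (Real.exp (C + 12) * ((E + 1) * lam)) * ((1 + (E + 1) * ((E + 1) + C) + 12 * K) * lam ^ 2) := by
        apply mul_le_mul_of_nonneg_right _ (by positivity)
        exact mul_le_mul_of_nonneg_left hlz hexp.le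
    _ = _ := by ring

end Pool.Agent.K4H18.TD
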