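import Pool.Agent.K4H18.TD.B6
import Pool.Agent.K4H18.EK.A15

set_option autoImplicit false

/-! The divisor function over the model. -/

namespace Pool.Agent.K4H18.TD

open Finset
open Pool.Agent.H373R2.T7 (pz mem_pz Vz Vz_pos Vz_inv_small ev_L' es es_nonneg)
open Pool.Agent.H560R3.GB (energy g HL sing)
open Pool.Agent.K4H18.EK (gd gd_nonneg gd_le gd_le' Maj Ps Wn cn pi1_nonneg Xn Xn_nonneg Xn_near HL_lower Wn_nonneg Wn_le_one pi1_eq basic)

/-- powers of `log log N` against `log N` -/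
lemma ev_lam_pow (k : ℕ) (C : ℝ) : ∃ N0 : ℕ, ∀ N : ℕ, N0 ≤ N → C * Real.log (Real.log N) ^ k ≤ Real.log N := by
  have hlim : Filter.Tendsto (fun N : ℕ => Real.log (N : ℝ)) Filter.atTop Filter.atTop :=
    Real.tendsto_log_atTop.comp (tendsto_natCast_atTop_atTop (R := ℝ))
  have h3 := (Real.isLittleO_pow_log_id_atTop (n := k)).bound (show (0 : ℝ) < 1 / (|C| + 1) by positivity)
  have h4 := hlim.eventually h3
  obtain ⟨N0, h⟩ := Filter.eventually_atTop.1 (h4.and ((hlim.eventually_ge_atTop 1).and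
    ((Real.tendsto_log_atTop.comp hlim).eventually_ge_atTop 0)))
  refine ⟨N0, fun N hN => ?_⟩
  obtain ⟨h5, h6, h7⟩ := h N hN
  simp only [Function.comp, id] at h5 h7
  rw [Real.norm_of_nonneg (by positivity), Real.norm_of_nonneg (by linarith), one_div, inv_mul_eq_div,
    le_div_iff₀ (by positivity)] at h5
  have h8 : 0 ≤ Real.log (Real.log N) ^ k := by positivity
  have h9 := le_abs_self C
  nlinarith

lemma card_Ps_le (n z : ℕ) : ((Ps n z).card : ℝ) ≤ H343E.pi1 n := by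
  rw [pi1_eq, Nat.primeCounting, Nat.primeCounting', Nat.count_eq_card_filter_range]
  apply Nat.cast_le.2
  apply card_le_card
  intro p hp
  unfold Ps at hp
  rw [mem_filter, mem_Icc] at hp
  rw [mem_filter, mem_range]
  exact ⟨by omega, hp.2.1⟩

/-- the second error term -/
lemma es_sum (C6 L lam n π' e0 : ℝ) (D0 : ℕ) (hD0 : 1 ≤ D0) (hC6 : 0 < C6) (hL1 : 1 ≤ L) (hL : Real.log D0 ≤ 1 / 2 * (2 * L)) (l1 : 1 ≤ lam)
    (hn0 : 0 < n) (hpi0 : 0 ≤ π') (hpin : π' ≤ 4 * (n / L)) (he0 : 0 ≤ e0) (he1 : e0 ≤ 1 / L ^ 2)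
    (htot : ∀ e ∈ Icc 1 D0, (e : ℝ) / (Nat.totient e : ℝ) ≤ C6 * lam ^ 2) :
    ∑ e ∈ Icc 1 D0, 2 * (π' / (Nat.totient e : ℝ)) * e0 ≤ 16 * C6 * lam ^ 4 * (n / L) := by
  have hL0 : 0 < L := by linarith
  have hnL0 : 0 ≤ n / L := by positivity
  have hone : ∀ e ∈ Icc 1 D0, 2 * (π' / (Nat.totient e : ℝ)) * e0 ≤
      (8 * (n / L) * (C6 * lam ^ 2) * (1 / L ^ 2)) * (1 / (e : ℝ)) := by
    intro e he
    have hte := htot e he
    rw [mem_Icc] at he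
    have he0' : (0 : ℝ) < e := by exact_mod_cast he.1
    have e1 : 2 * (π' / (Nat.totient e : ℝ)) * e0 =
        (2 * π') * ((e : ℝ) / (Nat.totient e : ℝ)) * e0 * (1 / (e : ℝ)) := by
      field_simp
    rw [e1]
    apply mul_le_mul_of_nonneg_right _ (by positivity)
    apply mul_le_mul _ he1 he0 (by positivity)
    apply mul_le_mul _ hte (by positivity) (by positivity)
    linarith
  refine (sum_le_sum hone).trans ?_
  rw [← mul_sum]
  have h14 := (inv_sum_Icc D0 hD0).1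
  have h15 : ∑ e ∈ Icc 1 D0, 1 / (e : ℝ) ≤ 2 * L := by linarith
  calc (8 * (n / L) * (C6 * lam ^ 2) * (1 / L ^ 2)) * ∑ e ∈ Icc 1 D0, 1 / (e : ℝ) ≤
        (8 * (n / L) * (C6 * lam ^ 2) * (1 / L ^ 2)) * (2 * L) := mul_le_mul_of_nonneg_left h15 (by positivity)
    _ = (16 * C6 * lam ^ 2 * (n / L)) * (1 / L) := by field_simp; ring
    _ ≤ (16 * C6 * lam ^ 2 * (n / L)) * 1 := by
        apply mul_le_mul_of_nonneg_left _ (by positivity)
        rw [div_le_one hL0]; exact hL1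
    _ ≤ (16 * C6 * lam ^ 4 * (n / L)) := by
        rw [mul_one]
        apply mul_le_mul_of_nonneg_right _ hnL0
        apply mul_le_mul_of_nonneg_left _ (by positivity)
        exact pow_le_pow_right₀ l1 (by norm_num)

/-- sizes -/
lemma sizes2 (E W B A : ℕ) : ∃ N0 : ℕ, ∀ N : ℕ, N0 ≤ N → ∀ n : ℕ, (N : ℝ) / Real.log N ^ W ≤ n → n ≤ B * N →
    (4 : ℝ) * Real.log N ^ (W + 2 * A + E + 6) ≤ √(n : ℝ) ∧ Real.log N / 2 ≤ Real.log n ∧ Real.log n ≤ 2 * Real.log N ∧ 20 ≤ Real.log N ∧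
    3 ≤ n ∧ n ≤ N ^ 2 ∧ H343E.pi1 n ≤ 4 * (n / Real.log N) ∧ 1 ≤ √(n : ℝ) ∧ √(n : ℝ) ≤ n := by
  obtain ⟨N8, h8⟩ := Pool.Agent.K4H18.EK.sizes W B
  obtain ⟨N10, h10⟩ := ev_L' (B + 20)
  obtain ⟨N11, h11⟩ := Pool.Agent.K4H18.EK.ev_pow (W + 2 * A + E + 6) 4 (1 / 4) (by norm_num)
  obtain ⟨N13, -, h13⟩ := Pool.Agent.H357R2.SI.pnt 1 one_pos
  refine ⟨max (max N8 N10) (max N11 (max (N13 ^ 2) 9)), fun N hN n hnN hnB => ?_⟩
  have hN9 : (9 : ℝ) ≤ N := by exact_mod_cast (by omega : 9 ≤ N)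
  have hN0 : (0 : ℝ) < N := by linarith
  have hN1 : (1 : ℝ) ≤ N := by linarith
  obtain ⟨s1, s2, s3⟩ := h8 N (by omega) n hnN hnB
  have b10 := h10 N (by omega)
  have b11 := h11 N (by omega)
  have hB0 : (0 : ℝ) ≤ B := Nat.cast_nonneg _
  have hn0 : (0 : ℝ) < n := lt_of_lt_of_le (by positivity) s1
  have hsqN : √(N : ℝ) ≤ n := by
    refine le_trans ?_ s1
    rw [Real.sqrt_eq_rpow]
    exact Real.rpow_le_rpow_of_exponent_le hN1 (by norm_num)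
  have hL20 : 20 ≤ Real.log N := by linarith
  refine ⟨?_, s2, s3, hL20, ?_, ?_, ?_, ?_, ?_⟩
  · refine b11.trans ?_
    rw [Real.sqrt_eq_rpow]
    calc (N : ℝ) ^ (1 / 4 : ℝ) ≤ (N : ℝ) ^ (7 / 16 : ℝ) := Real.rpow_le_rpow_of_exponent_le hN1 (by norm_num)
      _ = ((N : ℝ) ^ (7 / 8 : ℝ)) ^ (1 / 2 : ℝ) := by rw [← Real.rpow_mul hN0.le]; norm_num
      _ ≤ (n : ℝ) ^ (1 / 2 : ℝ) := Real.rpow_le_rpow (by positivity) s1 (by norm_num)
  · have h9 : (3 : ℝ) ≤ √(N : ℝ) := by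
      apply Real.le_sqrt_of_sq_le
      linarith
    have h10 : (3 : ℝ) ≤ n := by linarith
    exact_mod_cast h10
  · have h15 : (n : ℝ) ≤ B * N := by exact_mod_cast hnB
    have h16 : Real.log N ≤ N := (Real.log_le_sub_one_of_pos hN0).trans (by linarith)
    have h17 : (n : ℝ) ≤ (N : ℝ) ^ 2 := by
      rw [sq]
      exact h15.trans (mul_le_mul_of_nonneg_right (by linarith) hN0.le)
    exact_mod_cast h17
  · have hN13 : N13 ≤ n := by
      have h15 : (N13 : ℝ) ≤ √(N : ℝ) := by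
        apply Real.le_sqrt_of_sq_le
        exact_mod_cast (by omega : N13 ^ 2 ≤ N)
      exact_mod_cast h15.trans hsqN
    have h14 := (h13 n hN13).2
    rw [← pi1_eq] at h14
    refine h14.trans ?_
    rw [mul_div_assoc', div_le_div_iff₀ (by linarith) (by linarith)]
    nlinarith
  · rw [Real.one_le_sqrt]
    have : (1 : ℝ) ≤ √(N : ℝ) := by rw [Real.one_le_sqrt]; exact hN1
    linarith
  · have h1 : 1 ≤ √(n : ℝ) := by
      rw [Real.one_le_sqrt]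
      have : (1 : ℝ) ≤ √(N : ℝ) := by rw [Real.one_le_sqrt]; exact hN1
      linarith
    have h2 : √(n : ℝ) * √(n : ℝ) = n := Real.mul_self_sqrt hn0.le
    nlinarith

/-- the divisor function over the sieved primes -/
theorem tau_sum (E W B A : ℕ) : ∃ (C : ℝ) (N0 : ℕ), 0 ≤ C ∧ ∀ N : ℕ, N0 ≤ N → ∀ z : ℕ, 3 ≤ z → (z : ℝ) ≤ Real.log N ^ E →
    ∀ n : ℕ, Even n → (N : ℝ) / Real.log N ^ W ≤ n → n ≤ B * N → ∃ D0 : ℕ, 1 ≤ D0 ∧
      1 / 2 * Real.log n - C * Real.log (Real.log N) ^ 2 ≤ Real.log D0 ∧ Real.log D0 ≤ 1 / 2 * Real.log n ∧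
      ∀ a : ℤ, a ≠ 0 → (a.natAbs : ℝ) ≤ Real.log N ^ A →
        |∑ b ∈ Ps n z, (tau a b : ℝ) - 2 * (H343E.pi1 n * Wn n z * ∑ e ∈ Icc 1 D0, 1 / (e : ℝ) * ∏ q ∈ e.primeFactors, bl n z a q)| ≤
          C * Real.log (Real.log N) ^ 4 * (n / Real.log N) := by
  obtain ⟨C1, N1, hC1, h1⟩ := params2 E W B (W + A + 6)
  set U1 : ℕ := ⌈C1⌉₊ with hU1
  obtain ⟨C2, N2, hC2, h2⟩ := middle W B A U1
  obtain ⟨C6, hC6, N6, h6⟩ := tot_bound
  obtain ⟨N8, h8⟩ := sizes2 E W B A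
  obtain ⟨N9, h9⟩ := Pool.Agent.K4H18.EK.ev_lam 1 1 one_pos
  refine ⟨C1 + 2 * C2 + 32 * C6 + 100, max (max N1 N2) (max (max N6 N8) (max N9 3)), by positivity,
    fun N hN z hz3 hzE n hn hnN hnB => ?_⟩
  have hN3 : (3 : ℝ) ≤ N := by exact_mod_cast (by omega : 3 ≤ N)
  have hN0 : (0 : ℝ) < N := by linarith
  obtain ⟨s1, s2, s3, s4, s5, s6, s7, s8, s9⟩ := h8 N (by omega) n hnN hnB
  obtain ⟨-, l1, -⟩ := h9 N (by omega)
  obtain ⟨r, D0, M, hD0, hMaj, hDD, hMs, hes, hlD1, hlD2⟩ := h1 N (by omega) z (by omega) hzE n hnN hnB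
  have h6' := h6 N (by omega)
  have h2' := h2 N (by omega) n hnN hnB
  clear h1 h2 h6 h8 h9
  set L := Real.log N with hL
  set lam := Real.log L with hlam
  have hL0 : 0 < L := by linarith
  have hL1 : 1 ≤ L := by linarith
  have hn0 : (0 : ℝ) < n := by exact_mod_cast (by omega : 0 < n)
  have hD00 : (0 : ℝ) < D0 := by exact_mod_cast hD0
  have hD01 : (1 : ℝ) ≤ D0 := by exact_mod_cast hD0
  have hU1C : C1 ≤ U1 := Nat.le_ceil _
  have hlam2 : 0 ≤ lam ^ 2 := by positivity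
  have hlam4 : 1 ≤ lam ^ 4 := one_le_pow₀ l1
  have hnL0 : 0 ≤ (n : ℝ) / L := by positivity
  have hsqn : √(n : ℝ) * √(n : ℝ) = n := Real.mul_self_sqrt hn0.le
  have hle1 : ∀ k : ℕ, 1 ≤ k → (n : ℝ) / L ^ k ≤ n / L := by
    intro k hk
    apply div_le_div_of_nonneg_left hn0.le hL0
    exact le_self_pow₀ hL1 (by omega)
  have g0 : ((D0 : ℝ) * (z + 1) ^ r) ^ 2 ≤ n / L := hDD.trans (hle1 _ (by omega))
  have hz1r : (1 : ℝ) ≤ ((z : ℝ) + 1) ^ r := one_le_pow₀ (by have : (0 : ℝ) ≤ z := Nat.cast_nonneg _; linarith)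
  have g1 : (D0 : ℝ) ≤ D0 * (z + 1) ^ r := le_mul_of_one_le_right hD00.le hz1r
  have g2 : (D0 : ℝ) ^ 2 ≤ n / L := (pow_le_pow_left₀ hD00.le g1 2).trans g0
  have g3 : (D0 : ℝ) ≤ n / L := le_trans (le_self_pow₀ hD01 (by norm_num)) g2
  have g4 : (D0 : ℝ) * (z + 1) ^ r ≤ n / L := le_trans (le_self_pow₀ (hD01.trans g1) (by norm_num)) g0
  have hD0n : (D0 : ℝ) ≤ √(n : ℝ) := by
    apply Real.le_sqrt_of_sq_le
    refine g2.trans (div_le_self hn0.le hL1)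
  have g6 : ∑ q ∈ Icc 1 (D0 * (z + 1) ^ r), (2 : ℝ) ^ q.primeFactors.card * M q ≤ n / L := by
    refine hMs.trans ?_
    have e : (N : ℝ) / L ^ (W + A + 6) = N / L ^ W / L ^ (A + 6) := by
      rw [div_div, ← pow_add, show W + (A + 6) = W + A + 6 by ring]
    rw [e]
    calc (N : ℝ) / L ^ W / L ^ (A + 6) ≤ n / L ^ (A + 6) := div_le_div_of_nonneg_right hnN (by positivity)
      _ ≤ n / L := hle1 _ (by omega)
  have g7 : ∑ e ∈ Icc 1 D0, 2 * (H343E.pi1 n / (Nat.totient e : ℝ)) * (es (gd n) (pz z) r) ≤ 16 * C6 * lam ^ 4 * (n / L) := by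
    apply es_sum C6 L lam n (H343E.pi1 n) (es (gd n) (pz z) r) D0 hD0 hC6 hL1 (by linarith) l1 hn0 (pi1_nonneg n) s7
      (es_nonneg (fun p hp => gd_nonneg (mem_pz.1 hp).2) r)
    · refine (hes (pz z) (Subset.refl _)).trans ?_
      apply one_div_le_one_div_of_le (by positivity)
      exact pow_le_pow_right₀ hL1 (by omega)
    · intro e he
      rw [mem_Icc] at he
      apply h6' e he.1
      have h14 : (e : ℝ) ≤ n := (show (e : ℝ) ≤ D0 by exact_mod_cast he.2).trans (hD0n.trans s9)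
      have h15 : e ≤ n := by exact_mod_cast h14
      exact h15.trans s6
  have hlD1' : 1 / 2 * Real.log n - U1 * lam ^ 2 ≤ Real.log D0 := by
    have : C1 * lam ^ 2 ≤ U1 * lam ^ 2 := mul_le_mul_of_nonneg_right hU1C (by positivity)
    linarith
  refine ⟨D0, hD0, ?_, hlD2, fun a ha haA => ?_⟩
  · have : C1 * lam ^ 2 ≤ (C1 + 2 * C2 + 32 * C6 + 100) * lam ^ 2 := by
      apply mul_le_mul_of_nonneg_right _ hlam2
      linarith
    linarith
  have g5 : (D0 : ℝ) * a.natAbs ≤ n / L := by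
    have hasq : (a.natAbs : ℝ) ≤ √(n : ℝ) / L := by
      rw [le_div_iff₀ hL0]
      refine le_trans ?_ s1
      calc (a.natAbs : ℝ) * L ≤ L ^ A * L := mul_le_mul_of_nonneg_right haA hL0.le
        _ = L ^ (A + 1) := by rw [pow_succ]
        _ ≤ L ^ (W + 2 * A + E + 6) := pow_le_pow_right₀ hL1 (by omega)
        _ ≤ 4 * L ^ (W + 2 * A + E + 6) := by
            have : 0 ≤ L ^ (W + 2 * A + E + 6) := by positivity
            linarith
    calc (D0 : ℝ) * a.natAbs ≤ √(n : ℝ) * (√(n : ℝ) / L) :=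
          mul_le_mul hD0n hasq (Nat.cast_nonneg _) (Real.sqrt_nonneg _)
      _ = n / L := by rw [mul_div_assoc', hsqn]
  have k4 := mod_sum n z r D0 a ha hn M hMaj
  have k5 := div_sum n z D0 a
  have k6 := h2' a haA D0 hD0 hlD1'
  have k7 := card_Ps_le n z
  clear h2' h6' hes hMs hMaj
  set T := ∑ b ∈ Ps n z, (tau a b : ℝ) with hT
  set A1 := ∑ e ∈ Icc 1 D0, (((Ps n z).filter (fun b : ℕ => (e : ℤ) ∣ (b : ℤ) - a)).card : ℝ) with hA1
  set X := H343E.pi1 n * Wn n z * ∑ e ∈ Icc 1 D0, 1 / (e : ℝ) * ∏ q ∈ e.primeFactors, bl n z a q with hX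
  set Y := lam ^ 4 * (n / L) with hY
  have hYn : n / L ≤ Y := by
    rw [hY]
    exact le_mul_of_one_le_left hnL0 hlam4
  have t1 : |A1 - X| ≤ 16 * C6 * Y + 3 * (n / L) := by
    have e : 16 * C6 * lam ^ 4 * (n / L) = 16 * C6 * Y := by rw [hY]; ring
    rw [e] at g7
    linarith
  have t2 : |T - 2 * A1| ≤ 12 * (n / L) + 2 * (C2 * Y) := by
    have e : C2 * lam ^ 4 * (n / L) = C2 * Y := by rw [hY]; ring
    rw [e] at k6
    linarith
  have h14 : T - 2 * X = (T - 2 * A1) + 2 * (A1 - X) := by ring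
  rw [h14]
  refine (abs_add_le _ _).trans ?_
  rw [abs_mul, abs_of_pos (show (0 : ℝ) < 2 by norm_num)]
  have e : (C1 + 2 * C2 + 32 * C6 + 100) * lam ^ 4 * (n / L) = (C1 + 2 * C2 + 32 * C6 + 100) * Y := by rw [hY]; ring
  rw [e]
  have hY0 : 0 ≤ Y := hnL0.trans hYn
  have hCY : 0 ≤ C1 * Y := mul_nonneg hC1 hY0
  nlinarith

end Pool.Agent.K4H18.TD
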