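import Pool.Agent.K4H18.TD.B7

set_option autoImplicit false

/-! The divisor function over the model: the asymptotic formula. -/

namespace Pool.Agent.K4H18.TD

open Finset
open Pool.Agent.H373R2.T7 (pz mem_pz Vz Vz_pos Vz_inv_small ev_L' es es_nonneg)
open Pool.Agent.H560R3.GB (energy g HL sing)
open Pool.Agent.K4H18.EK (gd gd_nonneg gd_le gd_le' Maj Ps Wn cn pi1_nonneg Xn Xn_nonneg Xn_near HL_lower Wn_nonneg Wn_le_one pi1_eq basic)

/-- real arithmetic: the sum `S` -/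
lemma S_near (S lD P1 cc ln ε e1 e2 : ℝ) (hcc : 0 < cc) (hln : 0 < ln) (hlD0 : 0 ≤ lD) (hlD : lD ≤ 1 / 2 * ln)
    (h1 : |S - lD * P1| ≤ e1) (h2 : |P1 - cc| ≤ ε * cc) (h3 : 1 / 2 * ln - e2 ≤ lD) (he2 : 0 ≤ e2)
    (u1 : 2 * e1 ≤ ε * (ln * cc)) (u2 : 2 * e2 ≤ ε * ln) : |2 * S - ln * cc| ≤ 3 * ε * (ln * cc) := by
  have h14 : 2 * S - ln * cc = 2 * (S - lD * P1) + (2 * lD) * (P1 - cc) + (2 * lD - ln) * cc := by ring
  rw [h14]
  refine (abs_add_le _ _).trans ?_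
  have h15 : |2 * (S - lD * P1) + (2 * lD) * (P1 - cc)| ≤ 2 * e1 + ln * (ε * cc) := by
    refine (abs_add_le _ _).trans ?_
    rw [abs_mul, abs_mul, abs_of_pos (show (0 : ℝ) < 2 by norm_num), abs_of_nonneg (show 0 ≤ 2 * lD by linarith)]
    apply add_le_add
    · linarith
    · apply mul_le_mul _ h2 (abs_nonneg _) hln.le
      linarith
  have h16 : |(2 * lD - ln) * cc| ≤ (2 * e2) * cc := by
    rw [abs_mul, abs_of_pos hcc]
    apply mul_le_mul_of_nonneg_right _ hcc.le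
    rw [abs_le]
    constructor <;> linarith
  have h17 : (2 * e2) * cc ≤ (ε * ln) * cc := mul_le_mul_of_nonneg_right u2 hcc.le
  have h18 : 3 * ε * (ln * cc) = ε * (ln * cc) + ln * (ε * cc) + (ε * ln) * cc := by ring
  rw [h18]
  linarith

/-- real arithmetic: the total -/
lemma T_near (T S X V pw ln cc ε E1 M : ℝ) (hV : 0 < V) (hX : X = V * pw) (hX0 : 0 ≤ X)
    (h1 : |T - 2 * (pw * S)| ≤ E1) (h2 : |2 * S - ln * cc| ≤ 3 * ε * (ln * cc)) (h3 : V * E1 ≤ ε * M) (h4 : M ≤ X * ln * cc) (hε : 0 < ε) :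
    |V * T - X * ln * cc| ≤ 4 * ε * (X * ln * cc) := by
  have h14 : V * T - X * ln * cc = V * (T - 2 * (pw * S)) + X * (2 * S - ln * cc) := by rw [hX]; ring
  rw [h14]
  refine (abs_add_le _ _).trans ?_
  rw [abs_mul, abs_mul, abs_of_nonneg hX0, abs_of_pos hV]
  have h15 : X * |2 * S - ln * cc| ≤ 3 * ε * (X * ln * cc) := by
    calc X * |2 * S - ln * cc| ≤ X * (3 * ε * (ln * cc)) := mul_le_mul_of_nonneg_left h2 hX0
      _ = _ := by ring
  have h16 : V * |T - 2 * (pw * S)| ≤ V * E1 := mul_le_mul_of_nonneg_left h1 hV.le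
  have h17 : ε * M ≤ ε * (X * ln * cc) := mul_le_mul_of_nonneg_left h4 hε.le
  linarith

theorem model (ε : ℝ) (hε : 0 < ε) (E W B A : ℕ) : ∃ N0 : ℕ, ∀ N : ℕ, N0 ≤ N → ∀ z : ℕ, Real.log N ^ 3 ≤ z →
    Real.log N ^ A ≤ z → (z : ℝ) ≤ Real.log N ^ E → ∀ n : ℕ, Even n → (N : ℝ) / Real.log N ^ W ≤ n → n ≤ B * N →
    ∀ a : ℤ, a ≠ 0 → (a.natAbs : ℝ) ≤ Real.log N ^ A →
      |(Vz z)⁻¹ * ∑ b ∈ Ps n z, (tau a b : ℝ) - Xn n z * Real.log n * cT a n| ≤ 4 * ε * (Xn n z * Real.log n * cT a n) ∧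
      (n : ℝ) / Real.log (Real.log N) ^ 3 ≤ Xn n z * Real.log n * cT a n ∧ 0 < cT a n := by
  obtain ⟨C1, N1, hC1, h1⟩ := tau_sum E W B A
  obtain ⟨N3, h3⟩ := const_near ε hε W B
  obtain ⟨C4, N4, hC4, h4⟩ := mean_err E
  obtain ⟨C5, hC5, h5⟩ := pz_bounds
  obtain ⟨N7, h7⟩ := basic W B 4 (1 / 2) (by norm_num) le_rfl
  obtain ⟨N8, h8⟩ := sizes2 E W B A
  set C7 : ℝ := C5 * (E + 1) ^ 2 with hC7
  have hC71 : 1 ≤ C7 := by
    rw [hC7]
    have : (1 : ℝ) ≤ (E + 1) ^ 2 := one_le_pow₀ (by have : (0 : ℝ) ≤ E := Nat.cast_nonneg _; linarith)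
    nlinarith
  obtain ⟨N9, h9⟩ := Pool.Agent.K4H18.EK.ev_lam (4 * C7) 1 one_pos
  obtain ⟨N12, h12⟩ := ev_lam_pow 9 (C7 * C1 / ε + 8 * C4 * C7 / ε + 8 * C1 / ε + 8 * C1 + 8 * (E + 1))
  refine ⟨max (max (max N1 N3) (max N4 N7)) (max (max N8 N9) (max N12 3)),
    fun N hN z hz3 hzA hzE n hn hnN hnB a ha haA => ?_⟩
  have hN3 : (3 : ℝ) ≤ N := by exact_mod_cast (by omega : 3 ≤ N)
  have hN0 : (0 : ℝ) < N := by linarith
  obtain ⟨s1, s2, s3, s4, s5, s6, s7, s8, s9⟩ := h8 N (by omega) n hnN hnB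
  obtain ⟨l0, l1, -⟩ := h9 N (by omega)
  have b12 := h12 N (by omega)
  obtain ⟨d1, d2, d3, d4, d5, d6, d7, -, -, -⟩ := h7 N (by omega) z hz3 n hn hnN hnB
  have h3' := h3 N (by omega) z hz3 n hn hnN hnB
  have h4' := h4 N (by omega) z
  have h1' := h1 N (by omega) z
  clear h1 h3 h4 h7 h8 h9 h12
  set L := Real.log N with hL
  set lam := Real.log L with hlam
  have hE0 : (0 : ℝ) ≤ E := Nat.cast_nonneg _
  have hL0 : 0 < L := by linarith
  have hL1 : 1 ≤ L := by linarith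
  have hlam0 : 0 < lam := by linarith
  have hn0 : (0 : ℝ) < n := by exact_mod_cast (by omega : 0 < n)
  have hlogn0 : 0 < Real.log n := by linarith
  have hz0 : (0 : ℝ) < z := lt_of_lt_of_le (by positivity) hz3
  have hz3' : 3 ≤ z := by
    have : (3 : ℝ) ≤ z := by
      refine le_trans ?_ hz3
      calc (3 : ℝ) ≤ L := by linarith
        _ ≤ L ^ 3 := le_self_pow₀ hL1 (by norm_num)
    exact_mod_cast this
  have hLpow : 0 ≤ L ^ (W + 2 * A + E + 6) := by positivity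
  have hzsq : (z : ℝ) ≤ √(n : ℝ) := by
    refine hzE.trans (le_trans ?_ s1)
    have : L ^ E ≤ L ^ (W + 2 * A + E + 6) := pow_le_pow_right₀ hL1 (by omega)
    linarith
  have haz : a.natAbs ≤ z := by exact_mod_cast haA.trans hzA
  have hzn : z ≤ n := by exact_mod_cast hzsq.trans s9
  have han : a.natAbs < n := by
    have h14 : (a.natAbs : ℝ) < √(n : ℝ) := by
      refine lt_of_le_of_lt haA (lt_of_lt_of_le ?_ s1)
      have h15 : L ^ A ≤ L ^ (W + 2 * A + E + 6) := pow_le_pow_right₀ hL1 (by omega)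
      have h16 : 0 < L ^ A := by positivity
      linarith
    exact_mod_cast h14.trans_le s9
  obtain ⟨D0, hD0, hlD1, hlD2, h1''⟩ := h1' hz3' hzE n hn hnN hnB
  have k9 := h1'' a ha haA
  clear h1' h1''
  have hD00 : (0 : ℝ) < D0 := by exact_mod_cast hD0
  -- powers of `λ`
  have hlamk : ∀ k : ℕ, k ≤ 9 → lam ^ k ≤ lam ^ 9 := fun k hk => pow_le_pow_right₀ l1 hk
  have hlam9 : 0 < lam ^ 9 := by positivity
  have p1 : 0 ≤ C7 * C1 / ε := by positivity
  have p2 : 0 ≤ 8 * C4 * C7 / ε := by positivity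
  have p3 : 0 ≤ 8 * C1 / ε := by positivity
  have q1 : (C7 * C1 / ε) * lam ^ 9 ≤ L :=
    (mul_le_mul_of_nonneg_right (by linarith) hlam9.le).trans b12
  have q2 : (8 * C4 * C7 / ε) * lam ^ 9 ≤ L :=
    (mul_le_mul_of_nonneg_right (by linarith) hlam9.le).trans b12
  have q3 : (8 * C1 / ε) * lam ^ 9 ≤ L :=
    (mul_le_mul_of_nonneg_right (by linarith) hlam9.le).trans b12
  have q4 : (8 * C1 + 8 * (E + 1)) * lam ^ 9 ≤ L :=
    (mul_le_mul_of_nonneg_right (by linarith) hlam9.le).trans b12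
  have hlogz : Real.log z ≤ E * lam := by
    have := Real.log_le_log hz0 hzE
    rw [Real.log_pow] at this
    exact this
  have hC1lam : C1 * lam ^ 2 ≤ C1 * lam ^ 9 := mul_le_mul_of_nonneg_left (hlamk 2 (by norm_num)) hC1
  have hElam : (E : ℝ) * lam ≤ (E + 1) * lam ^ 9 := by
    have := hlamk 1 (by norm_num)
    rw [pow_one] at this
    apply mul_le_mul (by linarith) this hlam0.le (by linarith)
  have hlogD : L / 8 ≤ Real.log D0 := by
    have : 0 ≤ 8 * ((E : ℝ) + 1) * lam ^ 9 := by positivity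
    linarith
  have hzD : z ≤ D0 := by
    have h13 : Real.log z ≤ Real.log D0 := by
      have : 0 ≤ 8 * C1 * lam ^ 9 := by positivity
      linarith
    exact_mod_cast (Real.log_le_log_iff hz0 hD00).1 h13
  obtain ⟨k1, k2⟩ := h3' hzn a ha haz han D0 hzD
  have k3 := h4' hz3' hzE n hn a ha haz D0 hD0
  clear h3' h4'
  obtain ⟨-, k7, k8⟩ := h5 z hz3'
  have hV0 : 0 < (Vz z)⁻¹ := inv_pos.2 (Vz_pos z)
  have hVle : (Vz z)⁻¹ ≤ C7 * lam ^ 2 := by
    calc (Vz z)⁻¹ ≤ C5 * Real.log z ^ 2 := k7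
      _ ≤ C5 * ((E + 1) * lam) ^ 2 := by
          apply mul_le_mul_of_nonneg_left _ (by linarith)
          exact pow_le_pow_left₀ (by linarith) (by linarith) 2
      _ = _ := by rw [hC7]; ring
  have hcc0 : 0 < cT a n := lt_of_lt_of_le (by have := Vz_pos z; linarith) k2
  have hccV : 1 / (2 * (C7 * lam ^ 2)) ≤ cT a n := by
    have h13 : (Vz z)⁻¹ * Vz z = 1 := inv_mul_cancel₀ (Vz_pos z).ne'
    have h14 := mul_le_mul_of_nonneg_left k2 hV0.le
    have h15 : (Vz z)⁻¹ * cT a n ≤ (C7 * lam ^ 2) * cT a n := mul_le_mul_of_nonneg_right hVle hcc0.le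
    rw [div_le_iff₀ (by positivity)]
    linarith
  -- the lower bound
  have low : (n : ℝ) / lam ^ 3 ≤ Xn n z * Real.log n * cT a n := by
    have h14 := HL_lower n d1
    have h15 : (1 / 2) * (HL n * Real.log n) ≤ Xn n z := by
      have := (abs_le.1 d6).1
      linarith
    have h16 : (n : ℝ) / 2 ≤ Xn n z * Real.log n := by
      rw [div_le_iff₀ hlogn0] at h14
      nlinarith
    have h17 : (n : ℝ) / 2 * (1 / (2 * (C7 * lam ^ 2))) ≤ Xn n z * Real.log n * cT a n :=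
      mul_le_mul h16 hccV (by positivity) (mul_nonneg (Xn_nonneg n z) hlogn0.le)
    refine le_trans ?_ h17
    rw [div_mul_div_comm, div_le_div_iff₀ (by positivity) (by positivity)]
    have h19 : (4 * C7) * lam ^ 2 ≤ lam * lam ^ 2 := mul_le_mul_of_nonneg_right l0 (by positivity)
    calc (n : ℝ) * (2 * (2 * (C7 * lam ^ 2))) = n * ((4 * C7) * lam ^ 2) := by ring
      _ ≤ n * (lam * lam ^ 2) := mul_le_mul_of_nonneg_left h19 hn0.le
      _ = _ := by ring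
  refine ⟨?_, low, hcc0⟩
  have hS := S_near (∑ e ∈ Icc 1 D0, 1 / (e : ℝ) * ∏ q ∈ e.primeFactors, bl n z a q) (Real.log D0)
    (∏ q ∈ pz D0, (1 + (bl n z a q - 1) / q)) (cT a n) (Real.log n) ε (C4 * lam ^ 3) (C1 * lam ^ 2) hcc0 hlogn0
    (by linarith) hlD2 k3 k1 hlD1 (by positivity) (by
      have h14 : 8 * C4 * C7 * lam ^ 9 ≤ ε * L := by
        have h15 := mul_le_mul_of_nonneg_left q2 hε.le
        have h16 : ε * ((8 * C4 * C7 / ε) * lam ^ 9) = 8 * C4 * C7 * lam ^ 9 := by field_simp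
        rwa [h16] at h15
      have h15 : 8 * C4 * C7 * lam ^ 5 ≤ 8 * C4 * C7 * lam ^ 9 := mul_le_mul_of_nonneg_left (hlamk 5 (by norm_num)) (by positivity)
      have h16 : ε * (L / 2) * (1 / (2 * (C7 * lam ^ 2))) ≤ ε * (Real.log n * cT a n) := by
        rw [mul_assoc]
        apply mul_le_mul_of_nonneg_left _ hε.le
        exact mul_le_mul s2 hccV (by positivity) hlogn0.le
      refine le_trans ?_ h16
      rw [mul_one_div, le_div_iff₀ (by positivity)]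
      have h17 : 2 * (C4 * lam ^ 3) * (2 * (C7 * lam ^ 2)) = (8 * C4 * C7 * lam ^ 5) / 2 := by ring
      rw [h17]
      linarith) (by
      have h14 : 8 * C1 * lam ^ 9 ≤ ε * L := by
        have h15 := mul_le_mul_of_nonneg_left q3 hε.le
        have h16 : ε * ((8 * C1 / ε) * lam ^ 9) = 8 * C1 * lam ^ 9 := by field_simp
        rwa [h16] at h15
      have h15 : ε * (L / 2) ≤ ε * Real.log n := mul_le_mul_of_nonneg_left s2 hε.le
      linarith)
  refine T_near _ _ (Xn n z) ((Vz z)⁻¹) (H343E.pi1 n * Wn n z) (Real.log n) (cT a n) ε _ (n / lam ^ 3) hV0 rfl (Xn_nonneg n z) k9 hS ?_ low hε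
  -- the error
  calc (Vz z)⁻¹ * (C1 * lam ^ 4 * (n / L)) ≤ (C7 * lam ^ 2) * (C1 * lam ^ 4 * (n / L)) :=
        mul_le_mul_of_nonneg_right hVle (by positivity)
    _ = (C7 * C1 * lam ^ 9) * n / (L * lam ^ 3) := by field_simp
    _ ≤ (ε * L) * n / (L * lam ^ 3) := by
        apply div_le_div_of_nonneg_right _ (by positivity)
        apply mul_le_mul_of_nonneg_right _ hn0.le
        have h15 := mul_le_mul_of_nonneg_left q1 hε.le
        have h16 : ε * ((C7 * C1 / ε) * lam ^ 9) = C7 * C1 * lam ^ 9 := by field_simp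
        rwa [h16] at h15
    _ = ε * (n / lam ^ 3) := by field_simp

end Pool.Agent.K4H18.TD
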