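import Pool.Agent.K4H18.TD.B8

set_option autoImplicit false

/-! The divisor function over the partitions of a good number. -/

namespace Pool.Agent.K4H18.TD

open Finset
open Pool.Agent.H373R2.T7 (pz mem_pz Vz Vz_pos Vz_inv_small ev_L' es es_nonneg)
open Pool.Agent.H560R3.GB (energy g HL sing)
open Pool.Agent.K4H18.EK (Ps Pn card_Pn pr RG LG RG_LG Dif Dif_eq pi1_nonneg Xn Xn_nonneg Xn_near basic)

/-- the truncated divisor function -/
noncomputable def mt (N K : ℕ) (a : ℤ) (b : ℕ) : ℝ := min (tau a b : ℝ) (Real.log N ^ K)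

/-- the weight -/
noncomputable def wT (N K : ℕ) (a : ℤ) (b : ℕ) : ℂ := ((mt N K a b / Real.log N ^ K : ℝ) : ℂ)

lemma mt_nonneg (N K : ℕ) (a : ℤ) (b : ℕ) (hL : 0 ≤ Real.log N) : 0 ≤ mt N K a b := le_min (Nat.cast_nonneg _) (by positivity)

lemma norm_wT (N K : ℕ) (a : ℤ) (b : ℕ) (hL : 0 < Real.log N) : ‖wT N K a b‖ ≤ 1 := by
  unfold wT
  have h0 := mt_nonneg N K a b hL.le
  rw [Complex.norm_real, Real.norm_eq_abs, abs_of_nonneg (by positivity), div_le_one (by positivity)]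
  exact min_le_right _ _

/-- the tail -/
lemma tau_tail (n : ℕ) (a : ℤ) (hn : 1 ≤ n) (ha : a.natAbs ≤ n) (y : ℝ) (hy : 0 < y) :
    ∑ b ∈ Icc 1 n, ((tau a b : ℝ) - min (tau a b : ℝ) y) ≤ (4 * n * (1 + Real.log (2 * n : ℕ)) ^ 4) / y := by
  classical
  have h1 : ∀ b ∈ Icc 1 n, (tau a b : ℝ) - min (tau a b : ℝ) y ≤ (tau a b : ℝ) ^ 2 / y := by
    intro b _
    have h0 : (0 : ℝ) ≤ tau a b := Nat.cast_nonneg _
    rcases le_total (tau a b : ℝ) y with h | h
    · rw [min_eq_left h, sub_self]; positivity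
    · rw [min_eq_right h, le_div_iff₀ hy]
      nlinarith
  refine (sum_le_sum h1).trans ?_
  rw [← sum_div]
  apply div_le_div_of_nonneg_right _ hy.le
  -- two to one
  have h2 : ∑ b ∈ Icc 1 n, (tau a b : ℝ) ^ 2 ≤ 2 * ∑ m ∈ Icc 1 (2 * n), (m.divisors.card : ℝ) ^ 2 := by
    have h3 : ∑ b ∈ Icc 1 n, (tau a b : ℝ) ^ 2 = ∑ b ∈ (Icc 1 n).filter (fun b : ℕ => (b : ℤ) ≠ a), (tau a b : ℝ) ^ 2 := by
      rw [sum_filter]
      apply sum_congr rfl
      intro b _
      split_ifs with h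
      · rfl
      · push Not at h
        unfold tau
        rw [h]
        simp
    rw [h3, ← sum_fiberwise_of_maps_to (s := (Icc 1 n).filter (fun b : ℕ => (b : ℤ) ≠ a)) (t := Icc 1 (2 * n))
      (g := fun b : ℕ => ((b : ℤ) - a).natAbs), mul_sum]
    · apply sum_le_sum
      intro m _
      have h4 : ∑ b ∈ ((Icc 1 n).filter (fun b : ℕ => (b : ℤ) ≠ a)).filter (fun b : ℕ => ((b : ℤ) - a).natAbs = m), (tau a b : ℝ) ^ 2 =
          ((((Icc 1 n).filter (fun b : ℕ => (b : ℤ) ≠ a)).filter (fun b : ℕ => ((b : ℤ) - a).natAbs = m)).card : ℝ) * (m.divisors.card : ℝ) ^ 2 := by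
        rw [← nsmul_eq_mul, ← sum_const]
        apply sum_congr rfl
        intro b hb
        rw [mem_filter] at hb
        unfold tau
        rw [hb.2]
      rw [h4]
      apply mul_le_mul_of_nonneg_right _ (by positivity)
      have h5 : (((Icc 1 n).filter (fun b : ℕ => (b : ℤ) ≠ a)).filter (fun b : ℕ => ((b : ℤ) - a).natAbs = m)).card ≤
          ({(a + m).toNat, (a - m).toNat} : Finset ℕ).card := by
        apply card_le_card
        intro b hb
        rw [mem_filter] at hb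
        rw [mem_insert, mem_singleton]
        have := hb.2
        omega
      have h6 : ({(a + m).toNat, (a - m).toNat} : Finset ℕ).card ≤ 2 := card_le_two
      exact_mod_cast h5.trans h6
    · intro b hb
      rw [mem_filter, mem_Icc] at hb
      rw [mem_Icc]
      have h4 : ((b : ℤ) - a).natAbs ≠ 0 := by
        rw [Int.natAbs_ne_zero]
        intro h
        exact hb.2 (by linarith)
      omega
  refine h2.trans ?_
  have h3 := tau_sq (2 * n) (by omega)
  push_cast at h3 ⊢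
  linarith

/-- real arithmetic -/
lemma final_arith (ε ln sg T' M Hl gg cc : ℝ) (hε : 0 < ε) (hε1 : ε ≤ 1 / 40) (hln : 0 < ln) (hcc : 0 < cc) (hHl : 0 < Hl)
    (h1 : |T' - M| ≤ 5 * ε * M) (h2 : |M - Hl * ln * ln * cc| ≤ ε * (Hl * ln * ln * cc)) (h3 : |gg - Hl| ≤ ε * Hl)
    (h4 : T' ≤ ln * sg) (h5 : ln * sg ≤ T' + ε * (ln * sg) + ε * M) : |sg - cc * gg * ln| ≤ 20 * ε * (cc * gg * ln) := by
  set Q := Hl * ln * ln * cc with hQ
  have hQ0 : 0 < Q := by positivity
  obtain ⟨a1, a2⟩ := abs_le.1 h1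
  obtain ⟨a3, a4⟩ := abs_le.1 h2
  obtain ⟨a5, a6⟩ := abs_le.1 h3
  have hM0 : 0 < M := by nlinarith
  have b1 : (1 - 6 * ε) * Q ≤ ln * sg := by nlinarith
  have b2 : ln * sg ≤ (1 + 10 * ε) * Q := by
    have : (1 - ε) * (ln * sg) ≤ (1 + 8 * ε) * Q := by nlinarith
    have h6 : (1 + 8 * ε) * Q ≤ (1 - ε) * ((1 + 10 * ε) * Q) := by
      have : (1 + 8 * ε) ≤ (1 - ε) * (1 + 10 * ε) := by nlinarith
      calc (1 + 8 * ε) * Q ≤ ((1 - ε) * (1 + 10 * ε)) * Q := mul_le_mul_of_nonneg_right this hQ0.le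
        _ = _ := by ring
    exact le_of_mul_le_mul_left (this.trans h6) (by linarith)
  have hG : |cc * gg * ln * ln - Q| ≤ ε * Q := by
    have e : cc * gg * ln * ln - Q = (cc * ln * ln) * (gg - Hl) := by rw [hQ]; ring
    rw [e, abs_mul, abs_of_pos (show 0 < cc * ln * ln by positivity)]
    calc (cc * ln * ln) * |gg - Hl| ≤ (cc * ln * ln) * (ε * Hl) := mul_le_mul_of_nonneg_left h3 (by positivity)
      _ = ε * Q := by rw [hQ]; ring
  obtain ⟨a7, a8⟩ := abs_le.1 hG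
  have h6 : |ln * sg - cc * gg * ln * ln| ≤ 20 * ε * (cc * gg * ln * ln) := by
    rw [abs_le]
    constructor <;> nlinarith
  have e1 : ln * sg - cc * gg * ln * ln = ln * (sg - cc * gg * ln) := by ring
  have e2 : 20 * ε * (cc * gg * ln * ln) = ln * (20 * ε * (cc * gg * ln)) := by ring
  rw [e1, e2, abs_mul, abs_of_pos hln] at h6
  exact le_of_mul_le_mul_left h6 hln

end Pool.Agent.K4H18.TD
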